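import Pool.Agent.N213.GF.C

set_option autoImplicit false

/-! Blocks of digits which are conditionally independent, given the other digits: averages over the blocks. -/

namespace Pool.Agent.H85G
open Finset
open Pool.Agent.N213.GF (dig mk Off splice mass cl csum avg mem_cl mass_eq cl_eq mass_csum splice_bij splice_lt dig_splice
  dig_ext off_refl off_symm off_trans)

variable {b k : ℕ} {Bl : ℕ → Finset ℕ} {p : ℕ → ℝ}

/-- the digits in the blocks are conditionally independent, given the digits outside the blocks -/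
structure Ex (b k : ℕ) (Bl : ℕ → Finset ℕ) (S : Finset ℕ) (p : ℕ → ℝ) : Prop where
  nonneg : ∀ v, 0 ≤ p v
  disj : ∀ i ∈ S, ∀ j ∈ S, i ≠ j → Disjoint (Bl i) (Bl j)
  exch : ∀ i ∈ S, ∀ j ∈ S, i ≠ j → ∀ w < b ^ k, ∀ v < b ^ k, Off b (Bl i ∪ Bl j) w v →
    p w * p v = p (splice b k (Bl i) w v) * p (splice b k (Bl i) v w)

lemma Ex.mono {S T : Finset ℕ} (h : Ex b k Bl S p) (hT : T ⊆ S) : Ex b k Bl T p :=
  ⟨h.nonneg, fun i hi j hj => h.disj i (hT hi) j (hT hj), fun i hi j hj => h.exch i (hT hi) j (hT hj)⟩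

lemma mass_pos (hp : ∀ v, 0 ≤ p v) (S : Finset ℕ) (v : ℕ) (hv : v < b ^ k) (hpv : p v ≠ 0) : 0 < mass b k p S v := by
  rw [mass_eq]
  have h1 : 0 < p v := lt_of_le_of_ne (hp v) hpv.symm
  have h2 : p v ≤ ∑ w ∈ cl b k S v, p w :=
    single_le_sum (f := p) (fun w _ => hp w) (mem_cl.2 ⟨hv, off_refl S v⟩)
  linarith

lemma mass_nonneg (hp : ∀ v, 0 ≤ p v) (S : Finset ℕ) (v : ℕ) : 0 ≤ mass b k p S v := by
  rw [mass_eq]
  exact sum_nonneg fun w _ => hp w

/-- the average over one block does not depend on the digits in another block -/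
lemma avg_inv (hb : 2 ≤ b) {S : Finset ℕ} (hE : Ex b k Bl S p) (i j : ℕ) (hi : i ∈ S) (hj : j ∈ S) (hij : i ≠ j) (h : ℕ → ℂ)
    (hh : ∀ v < b ^ k, ∀ w < b ^ k, (∀ x ∈ Bl i, dig b v x = dig b w x) → h v = h w)
    (v v' : ℕ) (hv : v < b ^ k) (hv' : v' < b ^ k) (hoff : Off b (Bl j) v v') :
    (p v' : ℂ) * csum b k p h (Bl i) v = p v * csum b k p h (Bl i) v' := by
  have hdis := hE.disj i hi j hj hij
  have hS : ∀ x ∈ Bl i, dig b v x = dig b v' x := by
    intro x hx
    apply hoff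
    intro hx'
    exact disjoint_left.1 hdis hx hx'
  unfold csum
  rw [mul_sum, mul_sum]
  apply splice_bij hb _ v v' hv hv' (fun w => (p v' : ℂ) * ((p w : ℂ) * h w)) (fun w => (p v : ℂ) * ((p w : ℂ) * h w))
  intro w hw
  rw [mem_cl] at hw
  have h1 : h w = h (splice b k (Bl i) w v') := by
    apply hh w hw.1 _ (splice_lt b k hb _ _ _)
    intro x hx
    rw [dig_splice b k hb _ w v' hw.1 hv', if_pos hx]
  have h2 := hE.exch i hi j hj hij w hw.1 v' hv' (by
    intro x hx
    rw [mem_union, not_or] at hx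
    rw [hw.2 x hx.1]
    exact hoff x hx.2)
  have h3 : splice b k (Bl i) v' w = v := by
    apply dig_ext b k hb _ _ (splice_lt b k hb _ _ _) hv
    intro x
    rw [dig_splice b k hb _ v' w hv' hw.1]
    split_ifs with hx
    · exact (hS x hx).symm
    · exact hw.2 x hx
  rw [h3] at h2
  have h4 : (p w : ℂ) * p v' = p (splice b k (Bl i) w v') * p v := by exact_mod_cast h2
  rw [h1]
  linear_combination (h (splice b k (Bl i) w v')) * h4

lemma avg_inv' (hb : 2 ≤ b) {S : Finset ℕ} (hE : Ex b k Bl S p) (i j : ℕ) (hi : i ∈ S) (hj : j ∈ S) (hij : i ≠ j) (h : ℕ → ℂ)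
    (hh : ∀ v < b ^ k, ∀ w < b ^ k, (∀ x ∈ Bl i, dig b v x = dig b w x) → h v = h w)
    (v v' : ℕ) (hv : v < b ^ k) (hv' : v' < b ^ k) (hpv : p v ≠ 0) (hpv' : p v' ≠ 0) (hoff : Off b (Bl j) v v') :
    avg b k p h (Bl i) v = avg b k p h (Bl i) v' := by
  have h1 := avg_inv hb hE i j hi hj hij h hh v v' hv hv' hoff
  have h2 := avg_inv hb hE i j hi hj hij (fun _ => 1) (fun _ _ _ _ _ => rfl) v v' hv hv' hoff
  rw [← mass_csum, ← mass_csum] at h2
  have m1 : (mass b k p (Bl i) v : ℂ) ≠ 0 := by exact_mod_cast (mass_pos hE.nonneg _ v hv hpv).ne'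
  have m2 : (mass b k p (Bl i) v' : ℂ) ≠ 0 := by exact_mod_cast (mass_pos hE.nonneg _ v' hv' hpv').ne'
  have q1 : (p v : ℂ) ≠ 0 := by exact_mod_cast hpv
  have q2 : (p v' : ℂ) ≠ 0 := by exact_mod_cast hpv'
  unfold avg
  rw [div_eq_div_iff m1 m2]
  apply mul_left_cancel₀ (mul_ne_zero q1 q2)
  linear_combination (p v * mass b k p (Bl i) v') * h1 - (p v * csum b k p h (Bl i) v') * h2

/-- averaging over one block -/
lemma average (hp : ∀ v, 0 ≤ p v) (S : Finset ℕ) (h G : ℕ → ℂ)
    (hG : ∀ v < b ^ k, ∀ w < b ^ k, p v ≠ 0 → p w ≠ 0 → Off b S v w → G v = G w) :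
    ∑ v ∈ range (b ^ k), (p v : ℂ) * (G v * h v) = ∑ v ∈ range (b ^ k), (p v : ℂ) * (G v * avg b k p h S v) := by
  classical
  have h1 : ∀ v ∈ range (b ^ k), (p v : ℂ) * (G v * avg b k p h S v) =
      ∑ w ∈ range (b ^ k), if Off b S w v then (p v : ℂ) * G v * (p w * h w) / mass b k p S v else 0 := by
    intro v _
    rw [← sum_filter, ← sum_div, ← mul_sum]
    unfold avg csum cl
    ring
  rw [sum_congr rfl h1, sum_comm]
  apply sum_congr rfl
  intro w hw
  rw [mem_range] at hw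
  by_cases hpw : p w = 0
  · rw [hpw, Complex.ofReal_zero, zero_mul]
    symm
    apply sum_eq_zero
    intro v _
    rw [zero_mul, mul_zero, zero_div, ite_self]
  · have m1 := mass_pos hp S w hw hpw
    have h2 : ∀ v ∈ range (b ^ k), (if Off b S w v then (p v : ℂ) * G v * (p w * h w) / mass b k p S v else 0) =
        if Off b S v w then (p v : ℂ) * (G w * (p w * h w) / mass b k p S w) else 0 := by
      intro v hv
      rw [mem_range] at hv
      by_cases hvw : Off b S v w
      · rw [if_pos hvw, if_pos (off_symm hvw)]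
        have e1 : mass b k p S v = mass b k p S w := by rw [mass_eq, mass_eq, cl_eq hvw]
        by_cases hpv : p v = 0
        · rw [hpv, Complex.ofReal_zero]; ring
        · rw [e1, hG v hv w hw hpv hpw hvw]
          ring
      · rw [if_neg hvw, if_neg (fun h => hvw (off_symm h))]
    rw [sum_congr rfl h2, ← sum_filter, ← sum_mul]
    have h3 : ∑ v ∈ (range (b ^ k)).filter (fun v => Off b S v w), (p v : ℂ) = mass b k p S w := by
      rw [mass_eq]
      unfold cl
      push_cast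
      rfl
    rw [h3]
    have m2 : (mass b k p S w : ℂ) ≠ 0 := by exact_mod_cast m1.ne'
    field_simp

/-- the averages over the blocks -/
theorem blocks (hb : 2 ≤ b) (ρ : ℝ) (hρ : 0 ≤ ρ) (h : ℕ → ℕ → ℂ) (S : Finset ℕ) :
    Ex b k Bl S p →
    (∀ i ∈ S, ∀ v < b ^ k, ∀ w < b ^ k, (∀ x ∈ Bl i, dig b v x = dig b w x) → h i v = h i w) →
    (∀ i ∈ S, ∀ v < b ^ k, p v ≠ 0 → ‖csum b k p (h i) (Bl i) v‖ ≤ ρ * mass b k p (Bl i) v) →
    ∀ G : ℕ → ℂ, (∀ i ∈ S, ∀ v < b ^ k, ∀ w < b ^ k, p v ≠ 0 → p w ≠ 0 → Off b (Bl i) v w → G v = G w) →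
    ‖∑ v ∈ range (b ^ k), (p v : ℂ) * (G v * ∏ i ∈ S, h i v)‖ ≤ ρ ^ S.card * ∑ v ∈ range (b ^ k), p v * ‖G v‖ := by
  classical
  induction S using Finset.induction_on with
  | empty =>
    intro hE _ _ G _
    simp only [prod_empty, mul_one, card_empty, pow_zero, one_mul]
    refine (norm_sum_le _ _).trans (le_of_eq ?_)
    apply sum_congr rfl
    intro v _
    rw [norm_mul, Complex.norm_real, Real.norm_of_nonneg (hE.nonneg v)]
  | insert i S hi ih =>
    intro hE h1 h2 G hG
    have e1 : ∀ v ∈ range (b ^ k), (p v : ℂ) * (G v * ∏ j ∈ insert i S, h j v) = p v * ((G v * ∏ j ∈ S, h j v) * h i v) := by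
      intro v _
      rw [prod_insert hi]
      ring
    have hne : ∀ j ∈ S, i ≠ j := fun j hj h => hi (h ▸ hj)
    rw [sum_congr rfl e1, average hE.nonneg (Bl i) (h i) (fun v => G v * ∏ j ∈ S, h j v) (by
      intro v hv w hw hpv hpw hoff
      rw [hG i (mem_insert_self i S) v hv w hw hpv hpw hoff]
      congr 1
      apply prod_congr rfl
      intro j hj
      apply h1 j (mem_insert_of_mem hj) v hv w hw
      intro x hx
      apply hoff
      intro hx'
      exact disjoint_left.1 (hE.disj i (mem_insert_self i S) j (mem_insert_of_mem hj) (hne j hj)) hx' hx)]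
    have e2 : ∀ v ∈ range (b ^ k), (p v : ℂ) * (G v * (∏ j ∈ S, h j v) * avg b k p (h i) (Bl i) v) =
        p v * ((G v * avg b k p (h i) (Bl i) v) * ∏ j ∈ S, h j v) := by
      intro v _
      ring
    rw [sum_congr rfl e2]
    have h4 := ih (hE.mono (subset_insert i S)) (fun j hj => h1 j (mem_insert_of_mem hj)) (fun j hj => h2 j (mem_insert_of_mem hj))
      (fun v => G v * avg b k p (h i) (Bl i) v) (by
        intro j hj v hv w hw hpv hpw hoff
        rw [hG j (mem_insert_of_mem hj) v hv w hw hpv hpw hoff]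
        congr 1
        exact avg_inv' hb hE i j (mem_insert_self i S) (mem_insert_of_mem hj) (hne j hj) (h i)
          (h1 i (mem_insert_self i S)) v w hv hw hpv hpw hoff)
    refine h4.trans ?_
    rw [card_insert_of_notMem hi, pow_succ, mul_assoc]
    apply mul_le_mul_of_nonneg_left _ (pow_nonneg hρ _)
    rw [mul_sum]
    apply sum_le_sum
    intro v hv
    rw [mem_range] at hv
    by_cases hpv : p v = 0
    · rw [hpv, zero_mul, zero_mul, mul_zero]
    · have m1 := mass_pos hE.nonneg (Bl i) v hv hpv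
      have h5 : ‖avg b k p (h i) (Bl i) v‖ ≤ ρ := by
        unfold avg
        rw [norm_div, Complex.norm_real, Real.norm_of_nonneg m1.le, div_le_iff₀ m1]
        exact h2 i (mem_insert_self i S) v hv hpv
      rw [norm_mul]
      have h6 := hE.nonneg v
      calc p v * (‖G v‖ * ‖avg b k p (h i) (Bl i) v‖) ≤ p v * (‖G v‖ * ρ) := by gcongr
        _ = _ := by ring

/-- two flexible values -/
lemma two_vals (hp : ∀ v, 0 ≤ p v) (B : Finset ℕ) (i : ℕ) (hiB : i ∈ B) (h : ℕ → ℂ) (h1 : ∀ w, ‖h w‖ ≤ 1) (c η : ℝ)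
    (hc : ∀ x < b ^ k, ∀ y < b ^ k, Off b {i} y x → dig b y i ≠ dig b x i → ‖h x + h y‖ ≤ 2 - c)
    (v : ℕ) (hη : 0 ≤ η)
    (hfl : ∃ x < b ^ k, ∃ y < b ^ k, Off b B x v ∧ Off b {i} y x ∧
      dig b y i ≠ dig b x i ∧ η * mass b k p B v ≤ p x ∧ η * mass b k p B v ≤ p y) :
    ‖csum b k p h B v‖ ≤ (1 - η * c) * mass b k p B v := by
  classical
  obtain ⟨x, hx, y, hy, hxv, hyx, hne, hpx, hpy⟩ := hfl
  obtain ⟨W, hW⟩ : ∃ W, W = mass b k p B v := ⟨_, rfl⟩
  rw [← hW] at hpx hpy ⊢
  have hW0 : 0 ≤ W := by rw [hW]; exact mass_nonneg hp _ _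
  have hxc : x ∈ cl b k B v := mem_cl.2 ⟨hx, hxv⟩
  have hyc : y ∈ cl b k B v := by
    refine mem_cl.2 ⟨hy, fun j hj => ?_⟩
    rw [← hxv j hj]
    apply hyx
    rw [mem_singleton]
    intro h
    exact hj (h ▸ hiB)
  have hxy : x ≠ y := fun h => hne (by rw [h])
  have e1 : csum b k p h B v = ∑ w ∈ cl b k B v,
      ((p w - (if w = x then η * W else 0) - (if w = y then η * W else 0) : ℝ) : ℂ) * h w + (η * W : ℝ) * (h x + h y) := by
    have e2 : (η * W : ℝ) * (h x + h y) = ∑ w ∈ cl b k B v, ((if w = x then ((η * W : ℝ) : ℂ) * h w else 0) +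
        (if w = y then ((η * W : ℝ) : ℂ) * h w else 0)) := by
      rw [sum_add_distrib, sum_ite_eq' _ x, sum_ite_eq' _ y, if_pos hxc, if_pos hyc]
      ring
    rw [e2, ← sum_add_distrib]
    unfold csum
    apply sum_congr rfl
    intro w _
    split_ifs <;> push_cast <;> ring
  have e3 : ∑ w ∈ cl b k B v, (p w - (if w = x then η * W else 0) - (if w = y then η * W else 0)) = W - 2 * (η * W) := by
    rw [sum_sub_distrib, sum_sub_distrib, sum_ite_eq' _ x, sum_ite_eq' _ y, if_pos hxc, if_pos hyc, hW, ← mass_eq]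
    ring
  have e4 : ∀ w ∈ cl b k B v, 0 ≤ p w - (if w = x then η * W else 0) - (if w = y then η * W else 0) := by
    intro w _
    have := hp w
    by_cases hwx : w = x
    · rw [if_pos hwx, if_neg (fun h => hxy (hwx.symm.trans h)), hwx]
      linarith
    · by_cases hwy : w = y
      · rw [if_neg hwx, if_pos hwy, hwy]
        linarith
      · rw [if_neg hwx, if_neg hwy]
        linarith
  rw [e1]
  have hηW : 0 ≤ η * W := mul_nonneg hη hW0
  calc _ ≤ ‖∑ w ∈ cl b k B v,
      ((p w - (if w = x then η * W else 0) - (if w = y then η * W else 0) : ℝ) : ℂ) * h w‖ + ‖((η * W : ℝ) : ℂ) * (h x + h y)‖ := norm_add_le _ _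
    _ ≤ ∑ w ∈ cl b k B v, (p w - (if w = x then η * W else 0) - (if w = y then η * W else 0)) + (η * W) * (2 - c) := by
        apply add_le_add
        · refine (norm_sum_le _ _).trans ?_
          apply sum_le_sum
          intro w hw
          rw [norm_mul, Complex.norm_real, Real.norm_of_nonneg (e4 w hw)]
          exact mul_le_of_le_one_right (e4 w hw) (h1 w)
        · rw [norm_mul, Complex.norm_real, Real.norm_of_nonneg hηW]
          exact mul_le_mul_of_nonneg_left (hc x hx y hy hyx hne) hηW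
    _ = _ := by rw [e3]; ring

end Pool.Agent.H85G
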