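import Pool.Agent.H85G.A

set_option autoImplicit false

/-! Long range interactions: a dense set of positions which interact weakly. -/

namespace Pool.Agent.H85G
open Finset

/-- a dense subset with a small energy -/
lemma sparse (J : ℕ → ℕ → ℝ) (hJ : ∀ i j, 0 ≤ J i j) (hs : ∀ i j, J i j = J j i) (δ : ℝ) (hδ : 0 ≤ δ) (S : Finset ℕ) :
    ∃ T ⊆ S, ∑ i ∈ T, ∑ j ∈ T.erase i, J i j ≤ 2 * δ * T.card ∧
      δ * ((S \ T).card : ℝ) ≤ ∑ j ∈ T, ∑ i ∈ S \ T, J i j := by
  classical
  induction S using Finset.induction_on with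
  | empty => exact ⟨∅, subset_refl _, by simp, by simp⟩
  | insert a S ha ih =>
    obtain ⟨T, hTS, h1, h2⟩ := ih
    have haT : a ∉ T := fun h => ha (hTS h)
    by_cases hle : ∑ j ∈ T, J a j ≤ δ
    · refine ⟨insert a T, insert_subset_insert a hTS, ?_, ?_⟩
      · rw [sum_insert haT, erase_insert haT]
        have e1 : ∑ i ∈ T, ∑ j ∈ (insert a T).erase i, J i j = ∑ i ∈ T, (J i a + ∑ j ∈ T.erase i, J i j) := by
          apply sum_congr rfl
          intro i hi
          have hia : a ≠ i := fun h => haT (h ▸ hi)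
          rw [erase_insert_of_ne hia, sum_insert (by
            intro h
            exact haT (mem_of_mem_erase h))]
        rw [e1, sum_add_distrib]
        have e2 : ∑ i ∈ T, J i a = ∑ j ∈ T, J a j := sum_congr rfl fun i _ => hs i a
        rw [e2, card_insert_of_notMem haT]
        push_cast
        linarith
      · have e1 : insert a S \ insert a T = S \ T := by
          rw [insert_sdiff_insert]
          ext x
          simp only [mem_sdiff, mem_insert, not_or]
          constructor
          · rintro ⟨h, _, h'⟩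
            exact ⟨h, h'⟩
          · rintro ⟨h, h'⟩
            exact ⟨h, fun e => ha (e ▸ h), h'⟩
        rw [e1, sum_insert haT]
        have e2 : 0 ≤ ∑ i ∈ S \ T, J i a := sum_nonneg fun i _ => hJ i a
        linarith
    · push Not at hle
      refine ⟨T, hTS.trans (subset_insert a S), h1, ?_⟩
      have e1 : insert a S \ T = insert a (S \ T) := insert_sdiff_of_notMem S haT
      have e2 : a ∉ S \ T := fun h => ha (mem_sdiff.1 h).1
      rw [e1, card_insert_of_notMem e2]
      have e3 : ∑ j ∈ T, ∑ i ∈ insert a (S \ T), J i j = ∑ j ∈ T, (J a j + ∑ i ∈ S \ T, J i j) :=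
        sum_congr rfl fun j _ => sum_insert e2
      rw [e3, sum_add_distrib]
      push_cast
      linarith

/-- a dense subset with a small energy, if all the row sums are bounded -/
lemma sparse' (J : ℕ → ℕ → ℝ) (hJ : ∀ i j, 0 ≤ J i j) (hs : ∀ i j, J i j = J j i) (δ C : ℝ) (hδ : 0 < δ) (S : Finset ℕ)
    (hC : ∀ j ∈ S, ∑ i ∈ S.erase j, J i j ≤ C) :
    ∃ T ⊆ S, ∑ i ∈ T, ∑ j ∈ T.erase i, J i j ≤ 2 * δ * T.card ∧ (S.card : ℝ) ≤ (1 + C / δ) * T.card := by
  classical
  obtain ⟨T, hTS, h1, h2⟩ := sparse J hJ hs δ hδ.le S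
  refine ⟨T, hTS, h1, ?_⟩
  have h3 : ∑ j ∈ T, ∑ i ∈ S \ T, J i j ≤ ∑ _j ∈ T, C := by
    apply sum_le_sum
    intro j hj
    refine le_trans ?_ (hC j (hTS hj))
    apply sum_le_sum_of_subset_of_nonneg
    · intro i hi
      rw [mem_sdiff] at hi
      rw [mem_erase]
      exact ⟨fun h => hi.2 (h ▸ hj), hi.1⟩
    · intro i _ _
      exact hJ i j
  rw [sum_const, nsmul_eq_mul] at h3
  have h4 : S.card = (S \ T).card + T.card := (card_sdiff_add_card_eq_card hTS).symm
  have h5 : ((S \ T).card : ℝ) ≤ C / δ * T.card := by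
    rw [div_mul_eq_mul_div, le_div_iff₀ hδ]
    linarith
  rw [h4]
  push_cast
  linarith

end Pool.Agent.H85G
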