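import Pool.Agent.H85G.B

set_option autoImplicit false

/-! Long range interactions: the expansion. -/

namespace Pool.Agent.H85G
open Finset
open Pool.Agent.N213.GF (dig mk Off splice mass cl csum avg mem_cl mass_eq cl_eq mass_csum splice_bij splice_lt dig_splice
  dig_ext off_refl off_symm off_trans Field nb mem_nb self_mem Sep)

variable {b k Δ : ℕ} {η : ℝ} {A : ℕ → ℕ → Prop} {q : ℕ → ℝ}

/-- the total weight of the interactions at one position -/
def Sumb (k : ℕ) (M : ℝ) (W : Finset ℕ → ℝ) : Prop :=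
  ∀ i < k, ∑ X ∈ (range k).powerset.filter (fun X => i ∈ X), W X ≤ M

/-- the energy -/
noncomputable def energy (k : ℕ) (φ : Finset ℕ → ℕ → ℝ) (v : ℕ) : ℝ := ∑ X ∈ (range k).powerset, φ X v

/-- the blocks which meet `X` -/
noncomputable def hit (k : ℕ) (A : ℕ → ℕ → Prop) (S X : Finset ℕ) : Finset ℕ := by
  classical
  exact S.filter fun i => ¬ Disjoint (nb k A i) X

lemma mem_hit {S X : Finset ℕ} {i : ℕ} : i ∈ hit k A S X ↔ i ∈ S ∧ ¬ Disjoint (nb k A i) X := by
  classical
  unfold hit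
  rw [mem_filter]

lemma hit_card (S X : Finset ℕ) (hS : ∀ i ∈ S, ∀ j ∈ S, i ≠ j → Disjoint (nb k A i) (nb k A j)) : (hit k A S X).card ≤ X.card := by
  classical
  have h1 : (hit k A S X).card ≤ ∑ i ∈ hit k A S X, (nb k A i ∩ X).card := by
    rw [card_eq_sum_ones]
    apply sum_le_sum
    intro i hi
    rw [mem_hit, not_disjoint_iff_nonempty_inter] at hi
    exact card_pos.2 hi.2
  refine h1.trans ?_
  rw [← card_biUnion]
  · apply card_le_card
    intro x hx
    rw [mem_biUnion] at hx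
    obtain ⟨i, _, hx⟩ := hx
    exact (mem_inter.1 hx).2
  · intro i hi j hj hij
    exact (hS i (mem_hit.1 hi).1 j (mem_hit.1 hj).1 hij).mono inter_subset_left inter_subset_left

lemma sumb_block (M : ℝ) (W : Finset ℕ → ℝ) (hW : ∀ X, 0 ≤ W X) (hM : Sumb k M W) (B : Finset ℕ) (hB : ∀ i ∈ B, i < k)
    (P : Finset (Finset ℕ)) (hP : P ⊆ (range k).powerset) (hPB : ∀ X ∈ P, ¬ Disjoint B X) : ∑ X ∈ P, W X ≤ B.card * M := by
  classical
  have h1 : ∑ X ∈ P, W X ≤ ∑ X ∈ (range k).powerset, ∑ i ∈ B, if i ∈ X then W X else 0 := by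
    refine le_trans ?_ (sum_le_sum_of_subset_of_nonneg hP ?_)
    · apply sum_le_sum
      intro X hX
      obtain ⟨i, hi, hi'⟩ := not_disjoint_iff.1 (hPB X hX)
      have := single_le_sum (f := fun i => if i ∈ X then W X else 0) (fun i _ => by
        split_ifs
        · exact hW X
        · exact le_rfl) hi
      simp only [hi', if_true] at this
      exact this
    · intro X _ _
      apply sum_nonneg
      intro i _
      split_ifs
      · exact hW X
      · exact le_rfl
  refine h1.trans ?_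
  rw [sum_comm]
  have h2 : ∀ i ∈ B, ∑ X ∈ (range k).powerset, (if i ∈ X then W X else 0) ≤ M := by
    intro i hi
    rw [← sum_filter]
    exact hM i (hB i hi)
  refine (sum_le_sum h2).trans ?_
  rw [sum_const, nsmul_eq_mul]

/-- the sets which meet at least two blocks -/
noncomputable def far (k : ℕ) (A : ℕ → ℕ → Prop) (S : Finset ℕ) : Finset (Finset ℕ) :=
  (range k).powerset.filter fun X => 2 ≤ (hit k A S X).card

/-- the sets which meet at most one block -/
noncomputable def near (k : ℕ) (A : ℕ → ℕ → Prop) (S : Finset ℕ) : Finset (Finset ℕ) :=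
  (range k).powerset.filter fun X => ¬ 2 ≤ (hit k A S X).card

lemma energy_split (φ : Finset ℕ → ℕ → ℝ) (S : Finset ℕ) (v : ℕ) :
    energy k φ v = ∑ X ∈ far k A S, φ X v + ∑ X ∈ near k A S, φ X v := by
  unfold energy far near
  rw [sum_filter_add_sum_filter_not]

/-- the weight without the interactions between the blocks -/
noncomputable def p1 (k : ℕ) (A : ℕ → ℕ → Prop) (S : Finset ℕ) (q : ℕ → ℝ) (φ : Finset ℕ → ℕ → ℝ) (v : ℕ) : ℝ :=
  q v * Real.exp (∑ X ∈ near k A S, φ X v)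

lemma near_one {S X : Finset ℕ} (hX : X ∈ near k A S) {i j : ℕ} (hi : i ∈ S) (hj : j ∈ S) (hij : i ≠ j) :
    Disjoint (nb k A i) X ∨ Disjoint (nb k A j) X := by
  classical
  unfold near at hX
  rw [mem_filter] at hX
  by_contra hcon
  push Not at hcon
  apply hX.2
  have : ({i, j} : Finset ℕ) ⊆ hit k A S X := by
    intro x hx
    rw [mem_insert, mem_singleton] at hx
    rcases hx with rfl | rfl
    · exact mem_hit.2 ⟨hi, hcon.1⟩
    · exact mem_hit.2 ⟨hj, hcon.2⟩
  have := card_le_card this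
  rwa [card_pair hij] at this

lemma ex1 (hb : 2 ≤ b) (hF : Field b k Δ η A q) (φ : Finset ℕ → ℕ → ℝ)
    (hφ : ∀ X, ∀ v < b ^ k, ∀ w < b ^ k, (∀ i ∈ X, dig b v i = dig b w i) → φ X v = φ X w)
    (S : Finset ℕ) (hS : ∀ i ∈ S, ∀ j ∈ S, i ≠ j → Sep k A i j) : Ex b k (nb k A) S (p1 k A S q φ) := by
  classical
  refine ⟨fun v => mul_nonneg (hF.nonneg v) (Real.exp_pos _).le, ?_, ?_⟩
  · intro i hi j hj hij
    rw [disjoint_left]
    intro x hx hx'
    exact (hS i hi j hj hij x hx x hx').1 rfl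
  · intro i hi j hj hij w hw v hv hoff
    have h1 := hF.markov (nb k A i) w hw v hv (by
      intro x hx y hy hy' hxy
      apply hoff
      rw [mem_union, not_or]
      exact ⟨hy', fun h => (hS i hi j hj hij x hx y h).2 hxy⟩)
    have h2 : ∑ X ∈ near k A S, φ X w + ∑ X ∈ near k A S, φ X v =
        ∑ X ∈ near k A S, φ X (splice b k (nb k A i) w v) + ∑ X ∈ near k A S, φ X (splice b k (nb k A i) v w) := by
      rw [← sum_add_distrib, ← sum_add_distrib]
      apply sum_congr rfl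
      intro X hX
      rcases near_one hX hi hj hij with h | h
      · have e1 : φ X w = φ X (splice b k (nb k A i) v w) := by
          apply hφ X w hw _ (splice_lt b k hb _ _ _)
          intro x hx
          rw [dig_splice b k hb _ v w hv hw, if_neg (disjoint_right.1 h hx)]
        have e2 : φ X v = φ X (splice b k (nb k A i) w v) := by
          apply hφ X v hv _ (splice_lt b k hb _ _ _)
          intro x hx
          rw [dig_splice b k hb _ w v hw hv, if_neg (disjoint_right.1 h hx)]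
        rw [e1, e2, add_comm]
      · have e0 : ∀ x ∈ X, x ∉ nb k A i → dig b w x = dig b v x := by
          intro x hx hx'
          apply hoff
          rw [mem_union, not_or]
          exact ⟨hx', disjoint_right.1 h hx⟩
        have e1 : φ X w = φ X (splice b k (nb k A i) w v) := by
          apply hφ X w hw _ (splice_lt b k hb _ _ _)
          intro x hx
          rw [dig_splice b k hb _ w v hw hv]
          split_ifs with h'
          · rfl
          · exact e0 x hx h'
        have e2 : φ X v = φ X (splice b k (nb k A i) v w) := by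
          apply hφ X v hv _ (splice_lt b k hb _ _ _)
          intro x hx
          rw [dig_splice b k hb _ v w hv hw]
          split_ifs with h'
          · rfl
          · exact (e0 x hx h').symm
        rw [e1, e2]
    unfold p1
    have h3 : Real.exp (∑ X ∈ near k A S, φ X w) * Real.exp (∑ X ∈ near k A S, φ X v) =
        Real.exp (∑ X ∈ near k A S, φ X (splice b k (nb k A i) w v)) *
          Real.exp (∑ X ∈ near k A S, φ X (splice b k (nb k A i) v w)) := by
      rw [← Real.exp_add, ← Real.exp_add, h2]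
    calc _ = (q w * q v) * (Real.exp (∑ X ∈ near k A S, φ X w) * Real.exp (∑ X ∈ near k A S, φ X v)) := by ring
      _ = _ := by rw [h1, h3]; ring

/-- the energy does not change much in one block -/
lemma block_change (φ : Finset ℕ → ℕ → ℝ) (N : Finset ℕ → ℝ)
    (hφ : ∀ X, ∀ v < b ^ k, ∀ w < b ^ k, (∀ i ∈ X, dig b v i = dig b w i) → φ X v = φ X w)
    (hN : ∀ X, ∀ v < b ^ k, |φ X v| ≤ N X) (hN0 : ∀ X, 0 ≤ N X) (M : ℝ) (hM : Sumb k M N) (B : Finset ℕ) (hB : ∀ i ∈ B, i < k)
    (P : Finset (Finset ℕ)) (hP : P ⊆ (range k).powerset) (x y : ℕ) (hx : x < b ^ k) (hy : y < b ^ k) (hxy : Off b B x y) :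
    ∑ X ∈ P, φ X x ≤ ∑ X ∈ P, φ X y + 2 * (B.card * M) := by
  classical
  have h1 : ∑ X ∈ P, φ X x - ∑ X ∈ P, φ X y ≤ ∑ X ∈ P.filter (fun X => ¬ Disjoint B X), 2 * N X := by
    rw [← sum_sub_distrib, sum_filter]
    apply sum_le_sum
    intro X _
    by_cases h : Disjoint B X
    · rw [if_neg (not_not.2 h), hφ X x hx y hy (fun i hi => hxy i (disjoint_right.1 h hi)), sub_self]
    · rw [if_pos h]
      have e1 := hN X x hx
      have e2 := hN X y hy
      rw [abs_le] at e1 e2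
      linarith
  have h2 := sumb_block M N hN0 hM B hB (P.filter (fun X => ¬ Disjoint B X)) ((filter_subset _ _).trans hP)
    (fun X hX => (mem_filter.1 hX).2)
  rw [← mul_sum] at h1
  linarith

lemma flex1 (hF : Field b k Δ η A q) (hη : 0 ≤ η) (φ : Finset ℕ → ℕ → ℝ) (N : Finset ℕ → ℝ)
    (hφ : ∀ X, ∀ v < b ^ k, ∀ w < b ^ k, (∀ i ∈ X, dig b v i = dig b w i) → φ X v = φ X w)
    (hN : ∀ X, ∀ v < b ^ k, |φ X v| ≤ N X) (hN0 : ∀ X, 0 ≤ N X) (M : ℝ) (hM0 : 0 ≤ M) (hM : Sumb k M N)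
    (S : Finset ℕ) (i : ℕ) (hi : i < k) (v : ℕ) (hv : v < b ^ k) (hpv : p1 k A S q φ v ≠ 0) :
    ∃ x < b ^ k, ∃ y < b ^ k, Off b (nb k A i) x v ∧ Off b {i} y x ∧ dig b y i ≠ dig b x i ∧
      η * Real.exp (-(2 * ((Δ + 1) * M))) * mass b k (p1 k A S q φ) (nb k A i) v ≤ p1 k A S q φ x ∧
      η * Real.exp (-(2 * ((Δ + 1) * M))) * mass b k (p1 k A S q φ) (nb k A i) v ≤ p1 k A S q φ y := by
  classical
  have hqv : q v ≠ 0 := by
    intro h
    apply hpv
    unfold p1
    rw [h, zero_mul]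
  obtain ⟨x, hx, y, hy, hxv, hyx, hne, hqx, hqy⟩ := hF.flexible v hv hqv i hi
  have hyv : Off b (nb k A i) y v := by
    intro j hj
    rw [← hxv j hj]
    apply hyx
    rw [mem_singleton]
    intro h
    rw [h] at hj
    exact hj (self_mem hi)
  have key : ∀ z < b ^ k, Off b (nb k A i) z v → η * mass b k q (nb k A i) v ≤ q z →
      η * Real.exp (-(2 * ((Δ + 1) * M))) * mass b k (p1 k A S q φ) (nb k A i) v ≤ p1 k A S q φ z := by
    intro z hz hzv hqz
    have hP : near k A S ⊆ (range k).powerset := filter_subset _ _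
    have h1 : mass b k (p1 k A S q φ) (nb k A i) v ≤
        mass b k q (nb k A i) v * Real.exp (∑ X ∈ near k A S, φ X z + 2 * ((Δ + 1) * M)) := by
      rw [mass_eq, mass_eq, sum_mul]
      apply sum_le_sum
      intro w hw
      rw [mem_cl] at hw
      unfold p1
      apply mul_le_mul_of_nonneg_left _ (hF.nonneg w)
      rw [Real.exp_le_exp]
      have h2 := block_change φ N hφ hN hN0 M hM (nb k A i) (fun j hj => (mem_nb.1 hj).1) (near k A S) hP w z hw.1 hz
        (off_trans hw.2 (off_symm hzv))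
      have h3 : ((nb k A i).card : ℝ) * M ≤ (Δ + 1) * M := by
        apply mul_le_mul_of_nonneg_right _ hM0
        exact_mod_cast hF.degree i hi
      linarith
    have e1 : Real.exp (-(2 * ((Δ + 1) * M))) * Real.exp (∑ X ∈ near k A S, φ X z + 2 * ((Δ + 1) * M)) =
        Real.exp (∑ X ∈ near k A S, φ X z) := by
      rw [← Real.exp_add]
      congr 1
      ring
    calc η * Real.exp (-(2 * ((Δ + 1) * M))) * mass b k (p1 k A S q φ) (nb k A i) v
        ≤ η * Real.exp (-(2 * ((Δ + 1) * M))) * (mass b k q (nb k A i) v *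
          Real.exp (∑ X ∈ near k A S, φ X z + 2 * ((Δ + 1) * M))) :=
          mul_le_mul_of_nonneg_left h1 (mul_nonneg hη (Real.exp_pos _).le)
      _ = (η * mass b k q (nb k A i) v) * (Real.exp (-(2 * ((Δ + 1) * M))) *
          Real.exp (∑ X ∈ near k A S, φ X z + 2 * ((Δ + 1) * M))) := by ring
      _ = (η * mass b k q (nb k A i) v) * Real.exp (∑ X ∈ near k A S, φ X z) := by rw [e1]
      _ ≤ q z * Real.exp (∑ X ∈ near k A S, φ X z) := mul_le_mul_of_nonneg_right hqz (Real.exp_pos _).le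
  exact ⟨x, hx, y, hy, hxv, hyx, hne, key x hx hxv hqx, key y hy hyv hqy⟩

lemma exp_sub_one (x N : ℝ) (h : |x| ≤ N) : |Real.exp x - 1| ≤ Real.exp N - 1 := by
  rw [abs_le] at h
  rw [abs_le]
  have h1 : Real.exp x ≤ Real.exp N := Real.exp_le_exp.2 h.2
  have h2 : Real.exp (-N) ≤ Real.exp x := Real.exp_le_exp.2 h.1
  have h3 : 0 < Real.exp N := Real.exp_pos N
  have h4 : Real.exp (-N) * Real.exp N = 1 := by rw [← Real.exp_add, neg_add_cancel, Real.exp_zero]
  have h5 : 0 < Real.exp (-N) := Real.exp_pos _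
  constructor
  · nlinarith [sq_nonneg (Real.exp N - 1), sq_nonneg (Real.exp (-N) - 1)]
  · linarith

/-- the expansion -/
theorem expand (hb : 2 ≤ b) (hF : Field b k Δ η A q) (hη : 0 ≤ η) (φ : Finset ℕ → ℕ → ℝ) (N : Finset ℕ → ℝ)
    (hφ : ∀ X, ∀ v < b ^ k, ∀ w < b ^ k, (∀ i ∈ X, dig b v i = dig b w i) → φ X v = φ X w)
    (hN : ∀ X, ∀ v < b ^ k, |φ X v| ≤ N X) (hN0 : ∀ X, 0 ≤ N X) (M : ℝ) (hM0 : 0 ≤ M) (hM : Sumb k M N)
    (S : Finset ℕ) (hSk : ∀ i ∈ S, i < k) (hS : ∀ i ∈ S, ∀ j ∈ S, i ≠ j → Sep k A i j)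
    (c ρ : ℝ) (hρ0 : 0 < ρ) (hρ1 : ρ ≤ 1) (hρ : 1 - η * Real.exp (-(2 * ((Δ + 1) * M))) * c ≤ ρ)
    (h : ℕ → ℕ → ℂ) (hh : ∀ i ∈ S, ∀ v < b ^ k, ∀ w < b ^ k, (∀ x ∈ nb k A i, dig b v x = dig b w x) → h i v = h i w)
    (h1 : ∀ i v, ‖h i v‖ ≤ 1)
    (hc : ∀ i ∈ S, ∀ x < b ^ k, ∀ y < b ^ k, Off b {i} y x → dig b y i ≠ dig b x i → ‖h i x + h i y‖ ≤ 2 - c)
    (G : ℕ → ℂ) (hG1 : ∀ v, ‖G v‖ ≤ 1)
    (hG : ∀ i ∈ S, ∀ v < b ^ k, ∀ w < b ^ k, Off b (nb k A i) v w → G v = G w) :
    ‖∑ v ∈ range (b ^ k), ((q v * Real.exp (energy k φ v) : ℝ) : ℂ) * (G v * ∏ i ∈ S, h i v)‖ ≤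
      ρ ^ S.card * Real.exp (∑ X ∈ far k A S, ((Real.exp (N X) - 1) * (ρ⁻¹) ^ X.card + N X)) *
        ∑ v ∈ range (b ^ k), q v * Real.exp (energy k φ v) := by
  classical
  obtain ⟨p, hp⟩ : ∃ p, p = p1 k A S q φ := ⟨_, rfl⟩
  have hE : Ex b k (nb k A) S p := by rw [hp]; exact ex1 hb hF φ hφ S hS
  obtain ⟨f, hf⟩ : ∃ f : Finset ℕ → ℕ → ℝ, f = fun X v => Real.exp (φ X v) - 1 := ⟨_, rfl⟩
  obtain ⟨a, ha⟩ : ∃ a : Finset ℕ → ℝ, a = fun X => Real.exp (N X) - 1 := ⟨_, rfl⟩
  have ha0 : ∀ X, 0 ≤ a X := by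
    intro X
    rw [ha]
    have := Real.add_one_le_exp (N X)
    have := hN0 X
    simp only
    linarith
  have hfa : ∀ X, ∀ v < b ^ k, |f X v| ≤ a X := by
    intro X v hv
    rw [hf, ha]
    exact exp_sub_one _ _ (hN X v hv)
  have e1 : ∀ v ∈ range (b ^ k), ((q v * Real.exp (energy k φ v) : ℝ) : ℂ) * (G v * ∏ i ∈ S, h i v) =
      ∑ T ∈ (far k A S).powerset, (p v : ℂ) * ((∏ X ∈ T, (f X v : ℂ)) * (G v * ∏ i ∈ S, h i v)) := by
    intro v _
    rw [← mul_sum, ← sum_mul, ← prod_one_add]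
    have e2 : ∏ X ∈ far k A S, (1 + (f X v : ℂ)) = ((Real.exp (∑ X ∈ far k A S, φ X v) : ℝ) : ℂ) := by
      rw [Real.exp_sum]
      push_cast
      apply prod_congr rfl
      intro X _
      rw [hf]
      push_cast
      ring
    rw [e2, energy_split (A := A) φ S v, Real.exp_add, hp]
    unfold p1
    push_cast
    ring
  rw [sum_congr rfl e1, sum_comm]
  have Z0 : 0 ≤ ∑ v ∈ range (b ^ k), p v := sum_nonneg fun v _ => hE.nonneg v
  have key : ∀ T ∈ (far k A S).powerset,
      ‖∑ v ∈ range (b ^ k), (p v : ℂ) * ((∏ X ∈ T, (f X v : ℂ)) * (G v * ∏ i ∈ S, h i v))‖ ≤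
      ρ ^ S.card * (∏ X ∈ T, (a X * (ρ⁻¹) ^ X.card)) * ∑ v ∈ range (b ^ k), p v := by
    intro T hT
    rw [mem_powerset] at hT
    obtain ⟨S', hS'⟩ : ∃ S', S' = S.filter (fun i => ∀ X ∈ T, Disjoint (nb k A i) X) := ⟨_, rfl⟩
    have hS'S : S' ⊆ S := by rw [hS']; exact filter_subset _ _
    obtain ⟨G', hG'⟩ : ∃ G' : ℕ → ℂ, G' = fun v => (∏ X ∈ T, (f X v : ℂ)) * (G v * ∏ i ∈ S \ S', h i v) := ⟨_, rfl⟩
    have e3 : ∀ v ∈ range (b ^ k), (p v : ℂ) * ((∏ X ∈ T, (f X v : ℂ)) * (G v * ∏ i ∈ S, h i v)) =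
        p v * (G' v * ∏ i ∈ S', h i v) := by
      intro v _
      rw [hG', ← prod_sdiff hS'S]
      ring
    rw [sum_congr rfl e3]
    have b1 := blocks hb ρ hρ0.le h S' (hE.mono hS'S) (fun i hi => hh i (hS'S hi)) (by
      intro i hi v hv hpv
      have hi' := hS'S hi
      rw [hp] at hpv
      have t1 := two_vals hE.nonneg (nb k A i) i (self_mem (hSk i hi')) (h i) (h1 i) c
        (η * Real.exp (-(2 * ((Δ + 1) * M)))) (hc i hi') v (mul_nonneg hη (Real.exp_pos _).le) (by
          have := flex1 hF hη φ N hφ hN hN0 M hM0 hM S i (hSk i hi') v hv hpv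
          rw [← hp] at this
          exact this)
      refine t1.trans ?_
      exact mul_le_mul_of_nonneg_right hρ (mass_nonneg hE.nonneg _ _)) G' (by
      intro i hi v hv w hw _ _ hoff
      have hi' := hS'S hi
      rw [hG']
      simp only
      rw [hG i hi' v hv w hw hoff]
      congr 1
      · apply prod_congr rfl
        intro X hX
        have hd : Disjoint (nb k A i) X := by
          rw [hS', mem_filter] at hi
          exact hi.2 X hX
        rw [hf]
        simp only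
        rw [hφ X v hv w hw (fun x hx => hoff x (disjoint_right.1 hd hx))]
      · congr 1
        apply prod_congr rfl
        intro j hj
        rw [mem_sdiff] at hj
        apply hh j hj.1 v hv w hw
        intro x hx
        apply hoff
        intro hx'
        exact (hS i hi' j hj.1 (fun h => hj.2 (h ▸ hi)) x hx' x hx).1 rfl)
    refine b1.trans ?_
    have b2 : ∑ v ∈ range (b ^ k), p v * ‖G' v‖ ≤ (∏ X ∈ T, a X) * ∑ v ∈ range (b ^ k), p v := by
      rw [mul_sum]
      apply sum_le_sum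
      intro v hv
      rw [mem_range] at hv
      rw [mul_comm]
      apply mul_le_mul_of_nonneg_right _ (hE.nonneg v)
      rw [hG']
      simp only
      rw [norm_mul, norm_mul, norm_prod, norm_prod]
      have c1 : ∏ X ∈ T, ‖(f X v : ℂ)‖ ≤ ∏ X ∈ T, a X := by
        apply prod_le_prod (fun _ _ => norm_nonneg _)
        intro X _
        rw [Complex.norm_real, Real.norm_eq_abs]
        exact hfa X v hv
      have c2 : ∏ i ∈ S \ S', ‖h i v‖ ≤ 1 := prod_le_one (fun _ _ => norm_nonneg _) (fun i _ => h1 i v)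
      have c3 : ‖G v‖ * ∏ i ∈ S \ S', ‖h i v‖ ≤ 1 := by
        have := mul_le_mul (hG1 v) c2 (prod_nonneg fun _ _ => norm_nonneg _) zero_le_one
        rwa [one_mul] at this
      calc _ ≤ (∏ X ∈ T, a X) * 1 := mul_le_mul c1 c3
            (mul_nonneg (norm_nonneg _) (prod_nonneg fun _ _ => norm_nonneg _)) (prod_nonneg fun X _ => ha0 X)
        _ = _ := mul_one _
    have b3 : S.card ≤ S'.card + ∑ X ∈ T, X.card := by
      have c1 : S \ S' ⊆ T.biUnion (fun X => hit k A S X) := by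
        intro i hi
        rw [mem_sdiff, hS', mem_filter, not_and] at hi
        have := hi.2 hi.1
        push Not at this
        obtain ⟨X, hX, hX'⟩ := this
        rw [mem_biUnion]
        exact ⟨X, hX, mem_hit.2 ⟨hi.1, hX'⟩⟩
      have c2 : (S \ S').card ≤ ∑ X ∈ T, X.card :=
        (card_le_card c1).trans (card_biUnion_le.trans (sum_le_sum fun X _ => hit_card S X hE.disj))
      have c3 := card_sdiff_add_card_eq_card hS'S
      omega
    have b4 : ρ ^ S'.card ≤ ρ ^ S.card * ∏ X ∈ T, (ρ⁻¹) ^ X.card := by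
      rw [prod_pow_eq_pow_sum, inv_pow, ← div_eq_mul_inv, le_div_iff₀ (by positivity), ← pow_add]
      exact pow_le_pow_of_le_one hρ0.le hρ1 b3
    calc ρ ^ S'.card * ∑ v ∈ range (b ^ k), p v * ‖G' v‖
        ≤ (ρ ^ S.card * ∏ X ∈ T, (ρ⁻¹) ^ X.card) * ((∏ X ∈ T, a X) * ∑ v ∈ range (b ^ k), p v) := by
          apply mul_le_mul b4 b2
          · exact sum_nonneg fun v _ => mul_nonneg (hE.nonneg v) (norm_nonneg _)
          · positivity
      _ = _ := by
          rw [prod_mul_distrib]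
          ring
  refine (norm_sum_le _ _).trans ((sum_le_sum key).trans ?_)
  rw [← sum_mul, ← mul_sum, ← prod_one_add]
  have d1 : ∏ X ∈ far k A S, (1 + a X * (ρ⁻¹) ^ X.card) ≤ Real.exp (∑ X ∈ far k A S, a X * (ρ⁻¹) ^ X.card) := by
    rw [Real.exp_sum]
    apply prod_le_prod
    · intro X _
      have := ha0 X
      positivity
    · intro X _
      rw [add_comm]
      exact Real.add_one_le_exp _
  have d2 : ∑ v ∈ range (b ^ k), p v ≤ Real.exp (∑ X ∈ far k A S, N X) * ∑ v ∈ range (b ^ k), q v * Real.exp (energy k φ v) := by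
    rw [mul_sum]
    apply sum_le_sum
    intro v hv
    rw [mem_range] at hv
    rw [hp]
    unfold p1
    rw [mul_left_comm, ← Real.exp_add]
    apply mul_le_mul_of_nonneg_left _ (hF.nonneg v)
    rw [Real.exp_le_exp, energy_split (A := A) φ S v]
    have : 0 ≤ ∑ X ∈ far k A S, (N X + φ X v) := by
      apply sum_nonneg
      intro X _
      have := hN X v hv
      rw [abs_le] at this
      linarith
    rw [sum_add_distrib] at this
    linarith
  have d3 : 0 ≤ ∏ X ∈ far k A S, (1 + a X * (ρ⁻¹) ^ X.card) := by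
    apply prod_nonneg
    intro X _
    have := ha0 X
    positivity
  calc ρ ^ S.card * (∏ X ∈ far k A S, (1 + a X * (ρ⁻¹) ^ X.card)) * ∑ v ∈ range (b ^ k), p v
      ≤ ρ ^ S.card * Real.exp (∑ X ∈ far k A S, a X * (ρ⁻¹) ^ X.card) *
        (Real.exp (∑ X ∈ far k A S, N X) * ∑ v ∈ range (b ^ k), q v * Real.exp (energy k φ v)) := by
        apply mul_le_mul _ d2 Z0 (by positivity)
        exact mul_le_mul_of_nonneg_left d1 (by positivity)
    _ = _ := by
        rw [sum_add_distrib, Real.exp_add, ha]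
        ring

end Pool.Agent.H85G
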