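import Pool.Agent.H85G.C

set_option autoImplicit false

/-! Long range interactions: the averages over many blocks are exponentially small. -/

namespace Pool.Agent.H85G
open Finset
open Pool.Agent.N213.GF (dig mk Off splice mass cl csum avg mem_cl mass_eq cl_eq mass_csum splice_bij splice_lt dig_splice
  dig_ext off_refl off_symm off_trans Field nb mem_nb self_mem Sep)

variable {b k Δ : ℕ} {η : ℝ} {A : ℕ → ℕ → Prop} {q : ℕ → ℝ}

open Classical in
/-- the interaction between two blocks -/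
noncomputable def J (k : ℕ) (A : ℕ → ℕ → Prop) (W : Finset ℕ → ℝ) (i j : ℕ) : ℝ :=
  ∑ X ∈ (range k).powerset, if ¬ Disjoint (nb k A i) X ∧ ¬ Disjoint (nb k A j) X then W X else 0

lemma J_nonneg (W : Finset ℕ → ℝ) (hW : ∀ X, 0 ≤ W X) (i j : ℕ) : 0 ≤ J k A W i j := by
  classical
  apply sum_nonneg
  intro X _
  split_ifs
  · exact hW X
  · exact le_rfl

lemma J_symm (W : Finset ℕ → ℝ) (i j : ℕ) : J k A W i j = J k A W j i := by
  classical
  unfold J
  apply sum_congr rfl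
  intro X _
  simp only [and_comm]

/-- the rows of the matrix of the interactions -/
lemma J_row (W : Finset ℕ → ℝ) (hW : ∀ X, 0 ≤ W X) (M : ℝ) (hM : Sumb k M (fun X => X.card * W X))
    (hM0 : 0 ≤ M) (S : Finset ℕ) (hS : ∀ i ∈ S, ∀ j ∈ S, i ≠ j → Disjoint (nb k A i) (nb k A j))
    (hd : ∀ i ∈ S, (nb k A i).card ≤ Δ + 1) (j : ℕ) (hj : j ∈ S) :
    ∑ i ∈ S.erase j, J k A W i j ≤ (Δ + 1) * M := by
  classical
  unfold J
  rw [sum_comm]
  have h1 : ∀ X ∈ (range k).powerset, ∑ i ∈ S.erase j, (if ¬ Disjoint (nb k A i) X ∧ ¬ Disjoint (nb k A j) X then W X else 0) ≤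
      if ¬ Disjoint (nb k A j) X then (X.card : ℝ) * W X else 0 := by
    intro X _
    by_cases h : Disjoint (nb k A j) X
    · rw [if_neg (not_not.2 h)]
      apply le_of_eq
      apply sum_eq_zero
      intro i _
      rw [if_neg (fun h' => h'.2 h)]
    · rw [if_pos h]
      have e1 : ∑ i ∈ S.erase j, (if ¬ Disjoint (nb k A i) X ∧ ¬ Disjoint (nb k A j) X then W X else 0) ≤
          ∑ i ∈ S, (if ¬ Disjoint (nb k A i) X then W X else 0) := by
        refine (sum_le_sum_of_subset_of_nonneg (erase_subset j S) ?_).trans ?_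
        · intro i _ _
          split_ifs
          · exact hW X
          · exact le_rfl
        · apply sum_le_sum
          intro i _
          simp only [h, not_false_eq_true, and_true]
          exact le_rfl
      refine e1.trans ?_
      rw [← sum_filter, sum_const, nsmul_eq_mul]
      apply mul_le_mul_of_nonneg_right _ (hW X)
      exact_mod_cast hit_card S X hS
  refine (sum_le_sum h1).trans ?_
  rw [← sum_filter]
  have h2 := sumb_block M (fun X => X.card * W X) (fun X => mul_nonneg (Nat.cast_nonneg _) (hW X)) hM (nb k A j)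
    (fun i hi => (mem_nb.1 hi).1) ((range k).powerset.filter fun X => ¬ Disjoint (nb k A j) X) (filter_subset _ _)
    (fun X hX => (mem_filter.1 hX).2)
  refine h2.trans ?_
  apply mul_le_mul_of_nonneg_right _ hM0
  exact_mod_cast hd j hj

/-- the energy between the blocks -/
lemma far_le (W : Finset ℕ → ℝ) (hW : ∀ X, 0 ≤ W X) (S : Finset ℕ) :
    ∑ X ∈ far k A S, W X ≤ ∑ i ∈ S, ∑ j ∈ S.erase i, J k A W i j := by
  classical
  have h1 : ∑ i ∈ S, ∑ j ∈ S.erase i, J k A W i j = ∑ X ∈ (range k).powerset, ∑ i ∈ S, ∑ j ∈ S.erase i,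
      (if ¬ Disjoint (nb k A i) X ∧ ¬ Disjoint (nb k A j) X then W X else 0) := by
    unfold J
    have : ∀ i ∈ S, ∑ j ∈ S.erase i, ∑ X ∈ (range k).powerset,
        (if ¬ Disjoint (nb k A i) X ∧ ¬ Disjoint (nb k A j) X then W X else 0) =
        ∑ X ∈ (range k).powerset, ∑ j ∈ S.erase i, (if ¬ Disjoint (nb k A i) X ∧ ¬ Disjoint (nb k A j) X then W X else 0) :=
      fun i _ => sum_comm
    rw [sum_congr rfl this, sum_comm]
  rw [h1]
  have hnn : ∀ X i j, 0 ≤ (if ¬ Disjoint (nb k A i) X ∧ ¬ Disjoint (nb k A j) X then W X else 0) := by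
    intro X i j
    split_ifs
    · exact hW X
    · exact le_rfl
  refine le_trans ?_ (sum_le_sum_of_subset_of_nonneg (filter_subset (fun X => 2 ≤ (hit k A S X).card) _) ?_)
  · unfold far
    apply sum_le_sum
    intro X hX
    rw [mem_filter] at hX
    obtain ⟨i, hi, j, hj, hij⟩ := one_lt_card.1 (lt_of_lt_of_le one_lt_two hX.2)
    have hi' := mem_hit.1 hi
    have hj' := mem_hit.1 hj
    have e1 := single_le_sum (f := fun i => ∑ j ∈ S.erase i, (if ¬ Disjoint (nb k A i) X ∧ ¬ Disjoint (nb k A j) X then W X else 0))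
      (fun i _ => sum_nonneg fun j _ => hnn X i j) hi'.1
    have e2 := single_le_sum (f := fun j => (if ¬ Disjoint (nb k A i) X ∧ ¬ Disjoint (nb k A j) X then W X else 0))
      (fun j _ => hnn X i j) (mem_erase.2 ⟨hij.symm, hj'.1⟩)
    simp only [hi'.2, hj'.2, not_false_eq_true, and_self, if_true] at e1 e2
    exact e2.trans e1
  · intro X _ _
    exact sum_nonneg fun i _ => sum_nonneg fun j _ => hnn X i j

/-- The averages over many blocks are exponentially small. -/
theorem tilt (b Δ : ℕ) (hb : 2 ≤ b) (η M r c : ℝ) (hη : 0 < η) (hM0 : 0 ≤ M) (hr : 0 < r) (hc0 : 0 < c) :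
    ∃ μ : ℝ, 0 ≤ μ ∧ μ < 1 ∧ ∃ Q : ℕ, 1 ≤ Q ∧ ∀ k : ℕ, ∀ A : ℕ → ℕ → Prop, ∀ q : ℕ → ℝ, Field b k Δ η A q →
    ∀ (φ : Finset ℕ → ℕ → ℝ) (N : Finset ℕ → ℝ),
    (∀ X, ∀ v < b ^ k, ∀ w < b ^ k, (∀ i ∈ X, dig b v i = dig b w i) → φ X v = φ X w) →
    (∀ X, ∀ v < b ^ k, |φ X v| ≤ N X) → (∀ X, 0 ≤ N X) → Sumb k M (fun X => Real.exp (r * X.card) * N X) →
    ∀ S : Finset ℕ, (∀ i ∈ S, i < k) → (∀ i ∈ S, ∀ j ∈ S, i ≠ j → Sep k A i j) →
    ∀ h : ℕ → ℕ → ℂ, (∀ i ∈ S, ∀ v < b ^ k, ∀ w < b ^ k, (∀ x ∈ nb k A i, dig b v x = dig b w x) → h i v = h i w) →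
    (∀ i v, ‖h i v‖ ≤ 1) →
    (∀ i ∈ S, ∀ x < b ^ k, ∀ y < b ^ k, Off b {i} y x → dig b y i ≠ dig b x i → ‖h i x + h i y‖ ≤ 2 - c) →
    ∀ G : ℕ → ℂ, (∀ v, ‖G v‖ ≤ 1) → (∀ i ∈ S, ∀ v < b ^ k, ∀ w < b ^ k, Off b (nb k A i) v w → G v = G w) →
    ∀ n : ℕ, Q * n ≤ S.card →
    ‖∑ v ∈ range (b ^ k), ((q v * Real.exp (energy k φ v) : ℝ) : ℂ) * (G v * ∏ i ∈ S, h i v)‖ ≤
      μ ^ n * ∑ v ∈ range (b ^ k), q v * Real.exp (energy k φ v) := by
  classical
  obtain ⟨η', hη'⟩ : ∃ η', η' = η * Real.exp (-(2 * ((Δ + 1) * M))) := ⟨_, rfl⟩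
  have hη'0 : 0 < η' := by rw [hη']; positivity
  obtain ⟨ρ, hρ⟩ : ∃ ρ, ρ = max (1 - η' * c) (Real.exp (-(r / 2))) := ⟨_, rfl⟩
  have hρ0 : 0 < ρ := by rw [hρ]; exact lt_max_of_lt_right (Real.exp_pos _)
  have hρ1 : ρ < 1 := by
    rw [hρ]
    apply max_lt
    · have := mul_pos hη'0 hc0
      linarith
    · rw [Real.exp_lt_one_iff]
      linarith
  obtain ⟨l, hl0, hρl⟩ : ∃ l, 0 < l ∧ ρ = Real.exp (-l) := by
    refine ⟨-Real.log ρ, ?_, ?_⟩
    · have := Real.log_neg hρ0 hρ1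
      linarith
    · rw [neg_neg, Real.exp_log hρ0]
  obtain ⟨δ, hδ⟩ : ∃ δ, δ = l / (8 * Real.exp M) := ⟨_, rfl⟩
  have hδ0 : 0 < δ := by rw [hδ]; positivity
  obtain ⟨C, hC⟩ : ∃ C, C = (Δ + 1) * (2 / r * M) := ⟨_, rfl⟩
  have hC0 : 0 ≤ C := by rw [hC]; positivity
  obtain ⟨Q, hQ⟩ := exists_nat_ge (1 + C / δ)
  have hCδ : 0 ≤ C / δ := div_nonneg hC0 hδ0.le
  have hQ1 : 1 ≤ Q := by
    have : (1 : ℝ) ≤ Q := by linarith
    exact_mod_cast this
  refine ⟨Real.exp (-(l / 2)), (Real.exp_pos _).le, by rw [Real.exp_lt_one_iff]; linarith, Q, hQ1, ?_⟩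
  intro k A q hF φ N hφ hN hN0 hM S hSk hS h hh h1 hc G hG1 hG n hn
  obtain ⟨W, hW⟩ : ∃ W : Finset ℕ → ℝ, W = fun X => Real.exp (r / 2 * X.card) * N X := ⟨_, rfl⟩
  have hW0 : ∀ X, 0 ≤ W X := by
    intro X
    rw [hW]
    exact mul_nonneg (Real.exp_pos _).le (hN0 X)
  have hMN : Sumb k M N := by
    intro i hi
    refine le_trans (sum_le_sum fun X _ => ?_) (hM i hi)
    have : 1 ≤ Real.exp (r * X.card) := Real.one_le_exp (by positivity)
    exact le_mul_of_one_le_left (hN0 X) this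
  have hMW : Sumb k (2 / r * M) (fun X => X.card * W X) := by
    intro i hi
    have := mul_le_mul_of_nonneg_left (hM i hi) (by positivity : 0 ≤ 2 / r)
    refine le_trans ?_ this
    rw [mul_sum]
    apply sum_le_sum
    intro X _
    rw [hW]
    simp only
    have e1 : (X.card : ℝ) ≤ 2 / r * Real.exp (r / 2 * X.card) := by
      have := Real.add_one_le_exp (r / 2 * X.card)
      calc (X.card : ℝ) = 2 / r * (r / 2 * X.card) := by field_simp
        _ ≤ 2 / r * Real.exp (r / 2 * X.card) := mul_le_mul_of_nonneg_left (by linarith) (by positivity)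
    have e2 : Real.exp (r * X.card) = Real.exp (r / 2 * X.card) * Real.exp (r / 2 * X.card) := by
      rw [← Real.exp_add]
      congr 1
      ring
    rw [e2]
    have e3 : 0 ≤ Real.exp (r / 2 * X.card) * N X := mul_nonneg (Real.exp_pos _).le (hN0 X)
    calc (X.card : ℝ) * (Real.exp (r / 2 * X.card) * N X) ≤ (2 / r * Real.exp (r / 2 * X.card)) * (Real.exp (r / 2 * X.card) * N X) :=
          mul_le_mul_of_nonneg_right e1 e3
      _ = _ := by ring
  have hdis : ∀ i ∈ S, ∀ j ∈ S, i ≠ j → Disjoint (nb k A i) (nb k A j) := by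
    intro i hi j hj hij
    rw [disjoint_left]
    intro x hx hx'
    exact (hS i hi j hj hij x hx x hx').1 rfl
  obtain ⟨T, hTS, hT1, hT2⟩ := sparse' (J k A W) (J_nonneg W hW0) (J_symm W) δ C hδ0 S (by
    intro j hj
    rw [hC]
    exact J_row W hW0 _ hMW (by positivity) S hdis (fun i hi => hF.degree i (hSk i hi)) j hj)
  have b1 := expand hb hF hη.le φ N hφ hN hN0 M hM0 hMN T (fun i hi => hSk i (hTS hi))
    (fun i hi j hj => hS i (hTS hi) j (hTS hj)) c ρ hρ0 hρ1.le (by rw [← hη', hρ]; exact le_max_left _ _) h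
    (fun i hi => hh i (hTS hi)) h1 (fun i hi => hc i (hTS hi)) (fun v => G v * ∏ i ∈ S \ T, h i v) (by
      intro v
      rw [norm_mul, norm_prod]
      have c2 : ∏ i ∈ S \ T, ‖h i v‖ ≤ 1 := prod_le_one (fun _ _ => norm_nonneg _) (fun i _ => h1 i v)
      have := mul_le_mul (hG1 v) c2 (prod_nonneg fun _ _ => norm_nonneg _) zero_le_one
      rwa [one_mul] at this) (by
      intro i hi v hv w hw hoff
      rw [hG i (hTS hi) v hv w hw hoff]
      congr 1
      apply prod_congr rfl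
      intro j hj
      rw [mem_sdiff] at hj
      apply hh j hj.1 v hv w hw
      intro x hx
      apply hoff
      intro hx'
      exact (hS i (hTS hi) j hj.1 (fun h => hj.2 (h ▸ hi)) x hx' x hx).1 rfl)
  have e0 : ∀ v ∈ range (b ^ k), ((q v * Real.exp (energy k φ v) : ℝ) : ℂ) * (G v * ∏ i ∈ S, h i v) =
      ((q v * Real.exp (energy k φ v) : ℝ) : ℂ) * ((G v * ∏ i ∈ S \ T, h i v) * ∏ i ∈ T, h i v) := by
    intro v _
    rw [← prod_sdiff hTS]
    ring
  rw [sum_congr rfl e0]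
  refine b1.trans ?_
  apply mul_le_mul_of_nonneg_right
  swap
  · exact sum_nonneg fun v _ => mul_nonneg (hF.nonneg v) (Real.exp_pos _).le
  have b2 : ∑ X ∈ far k A T, ((Real.exp (N X) - 1) * (ρ⁻¹) ^ X.card + N X) ≤ 2 * Real.exp M * ∑ X ∈ far k A T, W X := by
    rw [mul_sum]
    apply sum_le_sum
    intro X hX
    unfold far at hX
    rw [mem_filter, mem_powerset] at hX
    have hXne : X.Nonempty := by
      rw [nonempty_iff_ne_empty]
      intro h0
      have h2 := hX.2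
      have : hit k A T X = ∅ := by
        rw [eq_empty_iff_forall_notMem]
        intro i hi
        rw [mem_hit, h0] at hi
        exact hi.2 (disjoint_empty_right _)
      rw [this, card_empty] at h2
      omega
    obtain ⟨x, hx⟩ := hXne
    have hNM : N X ≤ M := by
      refine le_trans ?_ (hMN x (mem_range.1 (hX.1 hx)))
      exact single_le_sum (f := N) (fun Y _ => hN0 Y) (mem_filter.2 ⟨mem_powerset.2 hX.1, hx⟩)
    have c1 : Real.exp (N X) - 1 ≤ Real.exp M * N X := by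
      have h3 : Real.exp (N X) * (1 - N X) ≤ 1 := by
        have := Real.one_sub_le_exp_neg (N X)
        calc Real.exp (N X) * (1 - N X) ≤ Real.exp (N X) * Real.exp (-(N X)) :=
              mul_le_mul_of_nonneg_left this (Real.exp_pos _).le
          _ = 1 := by rw [← Real.exp_add, add_neg_cancel, Real.exp_zero]
      have h4 : Real.exp (N X) ≤ Real.exp M := Real.exp_le_exp.2 hNM
      have h5 := mul_le_mul_of_nonneg_right h4 (hN0 X)
      linarith
    have c2 : (ρ⁻¹) ^ X.card ≤ Real.exp (r / 2 * X.card) := by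
      have h3 : ρ⁻¹ ≤ Real.exp (r / 2) := by
        rw [inv_le_comm₀ hρ0 (Real.exp_pos _), ← Real.exp_neg, hρ]
        exact le_max_right _ _
      calc (ρ⁻¹) ^ X.card ≤ (Real.exp (r / 2)) ^ X.card := pow_le_pow_left₀ (by positivity) h3 _
        _ = _ := by rw [← Real.exp_nat_mul]; congr 1; ring
    have c3 : (1 : ℝ) ≤ Real.exp M := Real.one_le_exp hM0
    have c4 : 1 ≤ Real.exp (r / 2 * X.card) := Real.one_le_exp (by positivity)
    rw [hW]
    simp only
    have c5 : (Real.exp (N X) - 1) * (ρ⁻¹) ^ X.card ≤ (Real.exp M * N X) * Real.exp (r / 2 * X.card) := by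
      apply mul_le_mul c1 c2 (by positivity)
      exact mul_nonneg (Real.exp_pos _).le (hN0 X)
    have c6 : N X ≤ Real.exp M * N X * Real.exp (r / 2 * X.card) := by
      have h3 := hN0 X
      calc N X = 1 * N X * 1 := by ring
        _ ≤ Real.exp M * N X * Real.exp (r / 2 * X.card) := by
          apply mul_le_mul _ c4 zero_le_one (mul_nonneg (Real.exp_pos _).le h3)
          exact mul_le_mul_of_nonneg_right c3 h3
    linarith
  have b3 := far_le (k := k) (A := A) W hW0 T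
  have b4 : ∑ X ∈ far k A T, ((Real.exp (N X) - 1) * (ρ⁻¹) ^ X.card + N X) ≤ l / 2 * T.card := by
    refine b2.trans ?_
    calc 2 * Real.exp M * ∑ X ∈ far k A T, W X ≤ 2 * Real.exp M * (2 * δ * T.card) :=
          mul_le_mul_of_nonneg_left (b3.trans hT1) (by positivity)
      _ = l / 2 * T.card := by
          rw [hδ]
          field_simp
          ring
  have hnT : (n : ℝ) ≤ T.card := by
    have h3 : (Q : ℝ) * n ≤ S.card := by exact_mod_cast hn
    have h4 : (Q : ℝ) * n ≤ Q * T.card := by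
      refine h3.trans (hT2.trans ?_)
      exact mul_le_mul_of_nonneg_right hQ (Nat.cast_nonneg _)
    have hQ0 : (0 : ℝ) < Q := by exact_mod_cast hQ1
    exact le_of_mul_le_mul_left h4 hQ0
  calc ρ ^ T.card * Real.exp (∑ X ∈ far k A T, ((Real.exp (N X) - 1) * (ρ⁻¹) ^ X.card + N X))
      ≤ ρ ^ T.card * Real.exp (l / 2 * T.card) :=
        mul_le_mul_of_nonneg_left (Real.exp_le_exp.2 b4) (by positivity)
    _ = Real.exp (-(l / 2) * T.card) := by
        rw [hρl, ← Real.exp_nat_mul, ← Real.exp_add]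
        congr 1
        ring
    _ ≤ Real.exp (-(l / 2) * n) := by
        apply Real.exp_le_exp.2
        have := mul_le_mul_of_nonneg_left hnT (by positivity : 0 ≤ l / 2)
        linarith
    _ = (Real.exp (-(l / 2))) ^ n := by
        rw [← Real.exp_nat_mul]
        congr 1
        ring

end Pool.Agent.H85G
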