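import Pool.Agent.N213.GF.D
import Pool.Agent.N625.DY.L

set_option autoImplicit false

/-! Classes of distributions whose exponential sums are exponentially small in the number of the digits of the frequency. -/

namespace Pool.Agent.H85G
open Finset
open Pool.Agent.H807R2.Dav
open Pool.Agent.W93.AU
open Pool.Agent.W93.DG
open Pool.Agent.TH872.Mir (pow_log' room)
open Pool.Agent.N625.DY (Cls ClsV)

variable {b : ℕ} {C : ℕ → (ℕ → ℝ) → Prop}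

open Classical in
/-- exponentially small exponential sums, and exponentially small probabilities of given leading digits -/
structure Good (b : ℕ) (C : ℕ → (ℕ → ℝ) → Prop) : Prop where
  nonneg : ∀ k p, C k p → ∀ v, 0 ≤ p v
  sum : ∀ k p, C k p → ∑ v ∈ range (b ^ k), p v = 1
  char : ∀ c : ℝ, 0 < c → ∃ μ : ℝ, 0 ≤ μ ∧ μ < 1 ∧ ∃ Q : ℕ, ∀ k p, C k p → ∀ θ : ℝ, ∀ n : ℕ,
    Q * n ≤ ((range k).filter fun j => Gd b c ((b : ℝ) ^ j * θ)).card →
    ‖∑ v ∈ range (b ^ k), (p v : ℂ) * ee (v * θ)‖ ≤ μ ^ n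
  top : ∃ μ : ℝ, 0 ≤ μ ∧ μ < 1 ∧ ∃ Q : ℕ, ∀ l T p, C (l + T) p → ∀ j n : ℕ, Q * n ≤ T →
    ∑ v ∈ (range (b ^ (l + T))).filter (fun v => v / b ^ l = j), p v ≤ μ ^ n

open Classical in
/-- the number of the good positions -/
lemma good_card (hb : 2 ≤ b) (c : ℝ) (hc : c = 4 * (1 / ((b : ℝ) ^ 2 * (b.factorial : ℝ))) ^ 2) (κ : ℤ) (t K m e : ℕ) (hm : K = m + e) :
    ne b 0 K ((b.factorial * κ.natAbs * t) % b ^ (K + 1)) ≤
      ((range m).filter fun j => Gd b c ((b : ℝ) ^ j * ((κ : ℝ) * ((t : ℝ) / ((b ^ (K + 1) : ℕ) : ℝ))))).card + e := by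
  have hgc := gc_ge b κ t K m e 0 hb hm
  rw [← hc, gc_eq] at hgc
  obtain ⟨θ, hθ⟩ : ∃ θ, θ = (κ : ℝ) * ((t : ℝ) / ((b ^ (K + 1) : ℕ) : ℝ)) := ⟨_, rfl⟩
  rw [← hθ] at hgc ⊢
  have e1 : ∑ j ∈ range m, (if 0 + j + 1 ≤ m ∧ Gd b c ((b : ℝ) ^ j * θ) then 1 else 0) =
      ((range m).filter (fun j => Gd b c ((b : ℝ) ^ j * θ))).card := by
    rw [card_filter]
    apply sum_congr rfl
    intro j hj
    rw [mem_range] at hj
    by_cases h : Gd b c ((b : ℝ) ^ j * θ)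
    · rw [if_pos h, if_pos ⟨by omega, h⟩]
    · rw [if_neg h, if_neg (fun h' => h h'.2)]
  rw [e1] at hgc
  exact hgc

lemma cc_pos (hb : 2 ≤ b) : 0 < 4 * (1 / ((b : ℝ) ^ 2 * (b.factorial : ℝ))) ^ 2 := by
  have hB2 : (2 : ℝ) ≤ b := by exact_mod_cast hb
  have hF1 : (1 : ℝ) ≤ (b.factorial : ℝ) := by exact_mod_cast b.factorial_pos
  positivity

/-- the law of the random integer -/
theorem good_law (hb : 2 ≤ b) (hC : Good b C) (κ : ℤ) (τ V : ℕ) : ∃ D K₀ : ℕ, ∀ K : ℕ, K₀ ≤ K → ∀ m e, K = m + e →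
    e ≤ τ * (Nat.log b K + 1) → ∀ p, C m p → ∀ cc : ℤ,
    Law b (b.factorial * κ.natAbs) D V K (range (b ^ m)) p (fun v => cc + κ * (v : ℕ)) := by
  classical
  have hB2 : (2 : ℝ) ≤ b := by exact_mod_cast hb
  obtain ⟨c, hc⟩ : ∃ c, c = 4 * (1 / ((b : ℝ) ^ 2 * (b.factorial : ℝ))) ^ 2 := ⟨_, rfl⟩
  have hc0 : 0 < c := by rw [hc]; exact cc_pos hb
  obtain ⟨μ, hμ0, hμ1, Q, hQ⟩ := hC.char c hc0
  obtain ⟨D', hD'⟩ := exists_pow_lt_of_lt_one (show 0 < (1 / (b : ℝ)) ^ V by positivity) hμ1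
  refine ⟨Q * D' + τ, 1, fun K hK m e hm he p hp cc => ⟨fun v _ => hC.nonneg m p hp v, (hC.sum m p hp).le, fun t ht => ?_⟩⟩
  have hgc := good_card hb c hc κ t K m e hm
  obtain ⟨Lg, hLg⟩ : ∃ Lg, Lg = Nat.log b K + 1 := ⟨_, rfl⟩
  rw [← hLg] at ht he
  have h1 := hQ m p hp ((κ : ℝ) * ((t : ℝ) / ((b ^ (K + 1) : ℕ) : ℝ))) (D' * Lg) (by
    have e2 : (Q * D' + τ) * Lg = Q * (D' * Lg) + τ * Lg := by ring
    rw [e2] at ht
    omega)
  have h3 : ‖∑ v ∈ range (b ^ m), (p v : ℂ) * ee (v * ((κ : ℝ) * ((t : ℝ) / ((b ^ (K + 1) : ℕ) : ℝ))))‖ ≤ 1 / (K : ℝ) ^ V := by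
    refine h1.trans ?_
    rw [hLg]
    exact pow_log_le b hb μ hμ0 _ D' hD'.le K hK
  obtain ⟨θ0, hθ0⟩ : ∃ θ0, θ0 = (t : ℝ) / ((b ^ (K + 1) : ℕ) : ℝ) := ⟨_, rfl⟩
  rw [← hθ0] at h3 ⊢
  have h2 : ∑ v ∈ range (b ^ m), ((p v : ℝ) : ℂ) * ee (((cc + κ * (v : ℕ) : ℤ) : ℝ) * θ0) =
      ee (cc * θ0) * ∑ v ∈ range (b ^ m), (p v : ℂ) * ee (v * ((κ : ℝ) * θ0)) := by
    rw [mul_sum]
    apply sum_congr rfl
    intro v _
    rw [mul_left_comm, ← ee_add]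
    congr 2
    push_cast
    ring
  rw [h2, norm_mul, norm_ee, one_mul]
  exact h3

open Classical in
/-- the integers in a short interval -/
lemma interval (hb : 2 ≤ b) (l T : ℕ) (p : ℕ → ℝ) (hp : ∀ v, 0 ≤ p v) (z : ℝ) (hz : 0 ≤ z)
    (h : ∀ j, ∑ v ∈ (range (b ^ (l + T))).filter (fun v => v / b ^ l = j), p v ≤ z) (Sm : ℕ → Prop)
    (hSm : ∀ v < b ^ (l + T), ∀ v' < b ^ (l + T), Sm v → Sm v' → v' < v + b ^ l) :
    ∑ v ∈ (range (b ^ (l + T))).filter Sm, p v ≤ 2 * z := by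
  have hbl : 0 < b ^ l := by positivity
  by_cases hne : ((range (b ^ (l + T))).filter Sm).Nonempty
  · obtain ⟨v0, hv0, hmin⟩ := exists_min_image ((range (b ^ (l + T))).filter Sm) (fun v => v) hne
    rw [mem_filter, mem_range] at hv0
    obtain ⟨j0, hj0⟩ : ∃ j0, j0 = v0 / b ^ l := ⟨_, rfl⟩
    have hsub : (range (b ^ (l + T))).filter Sm ⊆
        ((range (b ^ (l + T))).filter fun v => v / b ^ l = j0) ∪ ((range (b ^ (l + T))).filter fun v => v / b ^ l = j0 + 1) := by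
      intro v hv
      have h1 := hmin v hv
      rw [mem_filter, mem_range] at hv
      have h2 := hSm v0 hv0.1 v hv.1 hv0.2 hv.2
      have h3 : j0 ≤ v / b ^ l := by rw [hj0]; exact Nat.div_le_div_right h1
      have h4 : v / b ^ l ≤ j0 + 1 := by
        have : v / b ^ l ≤ (v0 + b ^ l) / b ^ l := Nat.div_le_div_right h2.le
        rw [Nat.add_div_right _ hbl, ← hj0] at this
        exact this
      rw [mem_union, mem_filter, mem_filter, mem_range]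
      rcases Nat.lt_or_ge j0 (v / b ^ l) with h5 | h5
      · exact Or.inr ⟨hv.1, by omega⟩
      · exact Or.inl ⟨hv.1, by omega⟩
    have h6 := h j0
    have h7 := h (j0 + 1)
    have h8 := sum_union_inter (s₁ := (range (b ^ (l + T))).filter fun v => v / b ^ l = j0)
      (s₂ := (range (b ^ (l + T))).filter fun v => v / b ^ l = j0 + 1) (f := p)
    have h9 : 0 ≤ ∑ v ∈ ((range (b ^ (l + T))).filter fun v => v / b ^ l = j0) ∩ ((range (b ^ (l + T))).filter fun v => v / b ^ l = j0 + 1), p v :=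
      sum_nonneg fun v _ => hp v
    have h10 := sum_le_sum_of_subset_of_nonneg hsub (f := p) (fun v _ _ => hp v)
    linarith
  · rw [not_nonempty_iff_eq_empty] at hne
    rw [hne, sum_empty]
    positivity

/-- small values are rare -/
lemma good_anti (hb : 2 ≤ b) (hC : Good b C) (κ : ℤ) (hκ : κ ≠ 0) (e U : ℕ) : ∃ W K₀ : ℕ, ∀ K : ℕ, K₀ ≤ K →
    ∀ m, K = m + e → ∀ p, C m p → ∀ cc : ℤ, ∀ Sm : ℕ → Prop, ∀ [DecidablePred Sm],
    (∀ v < b ^ m, Sm v → 1 ≤ cc + κ * (v : ℕ) ∧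
      ((cc + κ * (v : ℕ) : ℤ) : ℝ) < ((b ^ K : ℕ) : ℝ) / Real.log ((b ^ K : ℕ) : ℝ) ^ (W + 1)) →
    ∑ v ∈ range (b ^ m), (if Sm v then p v else 0) ≤ 1 / (K : ℝ) ^ (U + 1) := by
  classical
  have hbr : (2 : ℝ) ≤ b := by exact_mod_cast hb
  have hb0 : (0 : ℝ) < b := by linarith
  have hlogB : 0 < Real.log b := Real.log_pos (by linarith)
  obtain ⟨μ, hμ0, hμ1, Q, hQ⟩ := hC.top
  obtain ⟨τ', hτ'⟩ : ∃ τ : ℕ, μ ^ τ < (1 / (b : ℝ)) ^ (U + 2) :=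
    exists_pow_lt_of_lt_one (show (0 : ℝ) < (1 / b) ^ (U + 2) by positivity) hμ1
  obtain ⟨τ, hτ⟩ : ∃ τ, τ = Q * τ' := ⟨_, rfl⟩
  obtain ⟨k2, hk2⟩ := exists_nat_ge ((b : ℝ) ^ (e + τ + 1) / Real.log b ^ (τ + 1))
  obtain ⟨k3, hk3⟩ := room b hb τ (e + 4)
  refine ⟨τ, k2 + k3 + 4, fun K hK m hm p hp cc Sm _ hSm => ?_⟩
  have hK1 : 1 ≤ K := by omega
  have hKr : (1 : ℝ) ≤ K := by exact_mod_cast hK1
  have hroom := hk3 K (by omega)
  obtain ⟨Lg, hLg⟩ : ∃ Lg, Lg = Nat.log b K := ⟨_, rfl⟩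
  rw [← hLg] at hroom
  obtain ⟨T, hT⟩ : ∃ T, T = τ * (Lg + 1) + 1 := ⟨_, rfl⟩
  have hTm : T ≤ m := by omega
  obtain ⟨l, hl⟩ : ∃ l, l = m - T := ⟨_, rfl⟩
  have hmTl : m = l + T := by omega
  have hR : ((b ^ K : ℕ) : ℝ) / Real.log ((b ^ K : ℕ) : ℝ) ^ (τ + 1) ≤ (b : ℝ) ^ l := by
    have e0 : Real.log ((b ^ K : ℕ) : ℝ) = K * Real.log b := by
      push_cast
      rw [Real.log_pow]
    have e1 : (b : ℝ) ^ Lg ≤ K := by
      rw [hLg]
      exact_mod_cast Nat.pow_log_le_self b (by omega)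
    have e2 : ((b ^ K : ℕ) : ℝ) = (b : ℝ) ^ l * ((b : ℝ) ^ (e + τ + 1) * ((b : ℝ) ^ Lg) ^ τ) := by
      push_cast
      rw [← pow_mul, ← pow_add, ← pow_add]
      congr 1
      rw [hm, hl, mul_comm Lg τ]
      have : τ * (Lg + 1) = τ * Lg + τ := by ring
      omega
    have hlog0 : 0 < (K : ℝ) * Real.log b := by positivity
    rw [e0, div_le_iff₀ (by positivity), e2]
    apply mul_le_mul_of_nonneg_left _ (by positivity)
    rw [mul_pow, pow_succ (K : ℝ)]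
    have e3 : (b : ℝ) ^ (e + τ + 1) ≤ K * Real.log b ^ (τ + 1) := by
      rw [div_le_iff₀ (by positivity)] at hk2
      refine hk2.trans (mul_le_mul_of_nonneg_right ?_ (by positivity))
      exact_mod_cast (by omega : k2 ≤ K)
    calc (b : ℝ) ^ (e + τ + 1) * ((b : ℝ) ^ Lg) ^ τ ≤ (K * Real.log b ^ (τ + 1)) * (K : ℝ) ^ τ :=
          mul_le_mul e3 (pow_le_pow_left₀ (by positivity) e1 τ) (by positivity) (by positivity)
      _ = _ := by ring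
  rw [hmTl] at hSm hp ⊢
  have hint := interval hb l T p (hC.nonneg _ p hp) (μ ^ (τ' * (Lg + 1))) (by positivity) (fun j => by
      have := hQ l T p hp j (τ' * (Lg + 1)) (by
        rw [hT, hτ]
        have : Q * (τ' * (Lg + 1)) = Q * τ' * (Lg + 1) := by ring
        omega)
      refine le_trans (le_of_eq ?_) this
      congr!) Sm (by
    intro v hv v' hv' hg hg'
    obtain ⟨a5, a1⟩ := hSm v hv hg
    obtain ⟨a6, a2⟩ := hSm v' hv' hg'
    have a3 : cc + κ * v < (b : ℤ) ^ l := by exact_mod_cast lt_of_lt_of_le a1 hR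
    have a4 : cc + κ * v' < (b : ℤ) ^ l := by exact_mod_cast lt_of_lt_of_le a2 hR
    by_contra hcon
    push Not at hcon
    have a7 : (v : ℤ) + (b : ℤ) ^ l ≤ v' := by exact_mod_cast hcon
    have hbl : (0 : ℤ) < (b : ℤ) ^ l := by positivity
    rcases lt_or_gt_of_ne hκ with h | h
    · have : κ * ((v' : ℤ) - v) ≤ -1 * ((v' : ℤ) - v) := by
        apply mul_le_mul_of_nonneg_right (by omega)
        linarith
      linarith
    · have : 1 * ((v' : ℤ) - v) ≤ κ * ((v' : ℤ) - v) := by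
        apply mul_le_mul_of_nonneg_right (by omega)
        linarith
      linarith)
  have h3 : μ ^ (τ' * (Lg + 1)) ≤ 1 / (K : ℝ) ^ (U + 2) := by
    rw [hLg]
    exact pow_log' b hb _ hμ0 _ _ hτ'.le K hK1
  have h4 : ∑ v ∈ range (b ^ (l + T)), (if Sm v then p v else 0) = ∑ v ∈ (range (b ^ (l + T))).filter Sm, p v := by
    rw [sum_filter]
  rw [h4]
  have h5 : ∑ v ∈ (range (b ^ (l + T))).filter Sm, p v ≤ 2 * μ ^ (τ' * (Lg + 1)) := by
    refine le_trans (le_of_eq ?_) hint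
    congr!
  refine h5.trans ?_
  have hK2 : (2 : ℝ) ≤ K := by exact_mod_cast (by omega : 2 ≤ K)
  calc 2 * μ ^ (τ' * (Lg + 1)) ≤ K * (1 / (K : ℝ) ^ (U + 2)) := by
        apply mul_le_mul hK2 h3 (by positivity) (by positivity)
    _ = 1 / (K : ℝ) ^ (U + 1) := by
        rw [show U + 2 = (U + 1) + 1 by ring, pow_succ]
        field_simp

theorem good_clsV (hb : 2 ≤ b) (hC : Good b C) (κ : ℤ) (hκ : κ ≠ 0) : ClsV b κ C := by
  have hF : 1 ≤ b.factorial * κ.natAbs := Nat.mul_pos b.factorial_pos (Int.natAbs_pos.2 hκ)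
  refine ⟨⟨hb, hκ, hC.nonneg, hC.sum, ⟨b.factorial * κ.natAbs, hF, ?_⟩, ?_⟩, ⟨b.factorial * κ.natAbs, hF, ?_⟩⟩
  · intro e V
    obtain ⟨D, K₀, h⟩ := good_law hb hC κ e V
    refine ⟨D, K₀, fun K hK m hm p hp cc => ?_⟩
    exact h K hK m e hm (Nat.le_mul_of_pos_right _ (by omega)) p hp cc
  · intro e U
    exact good_anti hb hC κ hκ e U
  · intro τ V
    exact good_law hb hC κ τ V

theorem good_cls (hb : 2 ≤ b) (hC : Good b C) (κ : ℤ) (hκ : κ ≠ 0) : Cls b κ C := (good_clsV hb hC κ hκ).toCls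

end Pool.Agent.H85G
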