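import Pool.Agent.H85G.D
import Pool.Agent.H85G.E

set_option autoImplicit false

/-! Digits with long range interactions: the class of the distributions. -/

namespace Pool.Agent.H85G
open Finset
open Pool.Agent.H807R2.Dav
open Pool.Agent.W93.AU
open Pool.Agent.W93.DG
open Pool.Agent.N213.GF (dig mk Off Field nb mem_nb self_mem Sep greedy ee_digits dig_lt)

variable {b k Δ : ℕ} {η : ℝ} {A : ℕ → ℕ → Prop} {q : ℕ → ℝ}

/-- The distribution with the weights `q v` and the energy of the interaction `φ`. -/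
noncomputable def gibbs (b k : ℕ) (q : ℕ → ℝ) (φ : Finset ℕ → ℕ → ℝ) (v : ℕ) : ℝ :=
  q v * Real.exp (energy k φ v) / ∑ w ∈ range (b ^ k), q w * Real.exp (energy k φ w)

/-- an interaction which is summable at each position -/
structure Inter (b k : ℕ) (M r : ℝ) (φ : Finset ℕ → ℕ → ℝ) (N : Finset ℕ → ℝ) : Prop where
  loc : ∀ X, ∀ v < b ^ k, ∀ w < b ^ k, (∀ i ∈ X, dig b v i = dig b w i) → φ X v = φ X w
  bound : ∀ X, ∀ v < b ^ k, |φ X v| ≤ N X
  nonneg : ∀ X, 0 ≤ N X
  sumb : Sumb k M (fun X => Real.exp (r * X.card) * N X)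

/-- the class -/
def GT (b Δ : ℕ) (η M r : ℝ) (k : ℕ) (p : ℕ → ℝ) : Prop :=
  ∃ (A : ℕ → ℕ → Prop) (q : ℕ → ℝ) (φ : Finset ℕ → ℕ → ℝ) (N : Finset ℕ → ℝ),
    Field b k Δ η A q ∧ Inter b k M r φ N ∧ p = gibbs b k q φ

lemma Z_pos (hF : Field b k Δ η A q) (φ : Finset ℕ → ℕ → ℝ) : 0 < ∑ w ∈ range (b ^ k), q w * Real.exp (energy k φ w) := by
  have h0 : ∀ w ∈ range (b ^ k), 0 ≤ q w * Real.exp (energy k φ w) := fun w _ => mul_nonneg (hF.nonneg w) (Real.exp_pos _).le
  apply lt_of_le_of_ne (sum_nonneg h0)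
  intro h
  have h1 := (sum_eq_zero_iff_of_nonneg h0).1 h.symm
  have h2 : ∀ w ∈ range (b ^ k), q w = 0 := by
    intro w hw
    rcases mul_eq_zero.1 (h1 w hw) with h3 | h3
    · exact h3
    · exact absurd h3 (Real.exp_pos _).ne'
  have h3 := hF.sum
  rw [sum_eq_zero h2] at h3
  norm_num at h3

lemma gibbs_nonneg (hF : Field b k Δ η A q) (φ : Finset ℕ → ℕ → ℝ) (v : ℕ) : 0 ≤ gibbs b k q φ v :=
  div_nonneg (mul_nonneg (hF.nonneg v) (Real.exp_pos _).le) (Z_pos hF φ).le

lemma gibbs_sum (hF : Field b k Δ η A q) (φ : Finset ℕ → ℕ → ℝ) : ∑ v ∈ range (b ^ k), gibbs b k q φ v = 1 := by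
  unfold gibbs
  rw [← sum_div]
  exact div_self (Z_pos hF φ).ne'

lemma gibbs_cast (φ : Finset ℕ → ℕ → ℝ) (f : ℕ → ℂ) : ∑ v ∈ range (b ^ k), ((gibbs b k q φ v : ℝ) : ℂ) * f v =
    (∑ v ∈ range (b ^ k), ((q v * Real.exp (energy k φ v) : ℝ) : ℂ) * f v) / ((∑ w ∈ range (b ^ k), q w * Real.exp (energy k φ w) : ℝ) : ℂ) := by
  rw [sum_div]
  apply sum_congr rfl
  intro v _
  unfold gibbs
  push_cast
  ring

lemma gibbs_bound (hF : Field b k Δ η A q) (φ : Finset ℕ → ℕ → ℝ) (f : ℕ → ℂ) (z : ℝ)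
    (h : ‖∑ v ∈ range (b ^ k), ((q v * Real.exp (energy k φ v) : ℝ) : ℂ) * f v‖ ≤ z * ∑ w ∈ range (b ^ k), q w * Real.exp (energy k φ w)) :
    ‖∑ v ∈ range (b ^ k), ((gibbs b k q φ v : ℝ) : ℂ) * f v‖ ≤ z := by
  have hZ := Z_pos hF φ
  rw [gibbs_cast, norm_div, Complex.norm_real, Real.norm_of_nonneg hZ.le, div_le_iff₀ hZ]
  exact h

/-- the class has exponentially small exponential sums -/
theorem gt_good (b Δ : ℕ) (hb : 2 ≤ b) (η M r : ℝ) (hη : 0 < η) (hM : 0 ≤ M) (hr : 0 < r) : Good b (GT b Δ η M r) := by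
  classical
  refine ⟨?_, ?_, ?_, ?_⟩
  · rintro k p ⟨A, q, φ, N, hF, _, rfl⟩ v
    exact gibbs_nonneg hF φ v
  · rintro k p ⟨A, q, φ, N, hF, _, rfl⟩
    exact gibbs_sum hF φ
  · intro c hc
    obtain ⟨μ, hμ0, hμ1, Q, hQ1, hQ⟩ := tilt b Δ hb η M r c hη hM hr hc
    refine ⟨μ, hμ0, hμ1, (Δ + 1) ^ 3 * Q, ?_⟩
    rintro k p ⟨A, q, φ, N, hF, hI, rfl⟩ θ n hn
    obtain ⟨S, hSG, hS1, hS2⟩ := greedy hF.symm hF.degree _ ((range k).filter fun j => Gd b c ((b : ℝ) ^ j * θ)) (fun i hi => by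
      rw [mem_filter, mem_range] at hi
      exact hi.1) le_rfl
    have hSk : ∀ i ∈ S, i < k := fun i hi => by
      have := hSG hi
      rw [mem_filter, mem_range] at this
      exact this.1
    have hg : ∀ i ∈ S, Gd b c ((b : ℝ) ^ i * θ) := fun i hi => (mem_filter.1 (hSG hi)).2
    have hcard : Q * n ≤ S.card := by
      have h1 : (Δ + 1) ^ 3 * (Q * n) ≤ (Δ + 1) ^ 3 * S.card := by
        rw [← mul_assoc]
        refine hn.trans (le_trans (le_of_eq ?_) hS2)
        congr!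
      exact Nat.le_of_mul_le_mul_left h1 (by positivity)
    obtain ⟨f, hf⟩ : ∃ f : ℕ → ℕ → ℂ, f = fun v j => ee (dig b v j * ((b : ℝ) ^ j * θ)) := ⟨_, rfl⟩
    have hf1 : ∀ v j, ‖f v j‖ = 1 := fun v j => by rw [hf]; exact norm_ee _
    obtain ⟨U, hU⟩ : ∃ U, U = S.biUnion (nb k A) := ⟨_, rfl⟩
    have hUk : U ⊆ range k := by
      intro j hj
      rw [hU, mem_biUnion] at hj
      obtain ⟨i, _, hj⟩ := hj
      exact mem_range.2 (mem_nb.1 hj).1
    apply gibbs_bound hF φ (fun v => ee (v * θ)) (μ ^ n)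
    have e1 : ∀ v ∈ range (b ^ k), ((q v * Real.exp (energy k φ v) : ℝ) : ℂ) * ee (v * θ) =
        ((q v * Real.exp (energy k φ v) : ℝ) : ℂ) * ((∏ j ∈ range k \ U, f v j) * ∏ i ∈ S, ∏ j ∈ nb k A i, f v j) := by
      intro v hv
      rw [mem_range] at hv
      rw [ee_digits hb v hv θ, ← prod_biUnion, ← hU, prod_sdiff hUk, hf]
      intro i hi j hj hij
      rw [Function.onFun, disjoint_left]
      intro x hx hx'
      exact (hS1 i hi j hj hij x hx x hx').1 rfl
    rw [sum_congr rfl e1]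
    refine hQ k A q hF φ N hI.loc hI.bound hI.nonneg hI.sumb S hSk hS1 (fun i v => ∏ j ∈ nb k A i, f v j) ?_ ?_ ?_
      (fun v => ∏ j ∈ range k \ U, f v j) ?_ ?_ n hcard
    · intro i _ v _ w _ h
      apply prod_congr rfl
      intro j hj
      rw [hf]
      simp only
      rw [h j hj]
    · intro i w
      rw [norm_prod, prod_congr rfl (fun j _ => hf1 w j), prod_const_one]
    · intro i hi x _ y _ hyx hne
      have hi1 : i ∈ nb k A i := self_mem (hSk i hi)
      rw [← mul_prod_erase _ _ hi1, ← mul_prod_erase _ _ hi1]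
      have h2 : ∏ j ∈ (nb k A i).erase i, f y j = ∏ j ∈ (nb k A i).erase i, f x j := by
        apply prod_congr rfl
        intro j hj
        rw [hf]
        simp only
        rw [hyx j (by rw [mem_singleton]; exact ne_of_mem_erase hj)]
      rw [h2, ← add_mul, norm_mul, norm_prod, prod_congr rfl (fun j _ => hf1 x j), prod_const_one, mul_one]
      have h3 := hg i hi
      rw [hf]
      simp only
      rcases lt_or_gt_of_ne hne with h | h
      · rw [add_comm]
        exact h3 _ _ h (dig_lt b x i hb)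
      · exact h3 _ _ h (dig_lt b y i hb)
    · intro v
      rw [norm_prod, prod_congr rfl (fun j _ => hf1 v j), prod_const_one]
    · intro i hi v _ w _ h
      apply prod_congr rfl
      intro j hj
      rw [hf]
      simp only
      rw [h j (by
        intro h'
        apply (mem_sdiff.1 hj).2
        rw [hU, mem_biUnion]
        exact ⟨i, hi, h'⟩)]
  · obtain ⟨μ, hμ0, hμ1, Q, hQ1, hQ⟩ := tilt b Δ hb η M r 1 hη hM hr one_pos
    refine ⟨μ, hμ0, hμ1, (Δ + 1) ^ 3 * Q, ?_⟩
    rintro l T p ⟨A, q, φ, N, hF, hI, rfl⟩ j n hn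
    obtain ⟨S, hSG, hS1, hS2⟩ := greedy hF.symm hF.degree T (Ico l (l + T)) (fun i hi => (mem_Ico.1 hi).2) (by simp)
    rw [Nat.card_Ico, Nat.add_sub_cancel_left] at hS2
    have hcard : Q * n ≤ S.card := by
      have h1 : (Δ + 1) ^ 3 * (Q * n) ≤ (Δ + 1) ^ 3 * S.card := by
        rw [← mul_assoc]
        exact hn.trans hS2
      exact Nat.le_of_mul_le_mul_left h1 (by positivity)
    have hSk : ∀ i ∈ S, i < l + T := fun i hi => (mem_Ico.1 (hSG hi)).2
    obtain ⟨d, hd⟩ : ∃ d : ℕ → ℕ, d = fun i => dig b (j * b ^ l) i := ⟨_, rfl⟩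
    have h1 := hQ (l + T) A q hF φ N hI.loc hI.bound hI.nonneg hI.sumb S hSk hS1 (fun i v => if dig b v i = d i then 1 else 0)
      (by
        intro i hi v hv w hw h
        rw [h i (self_mem (hSk i hi))])
      (by
        intro i w
        split_ifs
        · simp
        · simp)
      (by
        intro i _ x hx y hy _ hne
        by_cases h1 : dig b x i = d i
        · rw [if_pos h1, if_neg (fun h => hne (h.trans h1.symm))]
          norm_num
        · rw [if_neg h1]
          split_ifs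
          · norm_num
          · norm_num)
      (fun _ => 1) (fun _ => by simp) (fun _ _ _ _ _ _ _ => rfl) n hcard
    have h2 := gibbs_bound hF φ (fun v => 1 * ∏ i ∈ S, (if dig b v i = d i then (1 : ℂ) else 0)) (μ ^ n) h1
    have e2 : ∑ v ∈ range (b ^ (l + T)), ((gibbs b (l + T) q φ v : ℝ) : ℂ) * (1 * ∏ i ∈ S, (if dig b v i = d i then (1 : ℂ) else 0)) =
        ((∑ v ∈ range (b ^ (l + T)), (if ∀ i ∈ S, dig b v i = d i then gibbs b (l + T) q φ v else 0) : ℝ) : ℂ) := by
      push_cast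
      apply sum_congr rfl
      intro v _
      rw [one_mul]
      by_cases h : ∀ i ∈ S, dig b v i = d i
      · rw [if_pos h, prod_congr rfl (fun i hi => if_pos (h i hi)), prod_const_one, mul_one]
      · rw [if_neg h]
        push Not at h
        obtain ⟨i, hi, h⟩ := h
        rw [prod_eq_zero hi (if_neg h), mul_zero, Complex.ofReal_zero]
    rw [e2, Complex.norm_real, Real.norm_of_nonneg] at h2
    · refine le_trans ?_ h2
      rw [sum_filter]
      apply sum_le_sum
      intro v _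
      by_cases hvj : v / b ^ l = j
      · rw [if_pos hvj, if_pos]
        intro i hi
        have hi' := (mem_Ico.1 (hSG hi)).1
        obtain ⟨s, rfl⟩ : ∃ s, i = l + s := ⟨i - l, by omega⟩
        rw [hd]
        unfold dig
        beta_reduce
        rw [pow_add, ← Nat.div_div_eq_div_mul, ← Nat.div_div_eq_div_mul, hvj, Nat.mul_div_cancel _ (by positivity)]
      · rw [if_neg hvj]
        split_ifs
        · exact gibbs_nonneg hF φ v
        · exact le_rfl
    · apply sum_nonneg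
      intro v _
      split_ifs
      · exact gibbs_nonneg hF φ v
      · exact le_rfl

end Pool.Agent.H85G
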