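import Pool.Agent.H85G.E
import Pool.Agent.N794.CG.Dom
import Pool.Agent.R557.AD.Few

set_option autoImplicit false

/-! The decay of the characteristic functions, as used for the torsion in class groups. -/

namespace Pool.Agent.H85G
open Finset
open Pool.Agent.H807R2.Dav
open Pool.Agent.W93.AU
open Pool.Agent.W93.DG
open Pool.Agent.TH872
open Pool.Agent.R459.Eq (Decays)
open Pool.Agent.N794.CG (Dom dom_of_decays)

variable {b : ℕ} {C : ℕ → (ℕ → ℝ) → Prop}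

theorem good_decays (hb : 2 ≤ b) (hC : Good b C) : ∃ (A : ℕ) (γ : ℝ), 0 < γ ∧ γ < 1 ∧ ∀ k p, C k p → ∀ κ c : ℤ,
    Decays b b.factorial A k γ κ (range (b ^ k)) p (fun v => c + κ * (v : ℕ)) := by
  classical
  obtain ⟨μ, hμ0, hμ1, Q, H⟩ := hC.char _ (show 0 < 4 * (1 / ((b : ℝ) ^ 2 * (b.factorial : ℝ))) ^ 2 from cc_pos hb)
  refine ⟨Q, max μ (1 / 2), lt_of_lt_of_le (by norm_num) (le_max_right _ _), max_lt hμ1 (by norm_num),
    fun k p hp κ c => ⟨fun i _ => hC.nonneg k p hp i, hC.sum k p hp, fun θ N hfar _ => ?_⟩⟩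
  have e1 : ∑ i ∈ range (b ^ k), (p i : ℂ) * ee (((c + κ * (i : ℕ) : ℤ) : ℝ) * θ) =
      ee ((c : ℝ) * θ) * ∑ v ∈ range (b ^ k), (p v : ℂ) * ee (v * ((κ : ℝ) * θ)) := by
    rw [mul_sum]
    refine sum_congr rfl fun v _ => ?_
    have e2 : (((c + κ * (v : ℕ) : ℤ) : ℝ) * θ) = (c : ℝ) * θ + v * ((κ : ℝ) * θ) := by
      push_cast
      ring
    rw [e2, ee_add]
    ring
  rw [e1, norm_mul, norm_ee, one_mul]
  have hcard : Mir.farCount b b.factorial k ((κ : ℝ) * θ) ≤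
      ((range k).filter fun j => Gd b (4 * (1 / ((b : ℝ) ^ 2 * (b.factorial : ℝ))) ^ 2) ((b : ℝ) ^ j * ((κ : ℝ) * θ))).card := by
    unfold Mir.farCount
    apply card_le_card
    intro j hj
    rw [mem_filter] at hj ⊢
    exact ⟨hj.1, Pool.Agent.R557.AD.gd_of_far b hb _ hj.2⟩
  have h1 := H k p hp ((κ : ℝ) * θ) N (by
    refine le_trans ?_ (hfar.trans hcard)
    exact Nat.mul_le_mul_left _ (by omega))
  exact h1.trans (pow_le_pow_left₀ hμ0 (le_max_left _ _) _)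

theorem good_dom (hb : 2 ≤ b) (hC : Good b C) : ∃ (A : ℕ) (γ : ℝ), 0 < γ ∧ γ < 1 ∧ ∀ k p, C k p → ∀ κ c : ℤ,
    Dom b b.factorial A k γ κ 1 (range (b ^ k)) p (fun v => c + κ * (v : ℕ)) := by
  obtain ⟨A, γ, h0, h1, H⟩ := good_decays hb hC
  exact ⟨A, γ, h0, h1, fun k p hp κ c => dom_of_decays (H k p hp κ c)⟩

end Pool.Agent.H85G
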