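import Pool.Agent.H85G.E
import Pool.Agent.N625.DY.G
import Pool.Agent.W41.Sieve
import Pool.Agent.W301.SS.Avg

/-!
Primes in short intervals to the right of the points of a translate of a set: the deterministic part.
-/

set_option autoImplicit false
set_option maxHeartbeats 1000000

namespace Pool.Agent.H85G

open Finset
open Pool.Agent.H373R2.T7 (lamz lamI lamzI lamP Vz pz mem_pz Vz_pos lamz_nonneg pp_sum lamP_le lamI_nonneg lamP_nonneg)
open Pool.Agent.W301.SS (pn cs GG)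

/-- the main term in short intervals -/
lemma rough_int (ε : ℝ) (hε : 0 < ε) : ∃ K y0 : ℕ, 1 ≤ K ∧ 1 ≤ y0 ∧ ∀ z : ℕ, y0 ≤ z → ∀ X : ℕ, z ^ K ≤ X → ∀ n : ℕ,
    |∑ h ∈ Icc 1 X, lamz z (n + h) - X| ≤ ε * X := by
  classical
  obtain ⟨K, y0, hK, hy0, H⟩ := Pool.Agent.W41.fund hε
  refine ⟨K, y0, hK, by omega, fun z hz X hX n => ?_⟩
  have h1 := H z hz X hX (pz z) (fun p hp => ⟨(mem_pz.1 hp).2, (mem_pz.1 hp).1⟩) (fun p => (p - n % p) % p)
    (fun p hp => Nat.mod_lt _ (mem_pz.1 hp).2.pos)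
  have hV : Pool.Agent.W41.V (pz z) = Vz z := rfl
  rw [hV] at h1
  have hVp := Vz_pos z
  have h2 : ∑ h ∈ Icc 1 X, lamz z (n + h) =
      (Vz z)⁻¹ * (((Icc 1 X).filter (fun t : ℕ => ∀ p ∈ pz z, t % p ≠ (p - n % p) % p)).card : ℝ) := by
    rw [card_filter, Nat.cast_sum, mul_sum]
    apply sum_congr rfl
    intro h _
    unfold lamz
    have hiff : (∀ p ∈ pz z, ¬ p ∣ n + h) ↔ ∀ p ∈ pz z, h % p ≠ (p - n % p) % p := by
      apply forall₂_congr
      intro p hp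
      have hp0 : 0 < p := (mem_pz.1 hp).2.pos
      rw [not_iff_not]
      have hn : n % p < p := Nat.mod_lt _ hp0
      have hh : h % p < p := Nat.mod_lt _ hp0
      rw [Nat.dvd_iff_mod_eq_zero, Nat.add_mod]
      rcases Nat.eq_zero_or_pos (n % p) with h0 | h0
      · rw [h0, Nat.sub_zero, Nat.mod_self, zero_add, Nat.mod_mod]
      · rw [Nat.mod_eq_of_lt (by omega : p - n % p < p)]
        constructor
        · intro h3
          by_contra hcon
          rcases Nat.lt_or_ge (n % p + h % p) p with h4 | h4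
          · rw [Nat.mod_eq_of_lt h4] at h3
            omega
          · rw [Nat.mod_eq_sub_mod h4, Nat.mod_eq_of_lt (by omega)] at h3
            omega
        · intro h3
          rw [h3, Nat.add_sub_cancel' hn.le, Nat.mod_self]
    by_cases h3 : ∀ p ∈ pz z, ¬ p ∣ n + h
    · rw [if_pos h3, if_pos (hiff.1 h3), Nat.cast_one, mul_one]
    · rw [if_neg h3, if_neg (fun h4 => h3 (hiff.2 h4)), Nat.cast_zero, mul_zero]
  rw [h2]
  have h3 : (Vz z)⁻¹ * (((Icc 1 X).filter (fun t : ℕ => ∀ p ∈ pz z, t % p ≠ (p - n % p) % p)).card : ℝ) - X =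
      (Vz z)⁻¹ * ((((Icc 1 X).filter (fun t : ℕ => ∀ p ∈ pz z, t % p ≠ (p - n % p) % p)).card : ℝ) - X * Vz z) := by
    field_simp
  rw [h3, abs_mul, abs_of_pos (inv_pos.2 hVp)]
  calc (Vz z)⁻¹ * |(((Icc 1 X).filter (fun t : ℕ => ∀ p ∈ pz z, t % p ≠ (p - n % p) % p)).card : ℝ) - X * Vz z| ≤
        (Vz z)⁻¹ * (ε * (X * Vz z)) := mul_le_mul_of_nonneg_left h1 (inv_pos.2 hVp).le
    _ = ε * X := by field_simp

/-- the sum over the set of the deviation at the shift -/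
noncomputable def Fd (A : Finset ℕ) (N z b h : ℕ) : ℝ :=
  |∑ n ∈ Icc 1 N, (if n ∈ A then (1 : ℝ) else 0) * (lamI ((n : ℤ) + ((b + h : ℕ) : ℤ)) - lamzI z ((n : ℤ) + ((b + h : ℕ) : ℤ)))|

lemma Fd_nn (A : Finset ℕ) (N z b h : ℕ) : 0 ≤ Fd A N z b h := abs_nonneg _

lemma Fd_eq {A : Finset ℕ} {N z b h : ℕ} (hA : A ⊆ Icc 1 N) :
    Fd A N z b h = |∑ a ∈ A, (lamI (((a + b + h : ℕ) : ℤ)) - lamz z (a + b + h))| := by
  unfold Fd
  congr 1
  have e1 : ∀ n ∈ Icc 1 N, (if n ∈ A then (1 : ℝ) else 0) *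
      (lamI ((n : ℤ) + ((b + h : ℕ) : ℤ)) - lamzI z ((n : ℤ) + ((b + h : ℕ) : ℤ))) =
      if n ∈ A then (lamI (((n + b + h : ℕ) : ℤ)) - lamz z (n + b + h)) else 0 := by
    intro n hn
    rw [mem_Icc] at hn
    have e2 : (n : ℤ) + ((b + h : ℕ) : ℤ) = ((n + b + h : ℕ) : ℤ) := by push_cast; ring
    rw [e2]
    split_ifs with h1
    · rw [one_mul]
      congr 1
      unfold lamzI
      rw [if_pos (by exact_mod_cast (by omega : 1 ≤ n + b + h)), Int.toNat_natCast]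
    · rw [zero_mul]
  rw [sum_congr rfl e1, ← sum_filter]
  congr 1
  ext n
  rw [mem_filter]
  exact ⟨fun h => h.2, fun h => ⟨hA h, h⟩⟩

/-- the weighted number of the primes and prime powers in the windows -/
noncomputable def SL (A : Finset ℕ) (b y : ℕ) : ℝ := ∑ a ∈ A, ∑ h ∈ Icc 1 y, lamI (((a + b + h : ℕ) : ℤ))

lemma SL_close {A : Finset ℕ} {N z b y : ℕ} {δ : ℝ} (hA : A ⊆ Icc 1 N)
    (hr : ∀ n : ℕ, |∑ h ∈ Icc 1 y, lamz z (n + h) - y| ≤ δ * y) (hF : ∑ h ∈ Icc 1 y, Fd A N z b h ≤ δ * (A.card * y)) :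
    |SL A b y - A.card * y| ≤ 2 * δ * (A.card * y) := by
  have h1 : SL A b y - A.card * y = ∑ h ∈ Icc 1 y, ∑ a ∈ A, (lamI (((a + b + h : ℕ) : ℤ)) - lamz z (a + b + h)) +
      ∑ a ∈ A, (∑ h ∈ Icc 1 y, lamz z (a + b + h) - y) := by
    unfold SL
    rw [sum_comm (s := Icc 1 y) (t := A), ← sum_add_distrib]
    rw [← nsmul_eq_mul, ← sum_const, ← sum_sub_distrib]
    apply sum_congr rfl
    intro a _
    rw [sum_sub_distrib]
    ring
  rw [h1]
  refine (abs_add_le _ _).trans ?_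
  have h2 : |∑ h ∈ Icc 1 y, ∑ a ∈ A, (lamI (((a + b + h : ℕ) : ℤ)) - lamz z (a + b + h))| ≤ δ * (A.card * y) := by
    refine (abs_sum_le_sum_abs _ _).trans (le_trans (le_of_eq ?_) hF)
    apply sum_congr rfl
    intro h _
    rw [Fd_eq hA]
  have h3 : |∑ a ∈ A, (∑ h ∈ Icc 1 y, lamz z (a + b + h) - y)| ≤ δ * (A.card * y) := by
    refine (abs_sum_le_sum_abs _ _).trans ?_
    calc ∑ a ∈ A, |∑ h ∈ Icc 1 y, lamz z (a + b + h) - (y : ℝ)| ≤ ∑ _a ∈ A, δ * (y : ℝ) := sum_le_sum fun a _ => hr (a + b)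
      _ = δ * (A.card * y) := by rw [sum_const, nsmul_eq_mul]; ring
  linarith

lemma lamI_lamP_sum {A : Finset ℕ} {N b h X : ℕ} (hA : A ⊆ Icc 1 N) (hX : 1 ≤ X) (hbX : N + b + h ≤ X) :
    ∑ a ∈ A, (lamI (((a + b + h : ℕ) : ℤ)) - lamP (((a + b + h : ℕ) : ℤ))) ≤ 2 * √(X : ℝ) * Real.log X := by
  have h1 := pp_sum N X ((b + h : ℕ) : ℤ) hX (by
    intro n hn
    rw [mem_Icc] at hn
    exact_mod_cast (by omega : n + (b + h) ≤ X))
  refine le_trans ?_ h1
  have h2 : ∑ a ∈ A, (lamI (((a + b + h : ℕ) : ℤ)) - lamP (((a + b + h : ℕ) : ℤ))) =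
      ∑ a ∈ A, (lamI ((a : ℤ) + ((b + h : ℕ) : ℤ)) - lamP ((a : ℤ) + ((b + h : ℕ) : ℤ))) := by
    apply sum_congr rfl
    intro a _
    have e2 : (a : ℤ) + ((b + h : ℕ) : ℤ) = ((a + b + h : ℕ) : ℤ) := by push_cast; ring
    rw [e2]
  rw [h2]
  apply sum_le_sum_of_subset_of_nonneg hA
  intro n _ _
  have := lamP_le ((n : ℤ) + ((b + h : ℕ) : ℤ))
  linarith

lemma pn_sum (n y : ℕ) : (pn n y : ℝ) = ∑ h ∈ Icc 1 y, (if (n + h).Prime then (1 : ℝ) else 0) := by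
  unfold pn
  rw [card_filter, Nat.cast_sum]
  symm
  apply sum_nbij' (fun h => n + h) (fun m => m - n)
  · intro h hh
    rw [mem_Icc] at hh
    rw [mem_Ioc]
    omega
  · intro m hm
    rw [mem_Ioc] at hm
    rw [mem_Icc]
    omega
  · intro h _
    omega
  · intro m hm
    rw [mem_Ioc] at hm
    omega
  · intro h _
    split_ifs <;> simp

lemma pn_le' (n y : ℕ) : (pn n y : ℝ) ≤ y := by
  rw [pn_sum]
  calc ∑ h ∈ Icc 1 y, (if (n + h).Prime then (1 : ℝ) else 0) ≤ ∑ _h ∈ Icc 1 y, (1 : ℝ) := by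
        apply sum_le_sum
        intro h _
        split_ifs <;> norm_num
    _ = y := by rw [sum_const, Nat.card_Icc, nsmul_eq_mul, mul_one, Nat.add_sub_cancel]

/-- from the weighted number to the number of primes -/
lemma cs_of_SL {A : Finset ℕ} {N b y X : ℕ} {ℓ δ Q : ℝ} (hA : A ⊆ Icc 1 N) (hX : 1 ≤ X) (hbX : N + b + y ≤ X) (hℓ : 0 < ℓ)
    (hδ : 0 < δ) (hδ1 : δ ≤ 1 / 4) (hlX : Real.log X ≤ (1 + δ) * ℓ) (hQ : 0 < Q) (hlQ : (1 - δ) * ℓ ≤ Real.log Q)
    (h1 : |SL A b y - A.card * y| ≤ δ * (A.card * y)) (h2 : 2 * √(X : ℝ) * Real.log X ≤ δ * A.card)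
    (h3 : Q * ℓ ≤ δ * A.card) :
    |cs A b y * ℓ - A.card * y| ≤ 5 * δ * (A.card * y) := by
  classical
  have hy0 : (0 : ℝ) ≤ y := Nat.cast_nonneg _
  have hA0 : (0 : ℝ) ≤ A.card := Nat.cast_nonneg _
  -- the sum over the primes
  obtain ⟨SP, hSP⟩ : ∃ SP, SP = ∑ a ∈ A, ∑ h ∈ Icc 1 y, lamP (((a + b + h : ℕ) : ℤ)) := ⟨_, rfl⟩
  have hSP1 : SP ≤ SL A b y := by
    rw [hSP]
    unfold SL
    exact sum_le_sum fun a _ => sum_le_sum fun h _ => lamP_le _
  have hSP2 : SL A b y - SP ≤ δ * (A.card * y) := by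
    have e : SL A b y - SP = ∑ h ∈ Icc 1 y, ∑ a ∈ A, (lamI (((a + b + h : ℕ) : ℤ)) - lamP (((a + b + h : ℕ) : ℤ))) := by
      rw [hSP]
      unfold SL
      rw [sum_comm (s := Icc 1 y) (t := A), ← sum_sub_distrib]
      apply sum_congr rfl
      intro a _
      rw [sum_sub_distrib]
    rw [e]
    calc ∑ h ∈ Icc 1 y, ∑ a ∈ A, (lamI (((a + b + h : ℕ) : ℤ)) - lamP (((a + b + h : ℕ) : ℤ))) ≤
          ∑ _h ∈ Icc 1 y, δ * (A.card : ℝ) := by
            apply sum_le_sum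
            intro h hh
            rw [mem_Icc] at hh
            exact (lamI_lamP_sum hA hX (by omega)).trans h2
      _ = δ * (A.card * y) := by rw [sum_const, Nat.card_Icc, Nat.add_sub_cancel, nsmul_eq_mul]; ring
  have hcs : cs A b y = ∑ a ∈ A, ∑ h ∈ Icc 1 y, (if (a + b + h).Prime then (1 : ℝ) else 0) := by
    unfold cs
    exact sum_congr rfl fun a _ => pn_sum _ _
  -- upper bound of the logarithms
  have up : SP ≤ (1 + δ) * ℓ * cs A b y := by
    rw [hSP, hcs, mul_sum]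
    apply sum_le_sum
    intro a ha
    rw [mul_sum]
    apply sum_le_sum
    intro h hh
    rw [mem_Icc] at hh
    have ha' := mem_Icc.1 (hA ha)
    unfold lamP
    rw [Int.toNat_natCast]
    split_ifs with hp
    · rw [mul_one]
      refine le_trans ?_ hlX
      apply Real.log_le_log (by exact_mod_cast hp.pos)
      exact_mod_cast (by omega : a + b + h ≤ X)
    · rw [mul_zero]
  -- lower bound
  have low : (1 - δ) * ℓ * cs A b y ≤ SP + Q * ℓ * y := by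
    have hsmall : ∀ h ∈ Icc 1 y, ∑ a ∈ A, (if (a + b + h : ℕ) < Q then ℓ else 0) ≤ Q * ℓ := by
      intro h hh
      rw [mem_Icc] at hh
      rw [← sum_filter, sum_const, nsmul_eq_mul]
      apply mul_le_mul_of_nonneg_right _ hℓ.le
      have hc : (A.filter (fun a : ℕ => (((a + b + h : ℕ) : ℕ) : ℝ) < Q)).card ≤ ⌊Q⌋₊ := by
        have : A.filter (fun a : ℕ => (((a + b + h : ℕ) : ℕ) : ℝ) < Q) ⊆ range ⌊Q⌋₊ := by
          intro a ha
          rw [mem_filter] at ha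
          rw [mem_range]
          have h5 : a + b + h ≤ ⌊Q⌋₊ := Nat.le_floor ha.2.le
          omega
        have h6 := card_le_card this
        rwa [card_range] at h6
      have h7 : ((A.filter (fun a : ℕ => (((a + b + h : ℕ) : ℕ) : ℝ) < Q)).card : ℝ) ≤ (⌊Q⌋₊ : ℝ) := by exact_mod_cast hc
      exact h7.trans (Nat.floor_le hQ.le)
    have h4 : (1 - δ) * ℓ * cs A b y ≤ SP + ∑ h ∈ Icc 1 y, ∑ a ∈ A, (if (((a + b + h : ℕ) : ℕ) : ℝ) < Q then ℓ else 0) := by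
      rw [hSP, hcs, sum_comm (s := Icc 1 y) (t := A), mul_sum, ← sum_add_distrib]
      apply sum_le_sum
      intro a ha
      rw [mul_sum, ← sum_add_distrib]
      apply sum_le_sum
      intro h hh
      unfold lamP
      rw [Int.toNat_natCast]
      by_cases hp : (a + b + h).Prime
      · rw [if_pos hp, if_pos hp, mul_one]
        have hlog0 : 0 ≤ Real.log ((a + b + h : ℕ) : ℝ) := Real.log_natCast_nonneg _
        by_cases hq : ((a + b + h : ℕ) : ℝ) < Q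
        · rw [if_pos hq]
          nlinarith
        · rw [if_neg hq, add_zero]
          refine hlQ.trans ?_
          apply Real.log_le_log hQ
          linarith
      · rw [if_neg hp, if_neg hp, mul_zero, zero_add]
        split_ifs
        · exact hℓ.le
        · exact le_rfl
    refine h4.trans ?_
    apply add_le_add le_rfl
    calc _ ≤ ∑ _h ∈ Icc 1 y, Q * ℓ := sum_le_sum hsmall
      _ = Q * ℓ * y := by rw [sum_const, Nat.card_Icc, Nat.add_sub_cancel, nsmul_eq_mul]; ring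
  have hM : 0 ≤ (A.card : ℝ) * y := mul_nonneg hA0 hy0
  obtain ⟨M, hM'⟩ : ∃ M, M = (A.card : ℝ) * y := ⟨_, rfl⟩
  rw [← hM'] at h1 hSP2 hM ⊢
  have h3' : Q * ℓ * y ≤ δ * M := by
    rw [hM']
    calc Q * ℓ * y ≤ (δ * A.card) * y := mul_le_mul_of_nonneg_right h3 hy0
      _ = _ := by ring
  obtain ⟨t, ht⟩ : ∃ t, t = cs A b y * ℓ := ⟨_, rfl⟩
  have up' : SP ≤ (1 + δ) * t := by rw [ht]; linarith
  have low' : (1 - δ) * t ≤ SP + δ * M := by rw [ht]; linarith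
  rw [← ht]
  have a1 := (abs_le.1 h1).1
  have a2 := (abs_le.1 h1).2
  rw [abs_le]
  constructor
  · -- t ≥ (1-2δ) M / (1+δ)
    have : (1 - 2 * δ) * M ≤ (1 + δ) * t := by linarith
    have h5 : (1 - 5 * δ) * M * (1 + δ) ≤ (1 - 2 * δ) * M := by nlinarith [mul_nonneg hδ.le hM, mul_nonneg (mul_nonneg hδ.le hδ.le) hM]
    have h6 : (1 - 5 * δ) * M ≤ t := by
      have : (1 - 5 * δ) * M * (1 + δ) ≤ t * (1 + δ) := by linarith
      exact le_of_mul_le_mul_right this (by linarith)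
    linarith
  · have : (1 - δ) * t ≤ (1 + 2 * δ) * M := by linarith
    have h5 : (1 + 2 * δ) * M ≤ (1 + 5 * δ) * M * (1 - δ) := by nlinarith [mul_nonneg hδ.le hM, mul_nonneg (mul_nonneg hδ.le hδ.le) hM]
    have h6 : t * (1 - δ) ≤ (1 + 5 * δ) * M * (1 - δ) := by linarith
    have h7 := le_of_mul_le_mul_right h6 (by linarith)
    linarith

end Pool.Agent.H85G
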