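import Pool.Agent.H85G.R

/-!
Primes in short intervals to the right of the points of a translate of a set: from the weighted numbers to the averages.
-/

set_option autoImplicit false
set_option maxHeartbeats 1000000

namespace Pool.Agent.H85G

open Finset Filter
open Pool.Agent.W301.SS (pn cs GG pn_floor ev_log ev_L subsets many)

/-- `R(n, y) = (π(n + y) - π(n)) / (y / log n)` -/
noncomputable def RR (n : ℕ) (y : ℝ) : ℝ :=
  ((Nat.primeCounting ⌊(n : ℝ) + y⌋₊ : ℝ) - Nat.primeCounting n) / (y / Real.log n)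

lemma RR_eq (n : ℕ) (y : ℝ) (hy : 0 < y) : RR n y = (pn n ⌊y⌋₊ : ℝ) * Real.log n / y := by
  unfold RR
  rw [pn_floor n y hy.le, div_div_eq_mul_div]

lemma RR_nn (n : ℕ) (y : ℝ) (hy : 0 < y) : 0 ≤ RR n y := by
  rw [RR_eq n y hy]
  exact div_nonneg (mul_nonneg (Nat.cast_nonneg _) (Real.log_natCast_nonneg n)) hy.le

open Classical in
/-- the average is close to one and many of the values are not small -/
def Av (ε : ℝ) (A : Finset ℕ) (b : ℕ) (y : ℝ) : Prop :=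
  |(∑ a ∈ A, RR (a + b) y) / A.card - 1| ≤ ε ∧
    (1 / 4 - ε) * A.card ≤ ((A.filter fun a => ε / 2 ≤ RR (a + b) y).card : ℝ)

lemma small_card (A : Finset ℕ) (b : ℕ) (hb : 1 ≤ b) (Q : ℝ) (hQ : 0 < Q) :
    ((A.filter (fun a : ℕ => ((a + b : ℕ) : ℝ) < Q)).card : ℝ) ≤ Q := by
  have h5 : A.filter (fun a : ℕ => ((a + b : ℕ) : ℝ) < Q) ⊆ range ⌊Q⌋₊ := by
    intro a ha
    rw [mem_filter] at ha
    rw [mem_range]
    have h5 : a + b ≤ ⌊Q⌋₊ := Nat.le_floor ha.2.le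
    omega
  have h6 := card_le_card h5
  rw [card_range] at h6
  have h7 : ((A.filter (fun a : ℕ => (((a + b : ℕ) : ℕ) : ℝ) < Q)).card : ℝ) ≤ (⌊Q⌋₊ : ℝ) := by exact_mod_cast h6
  exact h7.trans (Nat.floor_le hQ.le)

lemma avg_of_cs {A : Finset ℕ} {b : ℕ} {ℓ δ Q y : ℝ} (hb : 1 ≤ b) (hℓ : 0 < ℓ) (hδ : 0 < δ) (hδ1 : δ ≤ 1 / 16)
    (hlX : ∀ a ∈ A, Real.log ((a + b : ℕ) : ℝ) ≤ (1 + δ) * ℓ) (hQ : 0 < Q) (hlQ : (1 - δ) * ℓ ≤ Real.log Q)
    (h3 : Q * ℓ ≤ δ * A.card) (hy : 1 / δ ≤ y) (hA0 : 0 < (A.card : ℝ))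
    (h1 : |cs A b ⌊y⌋₊ * ℓ - A.card * (⌊y⌋₊ : ℕ)| ≤ 5 * δ * (A.card * (⌊y⌋₊ : ℕ))) :
    |(∑ a ∈ A, RR (a + b) y) / A.card - 1| ≤ 10 * δ := by
  classical
  have hd1 : 0 < 1 / δ := by positivity
  have hy0 : 0 < y := by linarith
  obtain ⟨f, hf⟩ : ∃ f, f = ⌊y⌋₊ := ⟨_, rfl⟩
  rw [← hf] at h1
  have hfy : (f : ℝ) ≤ y := by rw [hf]; exact Nat.floor_le hy0.le
  have hf1 : (1 - δ) * y ≤ f := by
    have := Nat.lt_floor_add_one y
    rw [← hf] at this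
    rw [div_le_iff₀ hδ] at hy
    linarith
  have hf0 : (0 : ℝ) ≤ f := Nat.cast_nonneg f
  have hsum : ∑ a ∈ A, RR (a + b) y = (∑ a ∈ A, (pn (a + b) f : ℝ) * Real.log ((a + b : ℕ) : ℝ)) / y := by
    rw [sum_div]
    apply sum_congr rfl
    intro a _
    rw [RR_eq _ _ hy0, hf]
  obtain ⟨S, hS⟩ : ∃ S, S = ∑ a ∈ A, (pn (a + b) f : ℝ) * Real.log ((a + b : ℕ) : ℝ) := ⟨_, rfl⟩
  rw [hsum, ← hS]
  obtain ⟨t, ht⟩ : ∃ t, t = cs A b f * ℓ := ⟨_, rfl⟩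
  rw [← ht] at h1
  have up : S ≤ (1 + δ) * t := by
    rw [hS, ht]
    unfold cs
    rw [sum_mul, mul_sum]
    apply sum_le_sum
    intro a ha
    have := hlX a ha
    have h5 : (0 : ℝ) ≤ pn (a + b) f := Nat.cast_nonneg _
    nlinarith [mul_le_mul_of_nonneg_left this h5]
  have low : (1 - δ) * t ≤ S + δ * (A.card * f) := by
    have h4 : (1 - δ) * t ≤ S + ∑ a ∈ A, (if ((a + b : ℕ) : ℝ) < Q then ℓ * f else 0) := by
      rw [hS, ht]
      unfold cs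
      rw [sum_mul, mul_sum, ← sum_add_distrib]
      apply sum_le_sum
      intro a ha
      have h5 : (0 : ℝ) ≤ pn (a + b) f := Nat.cast_nonneg _
      have h6 := pn_le' (a + b) f
      have hlog0 : 0 ≤ Real.log ((a + b : ℕ) : ℝ) := Real.log_natCast_nonneg _
      by_cases hq : ((a + b : ℕ) : ℝ) < Q
      · rw [if_pos hq]
        have h7 : (1 - δ) * ((pn (a + b) f : ℝ) * ℓ) ≤ ℓ * f := by
          calc (1 - δ) * ((pn (a + b) f : ℝ) * ℓ) ≤ 1 * ((f : ℝ) * ℓ) := by gcongr; linarith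
            _ = ℓ * f := by ring
        have h8 := mul_nonneg h5 hlog0
        linarith
      · rw [if_neg hq, add_zero]
        have h7 : (1 - δ) * ℓ ≤ Real.log ((a + b : ℕ) : ℝ) := by
          refine hlQ.trans (Real.log_le_log hQ ?_)
          linarith
        nlinarith [mul_le_mul_of_nonneg_left h7 h5]
    refine h4.trans ?_
    apply add_le_add le_rfl
    rw [← sum_filter, sum_const, nsmul_eq_mul]
    calc ((A.filter (fun a : ℕ => ((a + b : ℕ) : ℝ) < Q)).card : ℝ) * (ℓ * f) ≤ Q * (ℓ * f) :=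
          mul_le_mul_of_nonneg_right (small_card A b hb Q hQ) (by positivity)
      _ = Q * ℓ * f := by ring
      _ ≤ δ * A.card * f := mul_le_mul_of_nonneg_right h3 hf0
      _ = δ * (A.card * f) := by ring
  obtain ⟨M, hM⟩ : ∃ M, M = (A.card : ℝ) * f := ⟨_, rfl⟩
  rw [← hM] at h1 low
  have hM0 : 0 ≤ M := by rw [hM]; positivity
  have a1 := (abs_le.1 h1).1
  have a2 := (abs_le.1 h1).2
  have hMy : M ≤ A.card * y := by rw [hM]; exact mul_le_mul_of_nonneg_left hfy hA0.le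
  have hMy2 : (1 - δ) * (A.card * y) ≤ M := by
    rw [hM]
    calc (1 - δ) * (A.card * y) = A.card * ((1 - δ) * y) := by ring
      _ ≤ A.card * f := mul_le_mul_of_nonneg_left hf1 hA0.le
  have hAy : 0 < (A.card : ℝ) * y := mul_pos hA0 hy0
  have e : S / y / A.card - 1 = (S - A.card * y) / (A.card * y) := by
    field_simp
  rw [e, abs_div, abs_of_pos hAy, div_le_iff₀ hAy, abs_le]
  obtain ⟨Z, hZ⟩ : ∃ Z, Z = (A.card : ℝ) * y := ⟨_, rfl⟩
  rw [← hZ] at hMy hMy2 hAy ⊢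
  constructor
  · have b1 : (1 - δ) * ((1 - 5 * δ) * M) ≤ S + δ * M := by
      have : (1 - 5 * δ) * M ≤ t := by linarith
      nlinarith
    have b2 : (1 - 7 * δ) * M ≤ S := by nlinarith [mul_nonneg (mul_nonneg hδ.le hδ.le) hM0]
    have b3 : (1 - 7 * δ) * ((1 - δ) * Z) ≤ (1 - 7 * δ) * M := mul_le_mul_of_nonneg_left hMy2 (by linarith)
    nlinarith [mul_nonneg (mul_nonneg hδ.le hδ.le) hAy.le]
  · have b1 : S ≤ (1 + δ) * ((1 + 5 * δ) * M) := by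
      have : t ≤ (1 + 5 * δ) * M := by linarith
      nlinarith
    have b2 : (1 + δ) * ((1 + 5 * δ) * M) ≤ (1 + δ) * ((1 + 5 * δ) * Z) := by gcongr
    have b3 : δ * δ ≤ δ * (1 / 16) := mul_le_mul_of_nonneg_left hδ1 hδ.le
    nlinarith [mul_le_mul_of_nonneg_right b3 hAy.le]

lemma last_ineq {ε δ a : ℝ} (hδ : δ = ε / 40) (hδ0 : 0 < δ) (ha : 0 < a) :
    (1 / 4 - ε) * a ≤ (1 - 2 * δ) / 4 * (1 - 5 * δ - 3 / 4 * ε - δ) * a - δ * a := by
  have e : ε = 40 * δ := by rw [hδ]; ring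
  rw [e]
  have h1 : (1 - 2 * δ) / 4 * (1 - 5 * δ - 3 / 4 * (40 * δ) - δ) * a - δ * a - (1 / 4 - 40 * δ) * a =
      (29.5 * δ + 18 * (δ * δ)) * a := by ring
  have h2 : 0 ≤ (29.5 * δ + 18 * (δ * δ)) * a := by positivity
  linarith

/-- everything from the weighted numbers in the windows -/
theorem all_of_SL (C : ℕ) (ε : ℝ) (hε : 0 < ε) (hε1 : ε ≤ 1 / 4) : ∃ (δ : ℝ) (K : ℕ), 0 < δ ∧ ∀ᶠ N : ℕ in atTop,
    ∀ A : Finset ℕ, A ⊆ Icc 1 N → (N : ℝ) ≤ (A.card : ℝ) * Real.log N ^ C →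
      ∀ b ∈ Icc 1 N, ∀ y : ℝ, Real.log N ^ K ≤ y → y ≤ N →
        |SL A b ⌊y⌋₊ - A.card * (⌊y⌋₊ : ℕ)| ≤ δ * (A.card * (⌊y⌋₊ : ℕ)) → Av ε A b y := by
  obtain ⟨δ, hδ⟩ : ∃ δ, δ = ε / 40 := ⟨_, rfl⟩
  have hδ0 : 0 < δ := by rw [hδ]; positivity
  have hδ1 : δ ≤ 1 / 160 := by rw [hδ]; linarith
  refine ⟨δ, C + 21, hδ0, ?_⟩
  filter_upwards [subsets δ hδ0 (by linarith), ev_L (1024 / δ + 4 + Real.log 3 / δ), ev_log (C + 2) (24 / δ ^ 2) (δ / 2) (by linarith),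
    ev_log (C + 1) (2 / δ) (3 / 4) (by norm_num), ev_log (C + 1) (2 / δ * (2 * √3 * 2)) (1 / 2) (by norm_num), eventually_ge_atTop 16] with
    N h2 h3 h4 h5 h6 hN16 A hA hAN b hb y hy1 hy2 hSL
  have hNr : (16 : ℝ) ≤ N := by exact_mod_cast hN16
  have hN0 : (0 : ℝ) < N := by linarith
  obtain ⟨ℓ, hℓ⟩ : ∃ ℓ, ℓ = Real.log (N : ℝ) := ⟨_, rfl⟩
  rw [← hℓ] at hAN hy1 h2 h3 h4 h5 h6
  have hd1 : 0 < 1024 / δ := by positivity
  have hd3 : 0 ≤ Real.log 3 / δ := by have := Real.log_nonneg (by norm_num : (1:ℝ) ≤ 3); positivity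
  have hℓ4 : 4 ≤ ℓ := by linarith
  have hℓ0 : 0 < ℓ := by linarith
  have hℓ1 : 1 ≤ ℓ := by linarith
  have hA0 : (0 : ℝ) < A.card := by
    by_contra hcon
    have : (A.card : ℝ) = 0 := le_antisymm (not_lt.1 hcon) (Nat.cast_nonneg _)
    rw [this, zero_mul] at hAN
    linarith
  have hAc : (N : ℝ) / ℓ ^ C ≤ A.card := by
    rw [div_le_iff₀ (by positivity)]; exact hAN
  have hyC : ℓ * ℓ ^ (C + 20) ≤ y := by
    rw [← pow_succ']
    exact hy1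
  have hp1 : 1 ≤ ℓ ^ (C + 20) := one_le_pow₀ hℓ1
  have hyl : ℓ ≤ y := by nlinarith
  have hy0 : 0 < y := by linarith
  have h1δ : 1 / δ ≤ y := by
    have : 1 / δ ≤ 1024 / δ := by apply div_le_div_of_nonneg_right _ hδ0.le; norm_num
    linarith
  obtain ⟨f, hf⟩ : ∃ f, f = ⌊y⌋₊ := ⟨_, rfl⟩
  have hfy : (f : ℝ) ≤ y := by rw [hf]; exact Nat.floor_le hy0.le
  have hf1 : (1 - δ) * y ≤ f := by
    have := Nat.lt_floor_add_one y
    rw [← hf] at this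
    rw [div_le_iff₀ hδ0] at h1δ
    linarith
  have hfN : f ≤ N := by
    have : (f : ℝ) ≤ N := hfy.trans hy2
    exact_mod_cast this
  have hfC : ℓ ^ (C + 20) ≤ f := by
    refine le_trans ?_ hf1
    have hl1 : 1 ≤ (1 - δ) * ℓ := by nlinarith
    calc ℓ ^ (C + 20) = 1 * ℓ ^ (C + 20) := (one_mul _).symm
      _ ≤ ((1 - δ) * ℓ) * ℓ ^ (C + 20) := mul_le_mul_of_nonneg_right hl1 (by linarith)
      _ = (1 - δ) * (ℓ * ℓ ^ (C + 20)) := by ring
      _ ≤ (1 - δ) * y := mul_le_mul_of_nonneg_left hyC (by linarith)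
  have hf1r : (1 : ℝ) ≤ f := hp1.trans hfC
  have hfn : 1 ≤ f := by exact_mod_cast hf1r
  have hf0 : (0 : ℝ) < f := by linarith
  have hb' := mem_Icc.1 hb
  -- the small elements
  obtain ⟨Q, hQ⟩ : ∃ Q : ℝ, Q = (N : ℝ) ^ (1 - δ) := ⟨_, rfl⟩
  have hQ0 : 0 < Q := by rw [hQ]; positivity
  have hlQ : Real.log Q = (1 - δ) * ℓ := by rw [hQ, Real.log_rpow hN0, hℓ]
  have hQC : Q * (24 / δ ^ 2 * ℓ ^ (C + 2)) ≤ N := by
    rw [hQ]
    calc (N : ℝ) ^ (1 - δ) * (24 / δ ^ 2 * ℓ ^ (C + 2)) ≤ (N : ℝ) ^ (1 - δ) * (N : ℝ) ^ (δ / 2) := by gcongr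
      _ ≤ (N : ℝ) ^ (1 - δ) * (N : ℝ) ^ δ := by
          apply mul_le_mul_of_nonneg_left _ (by positivity)
          exact Real.rpow_le_rpow_of_exponent_le (by linarith) (by linarith)
      _ = N := by rw [← Real.rpow_add hN0]; norm_num
  have hQℓ : Q * ℓ ≤ δ * A.card := by
    have e1 : Q * (24 / δ ^ 2 * ℓ ^ (C + 2)) = (Q * ℓ) * (24 / δ ^ 2) * ℓ * ℓ ^ C := by
      rw [pow_add]; ring
    rw [e1] at hQC
    have e2 : (Q * ℓ) * (24 / δ ^ 2) * ℓ ≤ A.card := by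
      refine le_trans ?_ hAc
      rw [le_div_iff₀ (by positivity)]
      exact hQC
    have e3 : 1 / δ ≤ 24 / δ ^ 2 * ℓ := by
      rw [div_mul_eq_mul_div, div_le_div_iff₀ hδ0 (by positivity)]
      nlinarith [mul_pos hδ0 hδ0]
    have e4 : (Q * ℓ) * (1 / δ) ≤ A.card := by
      calc (Q * ℓ) * (1 / δ) ≤ (Q * ℓ) * (24 / δ ^ 2 * ℓ) := mul_le_mul_of_nonneg_left e3 (by positivity)
        _ = (Q * ℓ) * (24 / δ ^ 2) * ℓ := by ring
        _ ≤ A.card := e2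
    rw [mul_one_div, div_le_iff₀ hδ0] at e4
    linarith
  -- the logarithms
  have hX : Real.log ((3 * N : ℕ) : ℝ) ≤ (1 + δ) * ℓ := by
    push_cast
    rw [Real.log_mul (by norm_num) hN0.ne', ← hℓ]
    have : Real.log 3 / δ ≤ ℓ := by linarith
    rw [div_le_iff₀ hδ0] at this
    linarith
  have hXs : 2 * √((3 * N : ℕ) : ℝ) * Real.log ((3 * N : ℕ) : ℝ) ≤ δ * A.card := by
    have e1 : √((3 * N : ℕ) : ℝ) = √3 * √(N : ℝ) := by
      push_cast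
      rw [Real.sqrt_mul (by norm_num)]
    rw [e1]
    have e2 : Real.log ((3 * N : ℕ) : ℝ) ≤ 2 * ℓ := by nlinarith
    have e3 : 2 / δ * (2 * √3 * 2) * ℓ ^ (C + 1) * √(N : ℝ) ≤ N := by
      have : √(N : ℝ) = (N : ℝ) ^ (1 / 2 : ℝ) := Real.sqrt_eq_rpow _
      rw [this]
      calc 2 / δ * (2 * √3 * 2) * ℓ ^ (C + 1) * (N : ℝ) ^ (1 / 2 : ℝ) ≤ (N : ℝ) ^ (1 / 2 : ℝ) * (N : ℝ) ^ (1 / 2 : ℝ) := by gcongr
        _ = N := by rw [← Real.rpow_add hN0]; norm_num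
    have e4 : 2 / δ * (2 * √3 * 2) * ℓ * √(N : ℝ) ≤ A.card := by
      refine le_trans ?_ hAc
      rw [le_div_iff₀ (by positivity)]
      refine le_trans (le_of_eq ?_) e3
      rw [pow_succ]; ring
    have e5 : 2 * (√3 * √(N : ℝ)) * Real.log ((3 * N : ℕ) : ℝ) ≤ 2 * (√3 * √(N : ℝ)) * (2 * ℓ) := by gcongr
    refine e5.trans ?_
    have e6 : 2 * (√3 * √(N : ℝ)) * (2 * ℓ) = δ * (1 / δ * (2 * √3 * 2) * ℓ * √(N : ℝ)) := by field_simp
    rw [e6]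
    apply mul_le_mul_of_nonneg_left _ hδ0.le
    refine le_trans ?_ e4
    have : 1 / δ ≤ 2 / δ := by apply div_le_div_of_nonneg_right _ hδ0.le; norm_num
    gcongr
  have g1 : |cs A b f * ℓ - A.card * f| ≤ 5 * δ * (A.card * f) := by
    rw [← hf] at hSL
    exact cs_of_SL (X := 3 * N) hA (by omega) (by omega) hℓ0 hδ0 (by linarith) hX hQ0 hlQ.ge hSL hXs hQℓ
  have hlX : ∀ a ∈ A, Real.log ((a + b : ℕ) : ℝ) ≤ (1 + δ) * ℓ := by
    intro a ha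
    have ha' := mem_Icc.1 (hA ha)
    refine le_trans (Real.log_le_log ?_ ?_) hX
    · exact_mod_cast (by omega : 0 < a + b)
    · exact_mod_cast (by omega : a + b ≤ 3 * N)
  constructor
  · have h7 := avg_of_cs hb'.1 hℓ0 hδ0 (by linarith) hlX hQ0 hlQ.ge hQℓ h1δ hA0 (by rw [← hf]; exact g1)
    refine h7.trans ?_
    rw [hδ]; linarith
  · have c1 : (3 * (N : ℝ) ^ (1 - δ) + (2 * N / f) * (2 * ℓ) ^ 16) * (4 * ℓ ^ 2 / δ ^ 2) ≤ A.card := by
      refine le_trans ?_ hAc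
      have a1 : 3 * (N : ℝ) ^ (1 - δ) * (4 * ℓ ^ 2 / δ ^ 2) ≤ (1 / 2) * (N / ℓ ^ C) := by
        have e1 : 3 * (N : ℝ) ^ (1 - δ) * (4 * ℓ ^ 2 / δ ^ 2) =
            (1 / 2) * (((N : ℝ) ^ (1 - δ) * (24 / δ ^ 2 * ℓ ^ (C + 2))) / ℓ ^ C) := by
          rw [pow_add]; field_simp; ring
        rw [e1]
        apply mul_le_mul_of_nonneg_left _ (by norm_num)
        apply div_le_div_of_nonneg_right _ (by positivity)
        rw [← hQ]
        exact hQC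
      have a2 : (2 * N / f) * (2 * ℓ) ^ 16 * (4 * ℓ ^ 2 / δ ^ 2) ≤ (1 / 2) * (N / ℓ ^ C) := by
        have e1 : (2 * N / f) * (2 * ℓ) ^ 16 * (4 * ℓ ^ 2 / δ ^ 2) =
            (1 / 2) * (N / ℓ ^ C) * ((1048576 / δ ^ 2) * ℓ ^ (C + 18) / f) := by
          rw [pow_add]; field_simp; ring
        rw [e1]
        have e2 : (1048576 / δ ^ 2) * ℓ ^ (C + 18) / f ≤ 1 := by
          rw [div_le_one hf0]
          refine le_trans ?_ hfC
          have e3 : ℓ ^ (C + 20) = ℓ ^ 2 * ℓ ^ (C + 18) := by rw [← pow_add]; congr 1; omega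
          rw [e3]
          apply mul_le_mul_of_nonneg_right _ (by positivity)
          have e4 : 1024 / δ ≤ ℓ := by linarith
          calc 1048576 / δ ^ 2 = (1024 / δ) ^ 2 := by field_simp; norm_num
            _ ≤ ℓ ^ 2 := pow_le_pow_left₀ hd1.le e4 2
        calc _ ≤ (1 / 2) * (N / ℓ ^ C) * 1 := mul_le_mul_of_nonneg_left e2 (by positivity)
          _ = _ := by ring
      calc _ = 3 * (N : ℝ) ^ (1 - δ) * (4 * ℓ ^ 2 / δ ^ 2) +
            (2 * N / f) * (2 * ℓ) ^ 16 * (4 * ℓ ^ 2 / δ ^ 2) := by ring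
        _ ≤ _ := by linarith
    have c2 : (N : ℝ) ^ (1 / 4 : ℝ) * (2 * ℓ / δ) ≤ A.card := by
      refine le_trans ?_ hAc
      rw [le_div_iff₀ (by positivity)]
      calc (N : ℝ) ^ (1 / 4 : ℝ) * (2 * ℓ / δ) * ℓ ^ C =
            (N : ℝ) ^ (1 / 4 : ℝ) * (2 / δ * ℓ ^ (C + 1)) := by
              have e1 : ℓ ^ (C + 1) = ℓ ^ C * ℓ := pow_succ ℓ C
              rw [e1]; ring
        _ ≤ (N : ℝ) ^ (1 / 4 : ℝ) * (N : ℝ) ^ (3 / 4 : ℝ) := by gcongr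
        _ = N := by rw [← Real.rpow_add hN0]; norm_num
    have g2 := h2 A (fun a ha => (mem_Icc.1 (hA ha)).2) b hb f hfn c1 c2
    rw [hℓ] at g2
    have hlow : (1 - 5 * δ) * ((A.card : ℝ) * f) ≤ cs A b f * Real.log N := by
      have := (abs_le.1 g1).1
      rw [← hℓ]
      linarith
    have g3 := many δ hδ0 (by linarith) (N := N) (3 / 4 * ε) (1 - 5 * δ) (by positivity) hfn g2 hlow
    have hsub : (GG A N b f (3 / 4 * ε)) ⊆ (A.filter fun a => ε / 2 ≤ RR (a + b) y) ∪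
        (A.filter (fun a : ℕ => ((a + b : ℕ) : ℝ) < Q)) := by
      intro a ha
      unfold GG at ha
      rw [mem_filter, ← hℓ] at ha
      rw [mem_union, mem_filter, mem_filter]
      by_cases hq : ((a + b : ℕ) : ℝ) < Q
      · exact Or.inr ⟨ha.1, hq⟩
      · left
        refine ⟨ha.1, ?_⟩
        rw [RR_eq _ _ hy0, ← hf, le_div_iff₀ hy0]
        have h7 : (1 - δ) * ℓ ≤ Real.log ((a + b : ℕ) : ℝ) := by
          rw [← hlQ]
          exact Real.log_le_log hQ0 (by linarith)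
        have hpn : (0 : ℝ) ≤ pn (a + b) f := Nat.cast_nonneg _
        calc ε / 2 * y ≤ (1 - δ) * ((3 / 4 * ε) * ((1 - δ) * y)) := by
              have : (2 : ℝ) / 3 ≤ (1 - δ) * (1 - δ) := by nlinarith
              have h9 : 0 ≤ ε * y := by positivity
              nlinarith [mul_le_mul_of_nonneg_left this h9]
          _ ≤ (1 - δ) * ((3 / 4 * ε) * f) := by
              apply mul_le_mul_of_nonneg_left _ (by linarith)
              exact mul_le_mul_of_nonneg_left hf1 (by positivity)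
          _ ≤ (1 - δ) * ((pn (a + b) f : ℝ) * ℓ) := mul_le_mul_of_nonneg_left ha.2 (by linarith)
          _ = (pn (a + b) f : ℝ) * ((1 - δ) * ℓ) := by ring
          _ ≤ _ := mul_le_mul_of_nonneg_left h7 hpn
    have hcard := (card_le_card hsub).trans (card_union_le _ _)
    have hcardr : ((GG A N b f (3 / 4 * ε)).card : ℝ) ≤ ((A.filter fun a => ε / 2 ≤ RR (a + b) y).card : ℝ) +
        ((A.filter (fun a : ℕ => ((a + b : ℕ) : ℝ) < Q)).card : ℝ) := by exact_mod_cast hcard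
    have hQs : ((A.filter (fun a : ℕ => ((a + b : ℕ) : ℝ) < Q)).card : ℝ) ≤ δ * A.card := by
      refine (small_card A b hb'.1 Q hQ0).trans (le_trans ?_ hQℓ)
      nlinarith
    have : (1 / 4 - ε) * (A.card : ℝ) ≤ (1 - 2 * δ) / 4 * (1 - 5 * δ - 3 / 4 * ε - δ) * A.card - δ * A.card := by
      exact last_ineq hδ hδ0 hA0
    linarith

end Pool.Agent.H85G
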