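import Pool.Agent.H85G.R2

/-!
Primes in short intervals to the right of the points of the translates of a set by random integers with distributions of good
classes.
-/

set_option autoImplicit false
set_option maxHeartbeats 1000000

namespace Pool.Agent.H85G

open Finset Filter
open Pool.Agent.N625.DY (Kc cls_one)
open Pool.Agent.N469.PT (OneLaw)
open Pool.Agent.H373R2.T7 (lamI lamzI lamz)

/-- the dyadic means of the deviations -/
noncomputable def TT (A : Finset ℕ) (N z b J : ℕ) : ℝ :=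
  ∑ j ∈ range J, (1 / (2 : ℝ) ^ j) * ∑ h ∈ Icc 1 (2 ^ j), Fd A N z b h

lemma TT_nn (A : Finset ℕ) (N z b J : ℕ) : 0 ≤ TT A N z b J := by
  unfold TT
  exact sum_nonneg fun j _ => mul_nonneg (by positivity) (sum_nonneg fun h _ => Fd_nn _ _ _ _ _)

lemma sum_le_TT {A : Finset ℕ} {N z b J y : ℕ} (hy : 1 ≤ y) (hJ : Nat.clog 2 y < J) :
    ∑ h ∈ Icc 1 y, Fd A N z b h ≤ 2 * y * TT A N z b J := by
  obtain ⟨j, hj⟩ : ∃ j, j = Nat.clog 2 y := ⟨_, rfl⟩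
  rw [← hj] at hJ
  have h1 : y ≤ 2 ^ j := by rw [hj]; exact Nat.le_pow_clog (by norm_num) y
  have h2 : 2 ^ j ≤ 2 * y := by
    rcases Nat.eq_zero_or_pos j with h0 | h0
    · rw [h0, pow_zero]; omega
    · have h3 : 2 ^ (j - 1) < y := by
        apply Nat.pow_lt_of_lt_clog
        omega
      have h4 : 2 ^ j = 2 * 2 ^ (j - 1) := by
        rw [← pow_succ', Nat.sub_add_cancel h0]
      omega
  have h3 : (1 / (2 : ℝ) ^ j) * ∑ h ∈ Icc 1 (2 ^ j), Fd A N z b h ≤ TT A N z b J := by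
    unfold TT
    exact single_le_sum (f := fun j => (1 / (2 : ℝ) ^ j) * ∑ h ∈ Icc 1 (2 ^ j), Fd A N z b h)
      (fun i _ => mul_nonneg (by positivity) (sum_nonneg fun h _ => Fd_nn _ _ _ _ _)) (mem_range.2 hJ)
  have h4 : ∑ h ∈ Icc 1 y, Fd A N z b h ≤ ∑ h ∈ Icc 1 (2 ^ j), Fd A N z b h :=
    sum_le_sum_of_subset_of_nonneg (Icc_subset_Icc_right h1) fun h _ _ => Fd_nn _ _ _ _ _
  have h5 : ∑ h ∈ Icc 1 (2 ^ j), Fd A N z b h ≤ (2 : ℝ) ^ j * TT A N z b J := by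
    have h6 : (0 : ℝ) < 2 ^ j := by positivity
    calc ∑ h ∈ Icc 1 (2 ^ j), Fd A N z b h = (2 : ℝ) ^ j * ((1 / (2 : ℝ) ^ j) * ∑ h ∈ Icc 1 (2 ^ j), Fd A N z b h) := by
          field_simp
      _ ≤ _ := mul_le_mul_of_nonneg_left h3 h6.le
  refine h4.trans (h5.trans ?_)
  apply mul_le_mul_of_nonneg_right _ (TT_nn _ _ _ _ _)
  exact_mod_cast h2

lemma TT_mean {Ω : Finset ℕ} {p : ℕ → ℝ} {A : Finset ℕ} {N z c κ J : ℕ} {M : ℝ}
    (hm : ∀ h, h ≤ 2 ^ (J - 1) → ∑ v ∈ Ω, p v * Fd A N z (c + κ * v) h ≤ M) :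
    ∑ v ∈ Ω, p v * TT A N z (c + κ * v) J ≤ J * M := by
  have e : ∑ v ∈ Ω, p v * TT A N z (c + κ * v) J =
      ∑ j ∈ range J, (1 / (2 : ℝ) ^ j) * ∑ h ∈ Icc 1 (2 ^ j), ∑ v ∈ Ω, p v * Fd A N z (c + κ * v) h := by
    unfold TT
    simp_rw [mul_sum]
    rw [sum_comm]
    apply sum_congr rfl
    intro j _
    rw [sum_comm]
    apply sum_congr rfl
    intro h _
    apply sum_congr rfl
    intro v _
    ring
  rw [e]
  calc ∑ j ∈ range J, (1 / (2 : ℝ) ^ j) * ∑ h ∈ Icc 1 (2 ^ j), ∑ v ∈ Ω, p v * Fd A N z (c + κ * v) h ≤ ∑ _j ∈ range J, M := by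
        apply sum_le_sum
        intro j hj
        rw [mem_range] at hj
        have h1 : ∑ h ∈ Icc 1 (2 ^ j), ∑ v ∈ Ω, p v * Fd A N z (c + κ * v) h ≤ (2 : ℝ) ^ j * M := by
          calc _ ≤ ∑ _h ∈ Icc 1 (2 ^ j), M := by
                apply sum_le_sum
                intro h hh
                rw [mem_Icc] at hh
                exact hm h (hh.2.trans (Nat.pow_le_pow_right (by norm_num) (by omega)))
            _ = (2 : ℝ) ^ j * M := by
                rw [sum_const, Nat.card_Icc, Nat.add_sub_cancel, nsmul_eq_mul]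
                push_cast
                ring
        calc (1 / (2 : ℝ) ^ j) * ∑ h ∈ Icc 1 (2 ^ j), ∑ v ∈ Ω, p v * Fd A N z (c + κ * v) h ≤ (1 / (2 : ℝ) ^ j) * ((2 : ℝ) ^ j * M) :=
              mul_le_mul_of_nonneg_left h1 (by positivity)
          _ = M := by field_simp
    _ = J * M := by rw [sum_const, card_range, nsmul_eq_mul]

lemma ev_L' (c : ℝ) : ∀ᶠ N : ℕ in atTop, c ≤ Real.log N := Pool.Agent.W301.SS.ev_L c

lemma hlogpow (W : ℕ) : ∀ᶠ N : ℕ in atTop, Real.log N ^ W ≤ N := by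
  have f1 := (Real.isLittleO_pow_log_id_atTop (n := W)).bound (one_pos)
  have e1 : ∀ᶠ x : ℝ in atTop, Real.log x ^ W ≤ x := by
    filter_upwards [f1, eventually_ge_atTop (0 : ℝ)] with x hx1 hx3
    rw [one_mul] at hx1
    simp only [id] at hx1
    rw [Real.norm_of_nonneg hx3] at hx1
    exact (le_abs_self _).trans hx1
  exact tendsto_natCast_atTop_atTop.eventually e1

open Classical in
/-- one scale -/
theorem trans_one (L : ℕ → Finset ℕ → (ℕ → ℝ) → Prop) (κ U W D : ℕ) (hL : OneLaw L κ 4 (U + W + D + 4)) (ε : ℝ) (hε : 0 < ε)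
    (hε1 : ε ≤ 1 / 4) : ∃ K : ℕ, ∀ᶠ N : ℕ in atTop, ∀ (Ω : Finset ℕ) (p : ℕ → ℝ), L N Ω p → ∀ c : ℕ, c ≤ N →
      ∀ T : ℕ, (T : ℝ) ≤ Real.log N ^ W → (∀ v ∈ Ω, c + κ * v + T ≤ N) →
      ∀ A : Finset ℕ, A ⊆ Icc 1 N → (N : ℝ) ≤ (A.card : ℝ) * Real.log N ^ D →
      ∑ v ∈ Ω, (if ∀ t ∈ Icc 1 T, ∀ y : ℝ, Real.log N ^ K ≤ y → y ≤ N → Av ε A (c + κ * v + t) y then 0 else p v) ≤
        1 / Real.log N ^ U := by
  obtain ⟨δ, K1, hδ0, hev1⟩ := all_of_SL D ε hε hε1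
  obtain ⟨K2, y0, hK2, hy0, hr⟩ := rough_int (δ / 4) (by positivity)
  obtain ⟨A0, B0, hone⟩ := hL
  obtain ⟨N₀, hN₀⟩ := hone (B0 + 1)
  refine ⟨K1 + (B0 + 1) * K2 + 1, ?_⟩
  filter_upwards [hev1, ev_L' (64 / δ + y0 + 8), eventually_ge_atTop (N₀ + 16), hlogpow W, hlogpow 1] with
    N h1 h2 h3 h4 h5 Ω p hLN c hc T hT hcT A hA hAN
  obtain ⟨ℓ, hℓ⟩ : ∃ ℓ, ℓ = Real.log (N : ℝ) := ⟨_, rfl⟩
  rw [← hℓ] at h2 h4 h5 hT hAN
  have hNr : (16 : ℝ) ≤ N := by exact_mod_cast (by omega : 16 ≤ N)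
  have hd : 0 < 64 / δ := by positivity
  have hy0r : (1 : ℝ) ≤ y0 := by exact_mod_cast hy0
  have hℓ8 : 8 ≤ ℓ := by linarith
  have hℓ0 : 0 < ℓ := by linarith
  have hℓ1 : 1 ≤ ℓ := by linarith
  -- the level
  obtain ⟨z, hz⟩ : ∃ z, z = ⌊ℓ ^ (B0 + 1)⌋₊ := ⟨_, rfl⟩
  have hzle : (z : ℝ) ≤ ℓ ^ (B0 + 1) := by rw [hz]; exact Nat.floor_le (by positivity)
  have hzge : ℓ ^ B0 * (ℓ - 1) ≤ z := by
    have := Nat.lt_floor_add_one (ℓ ^ (B0 + 1))
    rw [← hz] at this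
    have h6 : 1 ≤ ℓ ^ B0 := one_le_pow₀ hℓ1
    have h7 : ℓ ^ (B0 + 1) = ℓ ^ B0 * ℓ := pow_succ _ _
    nlinarith
  have hp0 : 1 ≤ ℓ ^ B0 := one_le_pow₀ hℓ1
  have hz0 : ℓ ^ B0 ≤ z := by nlinarith
  have hzy : y0 ≤ z := by
    have : (y0 : ℝ) ≤ z := by nlinarith
    exact_mod_cast this
  have hTN : T ≤ N := by
    have : (T : ℝ) ≤ N := hT.trans h4
    exact_mod_cast this
  have hAc0 : (0 : ℝ) < A.card := by
    by_contra hcon
    have : (A.card : ℝ) = 0 := le_antisymm (not_lt.1 hcon) (Nat.cast_nonneg _)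
    rw [this, zero_mul] at hAN
    linarith
  -- the scales
  obtain ⟨J, hJ⟩ : ∃ J, J = Nat.log 2 N + 2 := ⟨_, rfl⟩
  have h2J : 2 ^ (J - 1) ≤ 2 * N := by
    have e : J - 1 = Nat.log 2 N + 1 := by omega
    rw [e, pow_succ]
    have := Nat.pow_log_le_self 2 (by omega : N ≠ 0)
    omega
  have hJr : (J : ℝ) ≤ 2 * ℓ + 2 := by
    have e1 : ((Nat.log 2 N : ℕ) : ℝ) * Real.log 2 ≤ ℓ := by
      rw [hℓ, ← Real.log_pow]
      apply Real.log_le_log (by positivity)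
      exact_mod_cast Nat.pow_log_le_self 2 (by omega : N ≠ 0)
    have e2 := Real.log_two_gt_d9
    have e3 : (0 : ℝ) ≤ (Nat.log 2 N : ℕ) := Nat.cast_nonneg _
    rw [hJ]
    push_cast
    nlinarith
  -- the means
  obtain ⟨V, hV⟩ : ∃ V, V = U + W + D + 4 := ⟨_, rfl⟩
  have hmean : ∀ t ∈ Icc 1 T, ∀ h, h ≤ 2 ^ (J - 1) → ∑ v ∈ Ω, p v * Fd A N z (c + t + κ * v) h ≤ N / ℓ ^ V := by
    intro t ht h hh
    rw [mem_Icc] at ht
    have h6 := hN₀ N (by omega) Ω p hLN (c + t + h) (by omega)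
    have h7 := h6.2.2.2.2 z (by rw [← hℓ]; exact hz0) (by rw [← hℓ]; exact hzle) 1 one_pos
      (fun n => if n ∈ A then (1 : ℝ) else 0) (by
        intro n _
        try simp only
        split_ifs <;> simp)
    rw [one_mul, ← hℓ, ← hV] at h7
    refine le_trans (le_of_eq ?_) h7
    apply sum_congr rfl
    intro v _
    unfold Fd
    have e : c + t + κ * v + h = c + t + h + κ * v := by ring
    rw [e]
  obtain ⟨hp1, hp2, -, -, -⟩ := hN₀ N (by omega) Ω p hLN c (by omega)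
  -- the exceptional probability
  obtain ⟨G, hG⟩ : ∃ G : ℕ → ℝ, ∀ v, G v = ∑ t ∈ Icc 1 T, TT A N z (c + t + κ * v) J := ⟨_, fun _ => rfl⟩
  have hGsum : ∑ v ∈ Ω, p v * G v ≤ T * (J * (N / ℓ ^ V)) := by
    have e : ∑ v ∈ Ω, p v * G v = ∑ t ∈ Icc 1 T, ∑ v ∈ Ω, p v * TT A N z (c + t + κ * v) J := by
      rw [sum_comm]
      apply sum_congr rfl
      intro v _
      rw [hG, mul_sum]
    rw [e]
    calc _ ≤ ∑ _t ∈ Icc 1 T, (J : ℝ) * (N / ℓ ^ V) := sum_le_sum fun t ht => TT_mean (hmean t ht)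
      _ = _ := by rw [sum_const, Nat.card_Icc, Nat.add_sub_cancel, nsmul_eq_mul]
  have hGnn : ∀ v, 0 ≤ G v := fun v => by
    rw [hG]
    exact sum_nonneg fun t _ => TT_nn _ _ _ _ _
  have hgood : ∀ v ∈ Ω, G v ≤ δ / 8 * A.card → ∀ t ∈ Icc 1 T, ∀ y : ℝ, ℓ ^ (K1 + (B0 + 1) * K2 + 1) ≤ y → y ≤ N →
      Av ε A (c + κ * v + t) y := by
    intro v hv hGv t ht y hy1 hy2
    have ht' := mem_Icc.1 ht
    have hct := hcT v hv
    have hy1' : ℓ ^ K1 ≤ y := (pow_le_pow_right₀ hℓ1 (by omega)).trans hy1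
    have hy2' : ℓ ^ ((B0 + 1) * K2) * ℓ ≤ y := by
      rw [← pow_succ]
      exact (pow_le_pow_right₀ hℓ1 (by omega)).trans hy1
    have hpz : 1 ≤ ℓ ^ ((B0 + 1) * K2) := one_le_pow₀ hℓ1
    have hyl : ℓ ≤ y := by nlinarith
    have hy0' : 0 < y := by linarith
    have hf1 : y - 1 ≤ (⌊y⌋₊ : ℝ) := by
      have := Nat.lt_floor_add_one y
      linarith
    have hfz : z ^ K2 ≤ ⌊y⌋₊ := by
      have e1 : ((z ^ K2 : ℕ) : ℝ) ≤ ℓ ^ ((B0 + 1) * K2) := by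
        push_cast
        calc (z : ℝ) ^ K2 ≤ (ℓ ^ (B0 + 1)) ^ K2 := pow_le_pow_left₀ (Nat.cast_nonneg _) hzle _
          _ = _ := (pow_mul _ _ _).symm
      have e2 : ((z ^ K2 : ℕ) : ℝ) ≤ (⌊y⌋₊ : ℝ) := by nlinarith
      exact_mod_cast e2
    have hfN : ⌊y⌋₊ ≤ N := by
      have : (⌊y⌋₊ : ℝ) ≤ N := (Nat.floor_le hy0'.le).trans hy2
      exact_mod_cast this
    have hfpos : 1 ≤ ⌊y⌋₊ := by
      have : (1 : ℝ) ≤ ⌊y⌋₊ := by linarith
      exact_mod_cast this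
    have hcl : Nat.clog 2 ⌊y⌋₊ < J := by
      have e1 : Nat.clog 2 ⌊y⌋₊ ≤ Nat.log 2 N + 1 := by
        apply Nat.clog_le_of_le_pow
        have := Nat.lt_pow_succ_log_self (by norm_num : 1 < 2) N
        exact hfN.trans this.le
      omega
    have hTT : TT A N z (c + t + κ * v) J ≤ G v := by
      rw [hG]
      exact single_le_sum (f := fun t => TT A N z (c + t + κ * v) J) (fun i _ => TT_nn _ _ _ _ _) ht
    have e : c + κ * v + t = c + t + κ * v := by ring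
    rw [e]
    have hsum : ∑ h ∈ Icc 1 ⌊y⌋₊, Fd A N z (c + t + κ * v) h ≤ δ / 4 * (A.card * (⌊y⌋₊ : ℕ)) := by
      refine (sum_le_TT hfpos hcl).trans ?_
      calc 2 * (⌊y⌋₊ : ℝ) * TT A N z (c + t + κ * v) J ≤ 2 * (⌊y⌋₊ : ℝ) * (δ / 8 * A.card) := by
            apply mul_le_mul_of_nonneg_left (hTT.trans hGv) (by positivity)
        _ = _ := by ring
    have hSL := SL_close hA (fun n => hr z hzy ⌊y⌋₊ hfz n) hsum
    refine h1 A hA (by rw [← hℓ]; exact hAN) (c + t + κ * v) (mem_Icc.2 ⟨by omega, by omega⟩) y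
      (by rw [← hℓ]; exact hy1') hy2 (hSL.trans ?_)
    apply mul_le_mul_of_nonneg_right _ (by positivity)
    linarith
  -- Markov
  have hpt : ∀ v ∈ Ω, (if ∀ t ∈ Icc 1 T, ∀ y : ℝ, ℓ ^ (K1 + (B0 + 1) * K2 + 1) ≤ y → y ≤ N →
      Av ε A (c + κ * v + t) y then 0 else p v) ≤ 8 / (δ * A.card) * (p v * G v) := by
    intro v hv
    split_ifs with hcon
    · exact mul_nonneg (by positivity) (mul_nonneg (hp1 v hv) (hGnn v))
    · have hlt : δ / 8 * A.card ≤ G v := by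
        by_contra hlt
        exact hcon (hgood v hv (not_le.1 hlt).le)
      have e : 8 / (δ * A.card) * (p v * G v) = p v * (G v / (δ / 8 * A.card)) := by
        field_simp
      rw [e]
      have : 1 ≤ G v / (δ / 8 * A.card) := by
        rw [le_div_iff₀ (by positivity), one_mul]
        exact hlt
      calc p v = p v * 1 := (mul_one _).symm
        _ ≤ _ := mul_le_mul_of_nonneg_left this (hp1 v hv)
  rw [← hℓ]
  refine (sum_le_sum hpt).trans ?_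
  rw [← mul_sum]
  have hAN' : (N : ℝ) / A.card ≤ ℓ ^ D := by
    rw [div_le_iff₀ hAc0]
    linarith
  calc 8 / (δ * A.card) * ∑ v ∈ Ω, p v * G v ≤ 8 / (δ * A.card) * (T * (J * (N / ℓ ^ V))) :=
        mul_le_mul_of_nonneg_left hGsum (by positivity)
    _ = (8 / δ) * (T * (J * ((N / A.card) / ℓ ^ V))) := by field_simp
    _ ≤ (8 / δ) * (ℓ ^ W * ((4 * ℓ) * (ℓ ^ D / ℓ ^ V))) := by
        have : (J : ℝ) ≤ 4 * ℓ := by linarith
        gcongr
    _ = (32 / δ / ℓ) * (ℓ ^ (W + D + 2) / ℓ ^ V) := by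
        field_simp
        ring
    _ ≤ 1 * (ℓ ^ (W + D + 2) / ℓ ^ V) := by
        apply mul_le_mul_of_nonneg_right _ (by positivity)
        rw [div_le_one hℓ0]
        have : 32 / δ ≤ 64 / δ := by apply div_le_div_of_nonneg_right _ hδ0.le; norm_num
        linarith
    _ ≤ 1 / ℓ ^ U := by
        rw [one_mul, div_le_div_iff₀ (by positivity) (by positivity), one_mul, ← pow_add]
        exact pow_le_pow_right₀ hℓ1 (by omega)

end Pool.Agent.H85G
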