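import Pool.Agent.H85G.R3

/-!
Primes in short intervals to the right of the points of the translates of a set by random integers with distributions of good
classes: the final form.
-/

set_option autoImplicit false
set_option maxHeartbeats 1000000

namespace Pool.Agent.H85G

open Finset Filter
open Pool.Agent.N625.DY (Kc cls_one)
open Pool.Agent.N469.PT (OneLaw)

lemma Av_mono {ε ε' : ℝ} (h : ε ≤ ε') {A : Finset ℕ} {b : ℕ} {y : ℝ} (hA : Av ε A b y) :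
    |(∑ a ∈ A, RR (a + b) y) / A.card - 1| ≤ ε' := hA.1.trans h

open Classical in
/-- all the integers nearby and all the lengths -/
theorem good_translates (b : ℕ) (hb : 2 ≤ b) (C : ℕ → (ℕ → ℝ) → Prop) (hC : Good b C) (κ : ℕ) (hκ : 1 ≤ κ) (B U W D : ℕ)
    (hB : 1 ≤ B) (ε : ℝ) (hε : 0 < ε) (hε1 : ε ≤ 1 / 4) : ∃ K k₀ : ℕ, ∀ k : ℕ, k₀ ≤ k → ∀ p : ℕ → ℝ, C k p →
      ∀ c : ℕ, c ≤ B * b ^ k → ∀ A : Finset ℕ, A ⊆ Icc 1 (B * b ^ k) → (b : ℝ) ^ k ≤ A.card * (k : ℝ) ^ D →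
      ∑ v ∈ range (b ^ k), (if ∀ t ∈ Icc 1 (k ^ W), ∀ y : ℝ, (k : ℝ) ^ K ≤ y → y ≤ B * (b : ℝ) ^ k →
        Av ε A (c + κ * v + t) y then 0 else p v) ≤ 1 / (k : ℝ) ^ U := by
  obtain ⟨B', hB'⟩ : ∃ B', B' = B + κ + 1 := ⟨_, rfl⟩
  obtain ⟨K, hK⟩ := trans_one (Kc b B' C) κ (U + 1) (W + 1) (D + 1)
    (cls_one κ (good_cls hb hC (κ : ℤ) (by exact_mod_cast (by omega : κ ≠ 0))) B' 4 _) ε hε hε1
  have hbr : (2 : ℝ) ≤ b := by exact_mod_cast hb
  have hlb : 1 / 2 ≤ Real.log b := by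
    have := Real.log_two_gt_d9
    have := Real.log_le_log (by norm_num) hbr
    linarith
  obtain ⟨T, hT⟩ : ∃ T : ℕ, T = ⌈Real.log b + Real.log B'⌉₊ + 1 := ⟨_, rfl⟩
  have hB'1 : (1 : ℝ) ≤ B' := by exact_mod_cast (by omega : 1 ≤ B')
  have hlB' : 0 ≤ Real.log (B' : ℝ) := Real.log_nonneg hB'1
  have hTr : Real.log b + Real.log B' ≤ T := by
    rw [hT]
    push_cast
    have := Nat.le_ceil (Real.log b + Real.log B')
    linarith
  have hpe : ∀ᶠ k : ℕ in atTop, k ^ W ≤ b ^ k := by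
    have e1 := tendsto_pow_const_div_const_pow_of_one_lt W (by linarith : (1 : ℝ) < b)
    have e2 := e1.eventually (gt_mem_nhds (by norm_num : (0 : ℝ) < 1))
    filter_upwards [e2] with k hk
    rw [div_lt_one (by positivity)] at hk
    exact_mod_cast hk.le
  have hN : Tendsto (fun k : ℕ => B' * b ^ k) atTop atTop := by
    apply tendsto_atTop_mono (f := fun k : ℕ => k)
    · intro k
      have h1 : k < 2 ^ k := Nat.lt_two_pow_self
      have h2 : 2 ^ k ≤ b ^ k := Nat.pow_le_pow_left hb k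
      have h3 : b ^ k ≤ B' * b ^ k := Nat.le_mul_of_pos_left _ (by omega)
      exact (h1.le.trans h2).trans h3
    · exact tendsto_id
  obtain ⟨k₁, hk₁⟩ := eventually_atTop.mp ((hN.eventually hK).and hpe)
  obtain ⟨m1, hm1⟩ : ∃ m, m = T ^ K := ⟨_, rfl⟩
  obtain ⟨m2, hm2⟩ : ∃ m, m = B' * 2 ^ (D + 1) := ⟨_, rfl⟩
  obtain ⟨m3, hm3⟩ : ∃ m, m = 2 ^ (U + 1) := ⟨_, rfl⟩
  obtain ⟨m4, hm4⟩ : ∃ m, m = 2 ^ (W + 1) := ⟨_, rfl⟩
  refine ⟨K + 1, k₁ + m1 + m2 + m3 + m4 + 4, fun k hk p hp c hc A hA hAk => ?_⟩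
  have hk1' : T ^ K ≤ k := by rw [← hm1]; omega
  have hk2' : B' * 2 ^ (D + 1) ≤ k := by rw [← hm2]; omega
  have hk3' : 2 ^ (U + 1) ≤ k := by rw [← hm3]; omega
  have hk4' : 2 ^ (W + 1) ≤ k := by rw [← hm4]; omega
  obtain ⟨g1, g2⟩ := hk₁ k (by omega)
  obtain ⟨N, hNd⟩ : ∃ N, N = B' * b ^ k := ⟨_, rfl⟩
  rw [← hNd] at g1
  have hkr : (4 : ℝ) ≤ k := by exact_mod_cast (by omega : 4 ≤ k)
  have hk0 : (0 : ℝ) < k := by linarith
  have hk1 : (1 : ℝ) ≤ k := by linarith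
  obtain ⟨ℓ, hℓ⟩ : ∃ ℓ, ℓ = Real.log (N : ℝ) := ⟨_, rfl⟩
  rw [← hℓ] at g1
  have hbk0 : (0 : ℝ) < (b : ℝ) ^ k := by positivity
  have hbk : 1 ≤ b ^ k := Nat.one_le_pow _ _ (by omega)
  have hℓe : ℓ = Real.log B' + k * Real.log b := by
    rw [hℓ, hNd]
    push_cast
    rw [Real.log_mul (by positivity) (by positivity), Real.log_pow]
  have hℓlo : (k : ℝ) / 2 ≤ ℓ := by
    rw [hℓe]
    nlinarith
  have hℓhi : ℓ ≤ T * k := by
    rw [hℓe]
    nlinarith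
  have hℓ0 : 0 < ℓ := by linarith
  have hWℓ : ((k ^ W : ℕ) : ℝ) ≤ ℓ ^ (W + 1) := by
    push_cast
    have h1 : (k : ℝ) ^ W * 2 ^ (W + 1) ≤ (k : ℝ) ^ (W + 1) := by
      rw [pow_succ (k : ℝ) W]
      apply mul_le_mul_of_nonneg_left _ (by positivity)
      exact_mod_cast hk4'
    calc (k : ℝ) ^ W ≤ ((k : ℝ) / 2) ^ (W + 1) := by
          rw [div_pow, le_div_iff₀ (by positivity)]
          exact h1
      _ ≤ ℓ ^ (W + 1) := pow_le_pow_left₀ (by positivity) hℓlo _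
  have hBN : B * b ^ k ≤ N := by
    rw [hNd]
    exact Nat.mul_le_mul_right _ (by omega)
  have hcv : ∀ v ∈ range (b ^ k), c + κ * v + k ^ W ≤ N := by
    intro v hv
    rw [mem_range] at hv
    rw [hNd, hB', add_mul, add_mul, one_mul]
    have h1 : κ * v ≤ κ * b ^ k := Nat.mul_le_mul_left _ hv.le
    omega
  have hAN : (N : ℝ) ≤ (A.card : ℝ) * ℓ ^ (D + 1) := by
    have h1 : (B' : ℝ) * (k : ℝ) ^ D ≤ ℓ ^ (D + 1) := by
      calc (B' : ℝ) * (k : ℝ) ^ D ≤ ((k : ℝ) / 2) ^ (D + 1) := by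
            rw [div_pow, le_div_iff₀ (by positivity), pow_succ (k : ℝ) D]
            have h2 : (B' : ℝ) * 2 ^ (D + 1) ≤ k := by exact_mod_cast hk2'
            calc (B' : ℝ) * (k : ℝ) ^ D * 2 ^ (D + 1) = (k : ℝ) ^ D * ((B' : ℝ) * 2 ^ (D + 1)) := by ring
              _ ≤ _ := mul_le_mul_of_nonneg_left h2 (by positivity)
        _ ≤ ℓ ^ (D + 1) := pow_le_pow_left₀ (by positivity) hℓlo _
    calc (N : ℝ) = B' * (b : ℝ) ^ k := by rw [hNd]; push_cast; ring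
      _ ≤ B' * (A.card * (k : ℝ) ^ D) := mul_le_mul_of_nonneg_left hAk (by positivity)
      _ = A.card * (B' * (k : ℝ) ^ D) := by ring
      _ ≤ _ := mul_le_mul_of_nonneg_left h1 (Nat.cast_nonneg _)
  have hfin := g1 (range (b ^ k)) p ⟨k, by
      rw [hNd]
      calc b ^ k = 1 * b ^ k := (one_mul _).symm
        _ ≤ B' * b ^ k := Nat.mul_le_mul_right _ (by omega)
        _ ≤ B' * (B' * b ^ k) := Nat.le_mul_of_pos_left _ (by omega), by rw [hNd], hp, rfl⟩ c (hc.trans hBN) (k ^ W) hWℓ hcv A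
      (hA.trans (Icc_subset_Icc_right hBN)) hAN
  have hKk : ℓ ^ K ≤ (k : ℝ) ^ (K + 1) := by
    calc ℓ ^ K ≤ (T * k : ℝ) ^ K := pow_le_pow_left₀ hℓ0.le hℓhi _
      _ = (T : ℝ) ^ K * (k : ℝ) ^ K := mul_pow _ _ _
      _ ≤ k * (k : ℝ) ^ K := by
          apply mul_le_mul_of_nonneg_right _ (by positivity)
          exact_mod_cast hk1'
      _ = _ := by rw [pow_succ]; ring
  have hp0 := hC.nonneg k p hp
  have hfin2 : 1 / ℓ ^ (U + 1) ≤ 1 / (k : ℝ) ^ U := by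
    apply one_div_le_one_div_of_le (by positivity)
    calc (k : ℝ) ^ U ≤ ((k : ℝ) / 2) ^ (U + 1) := by
          rw [div_pow, le_div_iff₀ (by positivity), pow_succ (k : ℝ) U]
          apply mul_le_mul_of_nonneg_left _ (by positivity)
          exact_mod_cast hk3'
      _ ≤ ℓ ^ (U + 1) := pow_le_pow_left₀ (by positivity) hℓlo _
  refine le_trans (sum_le_sum fun v _ => ?_) (hfin.trans hfin2)
  by_cases h : ∀ t ∈ Icc 1 (k ^ W), ∀ y : ℝ, ℓ ^ K ≤ y → y ≤ N → Av ε A (c + κ * v + t) y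
  · rw [if_pos h, if_pos]
    intro t ht y hy1 hy2
    refine h t ht y (hKk.trans hy1) (hy2.trans ?_)
    exact_mod_cast hBN
  · rw [if_neg h]
    split_ifs
    · exact hp0 v
    · exact le_rfl

end Pool.Agent.H85G
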