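import Pool.Agent.H85G.R3
import Pool.Agent.N384.MQ.Main

/-!
Primes in short intervals to the right of the points of the translates of a set by the members of a family of residues with
small Fourier coefficients.
-/

set_option autoImplicit false
set_option maxHeartbeats 1000000

namespace Pool.Agent.H85G

open Finset Filter
open Pool.Agent.N625.DY (Kc cls_one Cls ClsV)
open Pool.Agent.N469.PT (OneLaw)
open Pool.Agent.N384.MQ (Flat dis dis_MC count_dis scaleq MC MC_mono clsV_of ev_log_ge)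

open Classical in
/-- all the integers nearby and all the lengths -/
theorem cls_translates (b : ℕ) (hb : 2 ≤ b) (C : ℕ → (ℕ → ℝ) → Prop) (κ : ℕ) (hC : Cls b (κ : ℤ) C) (B U W D : ℕ)
    (hB : 1 ≤ B) (ε : ℝ) (hε : 0 < ε) (hε1 : ε ≤ 1 / 4) : ∃ K k₀ : ℕ, ∀ k : ℕ, k₀ ≤ k → ∀ p : ℕ → ℝ, C k p →
      ∀ c : ℕ, c ≤ B * b ^ k → ∀ A : Finset ℕ, A ⊆ Icc 1 (B * b ^ k) → (b : ℝ) ^ k ≤ A.card * (k : ℝ) ^ D →
      ∑ v ∈ range (b ^ k), (if ∀ t ∈ Icc 1 (k ^ W), ∀ y : ℝ, (k : ℝ) ^ K ≤ y → y ≤ B * (b : ℝ) ^ k →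
        Av ε A (c + κ * v + t) y then 0 else p v) ≤ 1 / (k : ℝ) ^ U := by
  obtain ⟨B', hB'⟩ : ∃ B', B' = B + κ + 1 := ⟨_, rfl⟩
  obtain ⟨K, hK⟩ := trans_one (Kc b B' C) κ (U + 1) (W + 1) (D + 1)
    (cls_one κ hC B' 4 _) ε hε hε1
  have hbr : (2 : ℝ) ≤ b := by exact_mod_cast hb
  have hlb : 1 / 2 ≤ Real.log b := by
    have := Real.log_two_gt_d9
    have := Real.log_le_log (by norm_num) hbr
    linarith
  obtain ⟨T, hT⟩ : ∃ T : ℕ, T = ⌈Real.log b + Real.log B'⌉₊ + 1 := ⟨_, rfl⟩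
  have hB'1 : (1 : ℝ) ≤ B' := by exact_mod_cast (by omega : 1 ≤ B')
  have hlB' : 0 ≤ Real.log (B' : ℝ) := Real.log_nonneg hB'1
  have hTr : Real.log b + Real.log B' ≤ T := by
    rw [hT]
    push_cast
    have := Nat.le_ceil (Real.log b + Real.log B')
    linarith
  have hpe : ∀ᶠ k : ℕ in atTop, k ^ W ≤ b ^ k := by
    have e1 := tendsto_pow_const_div_const_pow_of_one_lt W (by linarith : (1 : ℝ) < b)
    have e2 := e1.eventually (gt_mem_nhds (by norm_num : (0 : ℝ) < 1))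
    filter_upwards [e2] with k hk
    rw [div_lt_one (by positivity)] at hk
    exact_mod_cast hk.le
  have hN : Tendsto (fun k : ℕ => B' * b ^ k) atTop atTop := by
    apply tendsto_atTop_mono (f := fun k : ℕ => k)
    · intro k
      have h1 : k < 2 ^ k := Nat.lt_two_pow_self
      have h2 : 2 ^ k ≤ b ^ k := Nat.pow_le_pow_left hb k
      have h3 : b ^ k ≤ B' * b ^ k := Nat.le_mul_of_pos_left _ (by omega)
      exact (h1.le.trans h2).trans h3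
    · exact tendsto_id
  obtain ⟨k₁, hk₁⟩ := eventually_atTop.mp ((hN.eventually hK).and hpe)
  obtain ⟨m1, hm1⟩ : ∃ m, m = T ^ K := ⟨_, rfl⟩
  obtain ⟨m2, hm2⟩ : ∃ m, m = B' * 2 ^ (D + 1) := ⟨_, rfl⟩
  obtain ⟨m3, hm3⟩ : ∃ m, m = 2 ^ (U + 1) := ⟨_, rfl⟩
  obtain ⟨m4, hm4⟩ : ∃ m, m = 2 ^ (W + 1) := ⟨_, rfl⟩
  refine ⟨K + 1, k₁ + m1 + m2 + m3 + m4 + 4, fun k hk p hp c hc A hA hAk => ?_⟩
  have hk1' : T ^ K ≤ k := by rw [← hm1]; omega
  have hk2' : B' * 2 ^ (D + 1) ≤ k := by rw [← hm2]; omega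
  have hk3' : 2 ^ (U + 1) ≤ k := by rw [← hm3]; omega
  have hk4' : 2 ^ (W + 1) ≤ k := by rw [← hm4]; omega
  obtain ⟨g1, g2⟩ := hk₁ k (by omega)
  obtain ⟨N, hNd⟩ : ∃ N, N = B' * b ^ k := ⟨_, rfl⟩
  rw [← hNd] at g1
  have hkr : (4 : ℝ) ≤ k := by exact_mod_cast (by omega : 4 ≤ k)
  have hk0 : (0 : ℝ) < k := by linarith
  have hk1 : (1 : ℝ) ≤ k := by linarith
  obtain ⟨ℓ, hℓ⟩ : ∃ ℓ, ℓ = Real.log (N : ℝ) := ⟨_, rfl⟩
  rw [← hℓ] at g1
  have hbk0 : (0 : ℝ) < (b : ℝ) ^ k := by positivity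
  have hbk : 1 ≤ b ^ k := Nat.one_le_pow _ _ (by omega)
  have hℓe : ℓ = Real.log B' + k * Real.log b := by
    rw [hℓ, hNd]
    push_cast
    rw [Real.log_mul (by positivity) (by positivity), Real.log_pow]
  have hℓlo : (k : ℝ) / 2 ≤ ℓ := by
    rw [hℓe]
    nlinarith
  have hℓhi : ℓ ≤ T * k := by
    rw [hℓe]
    nlinarith
  have hℓ0 : 0 < ℓ := by linarith
  have hWℓ : ((k ^ W : ℕ) : ℝ) ≤ ℓ ^ (W + 1) := by
    push_cast
    have h1 : (k : ℝ) ^ W * 2 ^ (W + 1) ≤ (k : ℝ) ^ (W + 1) := by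
      rw [pow_succ (k : ℝ) W]
      apply mul_le_mul_of_nonneg_left _ (by positivity)
      exact_mod_cast hk4'
    calc (k : ℝ) ^ W ≤ ((k : ℝ) / 2) ^ (W + 1) := by
          rw [div_pow, le_div_iff₀ (by positivity)]
          exact h1
      _ ≤ ℓ ^ (W + 1) := pow_le_pow_left₀ (by positivity) hℓlo _
  have hBN : B * b ^ k ≤ N := by
    rw [hNd]
    exact Nat.mul_le_mul_right _ (by omega)
  have hcv : ∀ v ∈ range (b ^ k), c + κ * v + k ^ W ≤ N := by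
    intro v hv
    rw [mem_range] at hv
    rw [hNd, hB', add_mul, add_mul, one_mul]
    have h1 : κ * v ≤ κ * b ^ k := Nat.mul_le_mul_left _ hv.le
    omega
  have hAN : (N : ℝ) ≤ (A.card : ℝ) * ℓ ^ (D + 1) := by
    have h1 : (B' : ℝ) * (k : ℝ) ^ D ≤ ℓ ^ (D + 1) := by
      calc (B' : ℝ) * (k : ℝ) ^ D ≤ ((k : ℝ) / 2) ^ (D + 1) := by
            rw [div_pow, le_div_iff₀ (by positivity), pow_succ (k : ℝ) D]
            have h2 : (B' : ℝ) * 2 ^ (D + 1) ≤ k := by exact_mod_cast hk2'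
            calc (B' : ℝ) * (k : ℝ) ^ D * 2 ^ (D + 1) = (k : ℝ) ^ D * ((B' : ℝ) * 2 ^ (D + 1)) := by ring
              _ ≤ _ := mul_le_mul_of_nonneg_left h2 (by positivity)
        _ ≤ ℓ ^ (D + 1) := pow_le_pow_left₀ (by positivity) hℓlo _
    calc (N : ℝ) = B' * (b : ℝ) ^ k := by rw [hNd]; push_cast; ring
      _ ≤ B' * (A.card * (k : ℝ) ^ D) := mul_le_mul_of_nonneg_left hAk (by positivity)
      _ = A.card * (B' * (k : ℝ) ^ D) := by ring
      _ ≤ _ := mul_le_mul_of_nonneg_left h1 (Nat.cast_nonneg _)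
  have hfin := g1 (range (b ^ k)) p ⟨k, by
      rw [hNd]
      calc b ^ k = 1 * b ^ k := (one_mul _).symm
        _ ≤ B' * b ^ k := Nat.mul_le_mul_right _ (by omega)
        _ ≤ B' * (B' * b ^ k) := Nat.le_mul_of_pos_left _ (by omega), by rw [hNd], hp, rfl⟩ c (hc.trans hBN) (k ^ W) hWℓ hcv A
      (hA.trans (Icc_subset_Icc_right hBN)) hAN
  have hKk : ℓ ^ K ≤ (k : ℝ) ^ (K + 1) := by
    calc ℓ ^ K ≤ (T * k : ℝ) ^ K := pow_le_pow_left₀ hℓ0.le hℓhi _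
      _ = (T : ℝ) ^ K * (k : ℝ) ^ K := mul_pow _ _ _
      _ ≤ k * (k : ℝ) ^ K := by
          apply mul_le_mul_of_nonneg_right _ (by positivity)
          exact_mod_cast hk1'
      _ = _ := by rw [pow_succ]; ring
  have hp0 := hC.nonneg k p hp
  have hfin2 : 1 / ℓ ^ (U + 1) ≤ 1 / (k : ℝ) ^ U := by
    apply one_div_le_one_div_of_le (by positivity)
    calc (k : ℝ) ^ U ≤ ((k : ℝ) / 2) ^ (U + 1) := by
          rw [div_pow, le_div_iff₀ (by positivity), pow_succ (k : ℝ) U]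
          apply mul_le_mul_of_nonneg_left _ (by positivity)
          exact_mod_cast hk3'
      _ ≤ ℓ ^ (U + 1) := pow_le_pow_left₀ (by positivity) hℓlo _
  refine le_trans (sum_le_sum fun v _ => ?_) (hfin.trans hfin2)
  by_cases h : ∀ t ∈ Icc 1 (k ^ W), ∀ y : ℝ, ℓ ^ K ≤ y → y ≤ N → Av ε A (c + κ * v + t) y
  · rw [if_pos h, if_pos]
    intro t ht y hy1 hy2
    refine h t ht y (hKk.trans hy1) (hy2.trans ?_)
    exact_mod_cast hBN
  · rw [if_neg h]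
    split_ifs
    · exact hp0 v
    · exact le_rfl


/-- From classes to a fixed exponent, for properties which become weaker with an exponent. -/
theorem fin_formK (a : ℕ) (κ : ℤ) (hκ : κ ≠ 0) (Bad : ℕ → ℕ → (ℕ → ℝ) → Prop)
    (hanti : ∀ K K' k p, 1 ≤ k → K ≤ K' → Bad K' k p → Bad K k p)
    (h : ∀ C : ℕ → (ℕ → ℝ) → Prop, ClsV 2 κ C → ∃ K k₀ : ℕ, ∀ k : ℕ, k₀ ≤ k → ∀ p, C k p → ¬ Bad K k p) :
    ∃ V k₀ : ℕ, ∀ k : ℕ, k₀ ≤ k → ∀ p, MC a V k p → ¬ Bad V k p := by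
  by_contra hcon
  push Not at hcon
  choose kk hk pp hp hbad using fun V => hcon V (V + 1)
  obtain ⟨K, k₀, h1⟩ := h (fun k p => ∃ V, k = kk V ∧ p = pp V) (clsV_of a κ hκ _ (fun k p => by
      rintro ⟨V, rfl, rfl⟩
      exact MC_mono (Nat.zero_le _) (by have := hk V; omega) (hp V)) (fun V => by
      refine ⟨∑ i ∈ range V, kk i + 1, fun k hkk p => ?_⟩
      rintro ⟨V', rfl, rfl⟩
      have hV : V ≤ V' := by
        by_contra hlt
        push Not at hlt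
        have := single_le_sum (f := kk) (fun _ _ => Nat.zero_le _) (mem_range.2 hlt)
        omega
      exact MC_mono hV (by have := hk V'; omega) (hp V')))
  have h2 := hk (K + k₀)
  exact h1 (kk (K + k₀)) (by omega) (pp (K + k₀)) ⟨K + k₀, rfl, rfl⟩
    (hanti K (K + k₀) _ _ (by omega) (Nat.le_add_right _ _) (hbad (K + k₀)))

open Classical in
/-- all the members of a family of residues with small Fourier coefficients -/
theorem flat_translates (a κ : ℕ) (hκ : 1 ≤ κ) (U W D : ℕ) (ε : ℝ) (hε : 0 < ε) (hε1 : ε ≤ 1 / 4) :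
    ∃ V q₀ : ℕ, ∀ q : ℕ, q₀ ≤ q → ∀ [NeZero q] (ι : Type) (s : Finset ι) (y : ι → ZMod q),
      Flat q (1 / Real.log q ^ V) s y → ∀ c : ℕ, (c : ℝ) ≤ q * Real.log q ^ a →
      ∀ A : Finset ℕ, (∀ n ∈ A, 1 ≤ n ∧ (n : ℝ) ≤ q * Real.log q ^ a) → (q : ℝ) ≤ A.card * Real.log q ^ D →
      ((s.filter fun i => ¬ ∀ t : ℕ, 1 ≤ t → (t : ℝ) ≤ Real.log q ^ W → ∀ z : ℝ, Real.log q ^ V ≤ z →
        z ≤ q * Real.log q ^ a → Av ε A (c + κ * (y i).val + t) z).card : ℝ) ≤ s.card / Real.log q ^ U := by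
  have hκz : (κ : ℤ) ≠ 0 := by exact_mod_cast (by omega : κ ≠ 0)
  obtain ⟨V, k₀, h0⟩ := fin_formK (a + 1) (κ : ℤ) hκz (fun K k p => ∃ c : ℕ, c ≤ 2 ^ k ∧ ∃ A : Finset ℕ, A ⊆ Icc 1 (2 ^ k) ∧
    (2 : ℝ) ^ k ≤ A.card * (k : ℝ) ^ (a + 1 + D) ∧
    1 / (k : ℝ) ^ U < ∑ v ∈ range (2 ^ k), (if ∀ t ∈ Icc 1 (k ^ W), ∀ y : ℝ, (k : ℝ) ^ K ≤ y → y ≤ (2 : ℝ) ^ k →
        Av ε A (c + κ * v + t) y then 0 else max (p v) 0)) (fun K K' k p hk hKK => by
      rintro ⟨c, hc, A, hA, hAk, hlt⟩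
      refine ⟨c, hc, A, hA, hAk, hlt.trans_le (sum_le_sum fun v _ => ?_)⟩
      by_cases h : ∀ t ∈ Icc 1 (k ^ W), ∀ y : ℝ, (k : ℝ) ^ K ≤ y → y ≤ (2 : ℝ) ^ k → Av ε A (c + κ * v + t) y
      · rw [if_pos h, if_pos]
        intro t ht y hy1 hy2
        refine h t ht y (le_trans ?_ hy1) hy2
        exact pow_le_pow_right₀ (by exact_mod_cast hk) hKK
      · rw [if_neg h]
        split_ifs
        · exact le_max_right _ _
        · exact le_rfl) (fun C hC => by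
      obtain ⟨K, k₀, h1⟩ := cls_translates 2 le_rfl C κ hC.toCls 1 U W (a + 1 + D) le_rfl ε hε hε1
      refine ⟨K, k₀, fun k hk p hp => ?_⟩
      rintro ⟨c, hc, A, hA, hAk, hlt⟩
      have h2 := h1 k hk p hp c (by rw [one_mul]; exact hc) A (by rw [one_mul]; exact hA) (by exact_mod_cast hAk)
      refine absurd h2 (not_le.2 (hlt.trans_le (le_of_eq ?_)))
      refine sum_congr rfl fun v _ => ?_
      rw [max_eq_left (hC.nonneg k p hp v)]
      push_cast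
      rw [one_mul])
  obtain ⟨q₀, h1⟩ := scaleq a (V + 1) k₀
  obtain ⟨q₁, h2⟩ := eventually_atTop.mp (ev_log_ge ((3 : ℝ) ^ V))
  refine ⟨V + 2, q₀ + q₁, fun q hq _ ι s y hf c hc A hA hAq => ?_⟩
  obtain ⟨hL1, k, hk, g1, g2, g3, g4, g5, g6⟩ := h1 q (by omega)
  have g7 := h2 q (by omega)
  have hL0 : 0 < Real.log q := by linarith
  rcases s.eq_empty_or_nonempty with rfl | hs
  · simp
  have hk1 : (1 : ℝ) ≤ k := hL1.trans g4
  have hk1' : 1 ≤ k := by exact_mod_cast hk1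
  have hMC := dis_MC (a + 1) V k q s hs y g1 g3 (hf.mono (g6.trans (one_div_le_one_div_of_le (by positivity)
    (pow_le_pow_right₀ hk1 (by omega)))))
  have h3 := h0 k hk _ hMC
  push Not at h3
  have hc2 : c ≤ 2 ^ k := by
    have : (c : ℝ) ≤ ((2 ^ k : ℕ) : ℝ) := by push_cast; exact hc.trans g2
    exact_mod_cast this
  have hA2 : A ⊆ Icc 1 (2 ^ k) := by
    intro n hn
    obtain ⟨e1, e2⟩ := hA n hn
    rw [mem_Icc]
    refine ⟨e1, ?_⟩
    have : (n : ℝ) ≤ ((2 ^ k : ℕ) : ℝ) := by push_cast; exact e2.trans g2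
    exact_mod_cast this
  have hAk : (2 : ℝ) ^ k ≤ A.card * (k : ℝ) ^ (a + 1 + D) := by
    calc (2 : ℝ) ^ k ≤ (k : ℝ) ^ (a + 1) * q := g3
      _ ≤ (k : ℝ) ^ (a + 1) * (A.card * Real.log q ^ D) := mul_le_mul_of_nonneg_left hAq (by positivity)
      _ ≤ (k : ℝ) ^ (a + 1) * (A.card * (k : ℝ) ^ D) := by
          apply mul_le_mul_of_nonneg_left _ (by positivity)
          exact mul_le_mul_of_nonneg_left (pow_le_pow_left₀ hL0.le g4 D) (Nat.cast_nonneg _)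
      _ = _ := by rw [pow_add]; ring
  have h4 := h3 c hc2 A hA2 hAk
  have h5 := count_dis s hs y k g1 (fun v => ∀ t ∈ Icc 1 (k ^ W), ∀ y : ℝ, (k : ℝ) ^ V ≤ y → y ≤ (2 : ℝ) ^ k →
        Av ε A (c + κ * v + t) y) (1 / (k : ℝ) ^ U) (by
      refine le_trans (le_of_eq ?_) h4
      refine sum_congr rfl fun v _ => ?_
      rw [max_eq_left (Pool.Agent.N384.MQ.dis_nonneg s y v)]
      congr)
  have h6 : (s.card : ℝ) * (1 / (k : ℝ) ^ U) ≤ s.card / Real.log q ^ U := by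
    rw [mul_one_div]
    apply div_le_div_of_nonneg_left (Nat.cast_nonneg _) (by positivity)
    exact pow_le_pow_left₀ hL0.le g4 U
  refine le_trans ?_ (h5.trans h6)
  apply Nat.cast_le.2
  apply card_le_card
  intro i hi
  simp only [mem_filter] at hi ⊢
  refine ⟨hi.1, fun hcon => hi.2 fun t ht1 ht2 z hz1 hz2 => ?_⟩
  refine hcon t (mem_Icc.2 ⟨ht1, ?_⟩) z (le_trans ?_ hz1) (hz2.trans g2)
  · have : (t : ℝ) ≤ ((k ^ W : ℕ) : ℝ) := by
      push_cast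
      exact ht2.trans (pow_le_pow_left₀ hL0.le g4 W)
    exact_mod_cast this
  · calc (k : ℝ) ^ V ≤ (3 * Real.log q) ^ V := pow_le_pow_left₀ (by linarith) g5 V
      _ = 3 ^ V * Real.log q ^ V := mul_pow _ _ _
      _ ≤ Real.log q * Real.log q ^ V := mul_le_mul_of_nonneg_right g7 (by positivity)
      _ = Real.log q ^ (V + 1) := by ring
      _ ≤ _ := pow_le_pow_right₀ hL1 (by omega)

end Pool.Agent.H85G
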