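import Pool.Agent.H85G.R3
import Pool.Agent.N469.TL.Levels

/-!
Primes in short intervals to the right of the points of the translates of a set by random integers composed of small primes.
-/

set_option autoImplicit false
set_option maxHeartbeats 1000000

namespace Pool.Agent.H85G

open Finset Filter
open Pool.Agent.N469.PT (OneLaw)
open Pool.Agent.N469.SQ (Sm sm_one)
open Pool.Agent.N469.SM (SS mem_SS card_SS_pos)
open Pool.Agent.N469.TL (Cond bothD)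

open Classical in
/-- integers composed of primes of a set -/
theorem sm_translates (κ : ℕ) (Kp Bc U W D : ℕ) (hκ : 1 ≤ κ) (ε : ℝ) (hε : 0 < ε) (hε1 : ε ≤ 1 / 4)
    (δ : ℝ) (hδ : 0 < δ) : ∃ K N₀ : ℕ, ∀ N : ℕ, N₀ ≤ N → ∀ P y, Cond δ Kp N P y →
      ∀ E : ℕ → Prop, ∀ _ : DecidablePred E,
      (∃ (c : ℕ) (A : Finset ℕ), c ≤ Bc * N ∧ A ⊆ Icc 1 (Bc * N) ∧ (N : ℝ) ≤ (A.card : ℝ) * Real.log N ^ D ∧
        ∀ v, E v → ¬ ∀ t : ℕ, 1 ≤ t → (t : ℝ) ≤ Real.log N ^ W → ∀ z : ℝ, (max 1 (Real.log N)) ^ K ≤ z → z ≤ Bc * N →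
          Av ε A (c + κ * v + t) z) →
      ∑ v ∈ SS P N, (if E v then 1 / ((SS P N).card : ℝ) else 0) ≤ 1 / Real.log N ^ U := by
  obtain ⟨B', hB'⟩ : ∃ B', B' = Bc + κ + 1 := ⟨_, rfl⟩
  obtain ⟨K, hK⟩ := trans_one (Sm (δ / 2) B' Kp) κ U W (D + 1) (sm_one (δ / 2) (by positivity) B' Kp κ hκ 4 _) ε hε hε1
  obtain ⟨N1, h1⟩ := eventually_atTop.mp hK
  obtain ⟨N2, h2⟩ := eventually_atTop.mp (hlogpow W)
  obtain ⟨N3, h3⟩ := eventually_atTop.mp (ev_L' ((B' : ℝ) + 2 ^ K + 8))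
  obtain ⟨N4, h4⟩ := eventually_atTop.mp (ev_L' ((2 : ℝ) ^ (2 / δ)))
  refine ⟨K + 1, N1 + N2 + N3 + N4 + 3, fun N hN P y hP E _ hE => ?_⟩
  obtain ⟨c, A, hc, hA, hAN, hbad⟩ := hE
  have hB'1 : 1 ≤ B' := by omega
  obtain ⟨M, hM⟩ : ∃ M, M = B' * N := ⟨_, rfl⟩
  have hNM : N ≤ M := by rw [hM]; exact Nat.le_mul_of_pos_left _ (by omega)
  have g1 := h1 M (by omega)
  have g2 := h2 N (by omega)
  have g3 := h3 N (by omega)
  have g4 := h4 N (by omega)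
  have hN0 : (0 : ℝ) < N := by exact_mod_cast (by omega : 0 < N)
  have hB'r : (1 : ℝ) ≤ B' := by exact_mod_cast hB'1
  have hK0 : (0 : ℝ) < 2 ^ K := by positivity
  obtain ⟨ℓ, hℓ⟩ : ∃ ℓ, ℓ = Real.log (N : ℝ) := ⟨_, rfl⟩
  rw [← hℓ] at g2 g3 g4 hAN
  have hℓ8 : 8 ≤ ℓ := by linarith
  have hℓ0 : 0 < ℓ := by linarith
  have hℓ1 : 1 ≤ ℓ := by linarith
  have hlM : Real.log (M : ℝ) = Real.log B' + ℓ := by
    rw [hM, Nat.cast_mul, Real.log_mul (by positivity) hN0.ne', hℓ]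
  have hlB : Real.log (B' : ℝ) ≤ ℓ := by
    have := Real.log_le_sub_one_of_pos (show (0 : ℝ) < B' by linarith)
    linarith
  have hlB0 : 0 ≤ Real.log (B' : ℝ) := Real.log_nonneg hB'r
  have hLM1 : ℓ ≤ Real.log M := by linarith
  have hLM2 : Real.log M ≤ 2 * ℓ := by linarith
  have htop := hP.top
  have hcard := hP.card
  have hone := hP.one
  rw [← hℓ] at htop hcard
  have hy1 : (1 : ℝ) ≤ y := by exact_mod_cast hone
  have hy0 : (0 : ℝ) < y := by linarith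
  -- the number of the primes
  have hPy : (P.card : ℝ) ≤ y := by
    have hsub : P ⊆ Icc 1 y := by
      intro p hp
      have := hP.primes p hp
      rw [mem_Icc]
      exact ⟨this.1.one_lt.le, this.2⟩
    have := card_le_card hsub
    rw [Nat.card_Icc] at this
    exact_mod_cast (by omega : P.card ≤ y)
  have hyℓ : ℓ ≤ y := by
    have e1 : (1 : ℝ) ≤ (y : ℝ) ^ (1 / 2 + δ) := Real.one_le_rpow hy1 (by positivity)
    calc ℓ ≤ (y : ℝ) ^ (1 / 2 + δ) * ℓ := le_mul_of_one_le_left hℓ0.le e1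
      _ ≤ P.card := hcard
      _ ≤ y := hPy
  have hyδ : 2 ≤ (y : ℝ) ^ (δ / 2) := by
    have e1 : (2 : ℝ) ^ (2 / δ) ≤ y := g4.trans hyℓ
    calc (2 : ℝ) = ((2 : ℝ) ^ (2 / δ)) ^ (δ / 2) := by
          rw [← Real.rpow_mul (by norm_num)]
          have : 2 / δ * (δ / 2) = 1 := by field_simp
          rw [this, Real.rpow_one]
      _ ≤ _ := Real.rpow_le_rpow (by positivity) e1 (by positivity)
  have hcard2 : (y : ℝ) ^ (1 / 2 + δ / 2) * Real.log M ≤ P.card := by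
    calc (y : ℝ) ^ (1 / 2 + δ / 2) * Real.log M ≤ (y : ℝ) ^ (1 / 2 + δ / 2) * (2 * ℓ) :=
          mul_le_mul_of_nonneg_left hLM2 (by positivity)
      _ ≤ (y : ℝ) ^ (1 / 2 + δ / 2) * ((y : ℝ) ^ (δ / 2) * ℓ) := by
          apply mul_le_mul_of_nonneg_left _ (by positivity)
          exact mul_le_mul_of_nonneg_right hyδ hℓ0.le
      _ = (y : ℝ) ^ (1 / 2 + δ) * ℓ := by
          rw [← mul_assoc, ← Real.rpow_add hy0]
          congr 2
          ring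
      _ ≤ _ := hcard
  have hBM : Bc * N ≤ M := by
    rw [hM]
    exact Nat.mul_le_mul_right _ (by omega)
  obtain ⟨T, hT⟩ : ∃ T : ℕ, T = ⌊ℓ ^ W⌋₊ := ⟨_, rfl⟩
  have hT1 : (T : ℝ) ≤ ℓ ^ W := by rw [hT]; exact Nat.floor_le (by positivity)
  have hTN : T ≤ N := by
    have : (T : ℝ) ≤ N := hT1.trans g2
    exact_mod_cast this
  have hfin := g1 (SS P N) (fun _ => 1 / ((SS P N).card : ℝ)) ⟨P, y, N, hNM, by rw [hM], hP.primes, hone,
      htop.trans (pow_le_pow_left₀ hℓ0.le hLM1 _), hcard2, rfl, rfl⟩ c (hc.trans hBM) T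
      (hT1.trans (pow_le_pow_left₀ hℓ0.le hLM1 _)) (by
        intro v hv
        have e1 := (mem_SS.1 hv).1.2
        have e2 := Nat.mul_le_mul_left κ e1
        rw [hM, hB', add_mul, add_mul, one_mul]
        omega) A (hA.trans (Icc_subset_Icc_right hBM)) (by
        have e1 : (M : ℝ) = B' * N := by rw [hM, Nat.cast_mul]
        calc (M : ℝ) = B' * N := e1
          _ ≤ ℓ * (A.card * ℓ ^ D) := mul_le_mul (by linarith) hAN hN0.le hℓ0.le
          _ = A.card * ℓ ^ (D + 1) := by ring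
          _ ≤ _ := mul_le_mul_of_nonneg_left (pow_le_pow_left₀ hℓ0.le hLM1 _) (Nat.cast_nonneg _))
  have hfin2 : 1 / Real.log (M : ℝ) ^ U ≤ 1 / ℓ ^ U :=
    one_div_le_one_div_of_le (by positivity) (pow_le_pow_left₀ hℓ0.le hLM1 _)
  have hcS : 0 ≤ 1 / ((SS P N).card : ℝ) := by positivity
  have hKℓ : Real.log (M : ℝ) ^ K ≤ (max 1 ℓ) ^ (K + 1) := by
    calc Real.log (M : ℝ) ^ K ≤ (2 * ℓ) ^ K := pow_le_pow_left₀ (by linarith) hLM2 _
      _ = 2 ^ K * ℓ ^ K := mul_pow _ _ _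
      _ ≤ ℓ * ℓ ^ K := mul_le_mul_of_nonneg_right (by linarith) (by positivity)
      _ = ℓ ^ (K + 1) := by ring
      _ ≤ _ := pow_le_pow_left₀ hℓ0.le (le_max_right _ _) _
  rw [← hℓ]
  refine le_trans (sum_le_sum fun v _ => ?_) (hfin.trans hfin2)
  by_cases hEv : E v
  · rw [if_pos hEv]
    have e1 := hbad v hEv
    rw [if_neg]
    intro hall
    apply e1
    intro t ht1 ht2 z hz1 hz2
    rw [← hℓ] at ht2 hz1
    refine hall t (mem_Icc.2 ⟨ht1, ?_⟩) z (hKℓ.trans hz1) (hz2.trans (by exact_mod_cast hBM))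
    rw [hT]
    exact Nat.le_floor ht2
  · rw [if_neg hEv]
    split_ifs
    · exact le_rfl
    · exact hcS

end Pool.Agent.H85G
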