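import Pool.Agent.H85G.E
import Pool.Agent.N625.DY.G

/-!
Prime tuples whose shifts are independent random integers with distributions of good classes, together with all the shifts
nearby.
-/

set_option autoImplicit false

namespace Pool.Agent.H85G

open Finset
open Pool.Agent.W93.TD (HLs)
open Pool.Agent.N625.DY (Kc cls_one)

lemma hls_mono {k : ℕ} (ε : ℝ) (U U' N : ℕ) (hN : 1 ≤ Real.log (N : ℝ)) (hU : U ≤ U') (a : Fin k → ℕ) (h : HLs ε U' N a) :
    HLs ε U N a := by
  obtain ⟨S, h1, h2, h3⟩ := h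
  refine ⟨S, h1, h2.trans ?_, h3⟩
  apply div_le_div_of_nonneg_left (Nat.cast_nonneg _) (by positivity)
  exact pow_le_pow_right₀ hN hU

open Classical in
/-- all the shifts nearby -/
theorem good_shifts (s : ℕ) (hs : 1 ≤ s) (b : Fin s → ℕ) (hb : ∀ i, 2 ≤ b i) (C : Fin s → ℕ → (ℕ → ℝ) → Prop)
    (hC : ∀ i, Good (b i) (C i)) (κ : Fin s → ℕ) (hκ : ∀ i, 1 ≤ κ i) (B U W : ℕ) (ε : ℝ) (hε : 0 < ε) :
    ∃ N₀ : ℕ, ∀ N : ℕ, N₀ ≤ N → ∀ k : Fin s → ℕ, (∀ i, b i ^ k i ≤ B * N) → (∀ i, N ≤ B * b i ^ k i) →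
      ∀ p : Fin s → ℕ → ℝ, (∀ i, C i (k i) (p i)) → ∀ c : Fin s → ℕ, (∀ i, c i ≤ B * N) →
      ∑ v ∈ Fintype.piFinset (fun i => range (b i ^ k i)), (if ∀ t : Fin s → ℕ, (∀ i, (t i : ℝ) ≤ Real.log N ^ W) →
        HLs ε U N (fun i => c i + κ i * v i + t i) then 0 else ∏ i, p i (v i)) ≤ 1 / Real.log N ^ U := by
  obtain ⟨U', hU'⟩ : ∃ U', U' = U + (W + 1) * s := ⟨_, rfl⟩
  obtain ⟨N₁, h1⟩ := Pool.Agent.N469.PT.ws_final s hs (fun i => Kc (b i) B (C i)) κ hκ (B + 1) U' ε hε
    (fun i => cls_one (κ i) (good_cls (hb i) (hC i) (κ i : ℤ) (by exact_mod_cast (by have := hκ i; omega : κ i ≠ 0))) B (B + 1) _)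
  have hlogW : ∀ᶠ N : ℕ in Filter.atTop, Real.log N ^ W ≤ N ∧ (2 : ℝ) ≤ Real.log N := by
    have e1 : ∀ᶠ x : ℝ in Filter.atTop, Real.log x ^ W ≤ x ∧ 2 ≤ Real.log x := by
      have f1 := (Real.isLittleO_pow_log_id_atTop (n := W)).bound (one_pos)
      filter_upwards [f1, Real.tendsto_log_atTop.eventually_ge_atTop (2 : ℝ), Filter.eventually_ge_atTop (0 : ℝ)] with x hx1 hx2 hx3
      refine ⟨?_, hx2⟩
      rw [one_mul, Real.norm_eq_abs, Real.norm_eq_abs] at hx1
      have := le_abs_self (Real.log x ^ W)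
      simp only [id, abs_of_nonneg hx3] at hx1
      linarith
    exact tendsto_natCast_atTop_atTop.eventually e1
  obtain ⟨N₂, h2⟩ := Filter.eventually_atTop.mp hlogW
  refine ⟨N₁ + N₂ + 4, fun N hN k hk1 hk2 p hp c hc => ?_⟩
  obtain ⟨g1, g2⟩ := h2 N (by omega)
  have hL0 : 0 < Real.log (N : ℝ) := by linarith
  have hp0 : ∀ i v, 0 ≤ p i v := fun i v => (hC i).nonneg (k i) (p i) (hp i) v
  have hP0 : ∀ v : Fin s → ℕ, 0 ≤ ∏ i, p i (v i) := fun v => prod_nonneg fun i _ => hp0 i _
  -- one vector of shifts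
  have hone : ∀ t : Fin s → ℕ, (∀ i, (t i : ℝ) ≤ Real.log N ^ W) →
      ∑ v ∈ Fintype.piFinset (fun i => range (b i ^ k i)), (if HLs ε U N (fun i => c i + κ i * v i + t i) then 0 else
        ∏ i, p i (v i)) ≤ 1 / Real.log N ^ U' := by
    intro t ht
    have h3 := h1 N (by omega) (fun i => range (b i ^ k i)) p (fun i => ⟨k i, hk1 i, hk2 i, hp i, rfl⟩)
      (fun i => c i + t i) (fun i => by
        have h4 := hc i
        have h5 : t i ≤ N := by
          have : (t i : ℝ) ≤ N := (ht i).trans g1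
          exact_mod_cast this
        calc c i + t i ≤ B * N + N := by omega
          _ = (B + 1) * N := by ring)
    refine le_trans (sum_le_sum fun v _ => ?_) h3
    have h4 : (fun i => c i + κ i * v i + t i) = (fun i => c i + t i + κ i * v i) := by
      funext i
      ring
    rw [h4]
    by_cases hv : HLs ε U' N (fun i => c i + t i + κ i * v i)
    · rw [if_pos (hls_mono ε U U' N (by linarith) (by omega) _ hv), if_neg (not_not.2 hv)]
    · rw [if_pos hv]
      split_ifs
      · exact hP0 v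
      · exact le_rfl
  -- the union
  obtain ⟨R, hR⟩ : ∃ R : ℕ, R = ⌊Real.log N ^ W⌋₊ := ⟨_, rfl⟩
  have hRle : (R : ℝ) ≤ Real.log N ^ W := by
    rw [hR]
    exact Nat.floor_le (by positivity)
  have hu : ∀ v : Fin s → ℕ, (if ∀ t : Fin s → ℕ, (∀ i, (t i : ℝ) ≤ Real.log N ^ W) →
        HLs ε U N (fun i => c i + κ i * v i + t i) then 0 else ∏ i, p i (v i)) ≤
      ∑ t ∈ Fintype.piFinset (fun _ : Fin s => range (R + 1)), (if HLs ε U N (fun i => c i + κ i * v i + t i) then 0 else
        ∏ i, p i (v i)) := by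
    intro v
    have hnn : ∀ t ∈ Fintype.piFinset (fun _ : Fin s => range (R + 1)), 0 ≤ (if HLs ε U N (fun i => c i + κ i * v i + t i) then 0 else
        ∏ i, p i (v i)) := by
      intro t _
      split_ifs
      · exact le_rfl
      · exact hP0 v
    by_cases hall : ∀ t : Fin s → ℕ, (∀ i, (t i : ℝ) ≤ Real.log N ^ W) → HLs ε U N (fun i => c i + κ i * v i + t i)
    · rw [if_pos hall]
      exact sum_nonneg hnn
    · rw [if_neg hall]
      push Not at hall
      obtain ⟨t, ht1, ht2⟩ := hall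
      have htm : t ∈ Fintype.piFinset (fun _ : Fin s => range (R + 1)) := by
        rw [Fintype.mem_piFinset]
        intro i
        rw [mem_range, hR]
        have := Nat.le_floor (ht1 i)
        omega
      have h5 := single_le_sum hnn htm
      rw [if_neg ht2] at h5
      exact h5
  refine (sum_le_sum fun v _ => hu v).trans ?_
  rw [sum_comm]
  calc ∑ t ∈ Fintype.piFinset (fun _ : Fin s => range (R + 1)), ∑ v ∈ Fintype.piFinset (fun i => range (b i ^ k i)),
        (if HLs ε U N (fun i => c i + κ i * v i + t i) then 0 else ∏ i, p i (v i))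
      ≤ ∑ _t ∈ Fintype.piFinset (fun _ : Fin s => range (R + 1)), 1 / Real.log N ^ U' := by
        refine sum_le_sum fun t ht => hone t fun i => ?_
        rw [Fintype.mem_piFinset] at ht
        have h6 := mem_range.1 (ht i)
        have h7 : (t i : ℝ) ≤ R := by exact_mod_cast (by omega : t i ≤ R)
        exact h7.trans hRle
    _ = ((R + 1 : ℕ) : ℝ) ^ s * (1 / Real.log N ^ U') := by
        rw [sum_const, Fintype.card_piFinset, prod_const, card_univ, Fintype.card_fin, card_range, nsmul_eq_mul]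
        push_cast
        rfl
    _ ≤ (Real.log N ^ (W + 1)) ^ s * (1 / Real.log N ^ U') := by
        apply mul_le_mul_of_nonneg_right _ (by positivity)
        apply pow_le_pow_left₀ (by positivity)
        have h4 : 1 ≤ Real.log N ^ W := one_le_pow₀ (by linarith)
        push_cast
        rw [pow_succ]
        nlinarith
    _ = 1 / Real.log N ^ U := by
        rw [hU', pow_add (Real.log N) U ((W + 1) * s), ← pow_mul]
        field_simp

end Pool.Agent.H85G
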