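import Pool.Agent.H85G.S

/-!
Prime tuples whose shifts are independent random integers with distributions of classes which satisfy the one shift estimate,
together with all the shifts nearby.
-/

set_option autoImplicit false

namespace Pool.Agent.H85G

open Finset
open Pool.Agent.W93.TD (HLs)
open Pool.Agent.N469.PT (OneLaw ws_final)

open Classical in
/-- all the shifts nearby -/
theorem one_shifts (s : ℕ) (hs : 1 ≤ s) (L : Fin s → ℕ → Finset ℕ → (ℕ → ℝ) → Prop) (κ : Fin s → ℕ) (hκ : ∀ i, 1 ≤ κ i)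
    (B U W : ℕ) (ε : ℝ) (hε : 0 < ε) (hL : ∀ i, ∀ Bc U : ℕ, OneLaw (L i) (κ i) Bc U) :
    ∃ N₀ : ℕ, ∀ N : ℕ, N₀ ≤ N → ∀ (Ω : Fin s → Finset ℕ) (p : Fin s → ℕ → ℝ), (∀ i, L i N (Ω i) (p i)) →
      ∀ c : Fin s → ℕ, (∀ i, c i ≤ B * N) →
      ∑ v ∈ Fintype.piFinset Ω, (if ∀ t : Fin s → ℕ, (∀ i, (t i : ℝ) ≤ Real.log N ^ W) →
        HLs ε U N (fun i => c i + κ i * v i + t i) then 0 else ∏ i, p i (v i)) ≤ 1 / Real.log N ^ U := by
  obtain ⟨U', hU'⟩ : ∃ U', U' = U + (W + 1) * s := ⟨_, rfl⟩
  obtain ⟨N₁, h1⟩ := ws_final s hs L κ hκ (B + 1) U' ε hε (fun i => hL i _ _)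
  choose A0 B0 hone0 using fun i => hL i B 0
  choose M₀ hM₀ using fun i => hone0 i 0
  have hlogW : ∀ᶠ N : ℕ in Filter.atTop, Real.log N ^ W ≤ N ∧ (2 : ℝ) ≤ Real.log N := by
    have e1 : ∀ᶠ x : ℝ in Filter.atTop, Real.log x ^ W ≤ x ∧ 2 ≤ Real.log x := by
      have f1 := (Real.isLittleO_pow_log_id_atTop (n := W)).bound (one_pos)
      filter_upwards [f1, Real.tendsto_log_atTop.eventually_ge_atTop (2 : ℝ), Filter.eventually_ge_atTop (0 : ℝ)] with x hx1 hx2 hx3
      refine ⟨?_, hx2⟩
      rw [one_mul, Real.norm_eq_abs, Real.norm_eq_abs] at hx1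
      have := le_abs_self (Real.log x ^ W)
      simp only [id, abs_of_nonneg hx3] at hx1
      linarith
    exact tendsto_natCast_atTop_atTop.eventually e1
  obtain ⟨N₂, h2⟩ := Filter.eventually_atTop.mp hlogW
  refine ⟨N₁ + N₂ + (∑ i, M₀ i) + 4, fun N hN Ω p hp c hc => ?_⟩
  obtain ⟨g1, g2⟩ := h2 N (by omega)
  have hL0 : 0 < Real.log (N : ℝ) := by linarith
  have hMi : ∀ i, M₀ i ≤ N := fun i => by
    have := single_le_sum (f := M₀) (fun _ _ => Nat.zero_le _) (mem_univ i)
    omega
  have hp0 : ∀ i, ∀ v ∈ Ω i, 0 ≤ p i v := fun i => (hM₀ i N (hMi i) (Ω i) (p i) (hp i) (c i) (hc i)).1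
  have hP0 : ∀ v ∈ Fintype.piFinset Ω, 0 ≤ ∏ i, p i (v i) := fun v hv =>
    prod_nonneg fun i _ => hp0 i _ (Fintype.mem_piFinset.1 hv i)
  -- one vector of shifts
  have hone : ∀ t : Fin s → ℕ, (∀ i, (t i : ℝ) ≤ Real.log N ^ W) →
      ∑ v ∈ Fintype.piFinset Ω, (if HLs ε U N (fun i => c i + κ i * v i + t i) then 0 else
        ∏ i, p i (v i)) ≤ 1 / Real.log N ^ U' := by
    intro t ht
    have h3 := h1 N (by omega) Ω p hp
      (fun i => c i + t i) (fun i => by
        have h4 := hc i
        have h5 : t i ≤ N := by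
          have : (t i : ℝ) ≤ N := (ht i).trans g1
          exact_mod_cast this
        calc c i + t i ≤ B * N + N := by omega
          _ = (B + 1) * N := by ring)
    refine le_trans (sum_le_sum fun v hv => ?_) h3
    have h4 : (fun i => c i + κ i * v i + t i) = (fun i => c i + t i + κ i * v i) := by
      funext i
      ring
    rw [h4]
    by_cases hv' : HLs ε U' N (fun i => c i + t i + κ i * v i)
    · rw [if_pos (hls_mono ε U U' N (by linarith) (by omega) _ hv'), if_neg (not_not.2 hv')]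
    · rw [if_pos hv']
      split_ifs
      · exact hP0 v hv
      · exact le_rfl
  -- the union
  obtain ⟨R, hR⟩ : ∃ R : ℕ, R = ⌊Real.log N ^ W⌋₊ := ⟨_, rfl⟩
  have hRle : (R : ℝ) ≤ Real.log N ^ W := by
    rw [hR]
    exact Nat.floor_le (by positivity)
  have hu : ∀ v ∈ Fintype.piFinset Ω, (if ∀ t : Fin s → ℕ, (∀ i, (t i : ℝ) ≤ Real.log N ^ W) →
        HLs ε U N (fun i => c i + κ i * v i + t i) then 0 else ∏ i, p i (v i)) ≤
      ∑ t ∈ Fintype.piFinset (fun _ : Fin s => range (R + 1)), (if HLs ε U N (fun i => c i + κ i * v i + t i) then 0 else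
        ∏ i, p i (v i)) := by
    intro v hv
    have hnn : ∀ t ∈ Fintype.piFinset (fun _ : Fin s => range (R + 1)), 0 ≤ (if HLs ε U N (fun i => c i + κ i * v i + t i) then 0 else
        ∏ i, p i (v i)) := by
      intro t _
      split_ifs
      · exact le_rfl
      · exact hP0 v hv
    by_cases hall : ∀ t : Fin s → ℕ, (∀ i, (t i : ℝ) ≤ Real.log N ^ W) → HLs ε U N (fun i => c i + κ i * v i + t i)
    · rw [if_pos hall]
      exact sum_nonneg hnn
    · rw [if_neg hall]
      push Not at hall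
      obtain ⟨t, ht1, ht2⟩ := hall
      have htm : t ∈ Fintype.piFinset (fun _ : Fin s => range (R + 1)) := by
        rw [Fintype.mem_piFinset]
        intro i
        rw [mem_range, hR]
        have := Nat.le_floor (ht1 i)
        omega
      have h5 := single_le_sum hnn htm
      rw [if_neg ht2] at h5
      exact h5
  refine (sum_le_sum fun v hv => hu v hv).trans ?_
  rw [sum_comm]
  calc ∑ t ∈ Fintype.piFinset (fun _ : Fin s => range (R + 1)), ∑ v ∈ Fintype.piFinset Ω,
        (if HLs ε U N (fun i => c i + κ i * v i + t i) then 0 else ∏ i, p i (v i))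
      ≤ ∑ _t ∈ Fintype.piFinset (fun _ : Fin s => range (R + 1)), 1 / Real.log N ^ U' := by
        refine sum_le_sum fun t ht => hone t fun i => ?_
        rw [Fintype.mem_piFinset] at ht
        have h6 := mem_range.1 (ht i)
        have h7 : (t i : ℝ) ≤ R := by exact_mod_cast (by omega : t i ≤ R)
        exact h7.trans hRle
    _ = ((R + 1 : ℕ) : ℝ) ^ s * (1 / Real.log N ^ U') := by
        rw [sum_const, Fintype.card_piFinset, prod_const, card_univ, Fintype.card_fin, card_range, nsmul_eq_mul]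
        push_cast
        rfl
    _ ≤ (Real.log N ^ (W + 1)) ^ s * (1 / Real.log N ^ U') := by
        apply mul_le_mul_of_nonneg_right _ (by positivity)
        apply pow_le_pow_left₀ (by positivity)
        have h4 : 1 ≤ Real.log N ^ W := one_le_pow₀ (by linarith)
        push_cast
        rw [pow_succ]
        nlinarith
    _ = 1 / Real.log N ^ U := by
        rw [hU', pow_add (Real.log N) U ((W + 1) * s), ← pow_mul]
        field_simp

end Pool.Agent.H85G
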