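import Pool.Agent.H85G.E
import Pool.Agent.N699.ST.Tra
import Pool.Agent.N625.DY.G

/-!
Primes `q` with `d q + a` prime for a random `a` with a distribution of a good class: all the integers nearby, all slopes `d` up
to a power of the logarithm and the primes up to `X`, for all `X`.
-/

set_option autoImplicit false
set_option maxHeartbeats 1000000

namespace Pool.Agent.H85G

open Finset
open Pool.Agent.N625.DY (Kc cls_one)
open Pool.Agent.N699.ST (AllS Fo Adm sing cnt)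

lemma fo_mono {s : ℕ} (ε : ℝ) (U U' N x : ℕ) (hN : 1 ≤ Real.log (N : ℝ)) (hU : U ≤ U') (d a : Fin s → ℕ)
    (h : Fo ε U' N x d a) : Fo ε U N x d a := by
  obtain ⟨S, h0, h1, h2, h3⟩ := h
  refine ⟨S, h0, h1, h2.trans ?_, h3⟩
  apply div_le_div_of_nonneg_left (Nat.cast_nonneg _) (by positivity)
  exact pow_le_pow_right₀ hN hU

lemma allS_mono {s : ℕ} (ε : ℝ) (A U U' N : ℕ) (hN : 1 ≤ Real.log (N : ℝ)) (hU : U ≤ U') (a : Fin s → ℕ)
    (h : AllS ε A U' N a) : AllS ε A U N a := fun j d h1 h2 h3 =>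
  fo_mono ε U U' N (N / j) hN hU d a (h j d h1 h2 h3)

lemma sum_fin_one (R : Finset ℕ) (f : (Fin 1 → ℕ) → ℝ) :
    ∑ m ∈ Fintype.piFinset (fun _ : Fin 1 => R), f m = ∑ v ∈ R, f (fun _ => v) := by
  symm
  apply sum_bij (fun v _ => (fun _ => v : Fin 1 → ℕ))
  · intro v hv
    rw [Fintype.mem_piFinset]
    exact fun _ => hv
  · intro v _ w _ h
    exact congrFun h 0
  · intro m hm
    rw [Fintype.mem_piFinset] at hm
    refine ⟨m 0, hm 0, ?_⟩
    funext i
    rw [Subsingleton.elim i 0]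
  · intro v _
    rfl

open Classical in
/-- one scale, all the constants nearby -/
theorem good_slopes (b : ℕ) (hb : 2 ≤ b) (C : ℕ → (ℕ → ℝ) → Prop) (hC : Good b C) (κ : ℕ) (hκ : 1 ≤ κ) (A B U W : ℕ)
    (ε : ℝ) (hε : 0 < ε) : ∃ N₀ : ℕ, ∀ N : ℕ, N₀ ≤ N → ∀ k : ℕ, b ^ k ≤ B * N → N ≤ B * b ^ k → ∀ p : ℕ → ℝ, C k p →
      ∀ c : ℕ, c ≤ B * N →
      ∑ v ∈ range (b ^ k), (if ∀ t : ℕ, (t : ℝ) ≤ Real.log N ^ W → AllS ε A U N (fun _ : Fin 1 => c + κ * v + t) then 0 else p v) ≤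
        1 / Real.log N ^ U := by
  obtain ⟨U', hU'⟩ : ∃ U', U' = U + (W + 1) := ⟨_, rfl⟩
  obtain ⟨N₁, h1⟩ := Pool.Agent.N699.ST.ws_all 1 le_rfl (fun _ => Kc b B C) (fun _ => κ) (fun _ => hκ) (B + 1) U' A _ rfl ε hε
    (fun _ => cls_one κ (good_cls hb hC (κ : ℤ) (by exact_mod_cast (by omega : κ ≠ 0))) B (B + 1) _)
  have hlogW : ∀ᶠ N : ℕ in Filter.atTop, Real.log N ^ W ≤ N ∧ (2 : ℝ) ≤ Real.log N := by
    have e1 : ∀ᶠ x : ℝ in Filter.atTop, Real.log x ^ W ≤ x ∧ 2 ≤ Real.log x := by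
      have f1 := (Real.isLittleO_pow_log_id_atTop (n := W)).bound (one_pos)
      filter_upwards [f1, Real.tendsto_log_atTop.eventually_ge_atTop (2 : ℝ), Filter.eventually_ge_atTop (0 : ℝ)] with x hx1 hx2 hx3
      refine ⟨?_, hx2⟩
      rw [one_mul, Real.norm_eq_abs, Real.norm_eq_abs] at hx1
      have := le_abs_self (Real.log x ^ W)
      simp only [id, abs_of_nonneg hx3] at hx1
      linarith
    exact tendsto_natCast_atTop_atTop.eventually e1
  obtain ⟨N₂, h2⟩ := Filter.eventually_atTop.mp hlogW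
  refine ⟨N₁ + N₂ + 4, fun N hN k hk1 hk2 p hp c hc => ?_⟩
  obtain ⟨g1, g2⟩ := h2 N (by omega)
  have hL0 : 0 < Real.log (N : ℝ) := by linarith
  have hp0 : ∀ v, 0 ≤ p v := hC.nonneg k p hp
  -- one constant
  have hone : ∀ t : ℕ, (t : ℝ) ≤ Real.log N ^ W →
      ∑ v ∈ range (b ^ k), (if AllS ε A U N (fun _ : Fin 1 => c + κ * v + t) then 0 else p v) ≤ 1 / Real.log N ^ U' := by
    intro t ht
    have h3 := h1 N (by omega) (fun _ => range (b ^ k)) (fun _ => p) (fun _ => ⟨k, hk1, hk2, hp, rfl⟩)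
      (fun _ v _ => hp0 v) (fun _ => c + t) (fun _ => by
        have h5 : t ≤ N := by
          have : (t : ℝ) ≤ N := ht.trans g1
          exact_mod_cast this
        calc c + t ≤ B * N + N := by omega
          _ = (B + 1) * N := by ring)
    rw [sum_fin_one] at h3
    refine le_trans (sum_le_sum fun v _ => ?_) h3
    have h4 : (fun _ : Fin 1 => c + κ * v + t) = (fun _ => c + t + κ * v) := by
      funext i
      ring
    rw [h4]
    by_cases hv : AllS ε A U' N (fun _ : Fin 1 => c + t + κ * v)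
    · rw [if_pos (allS_mono ε A U U' N (by linarith) (by omega) _ hv), if_neg (not_not.2 hv)]
    · rw [if_pos hv, Fin.prod_univ_one]
      split_ifs
      · exact hp0 v
      · exact le_rfl
  -- the union
  obtain ⟨R, hR⟩ : ∃ R : ℕ, R = ⌊Real.log N ^ W⌋₊ := ⟨_, rfl⟩
  have hRle : (R : ℝ) ≤ Real.log N ^ W := by
    rw [hR]
    exact Nat.floor_le (by positivity)
  have hu : ∀ v : ℕ, (if ∀ t : ℕ, (t : ℝ) ≤ Real.log N ^ W → AllS ε A U N (fun _ : Fin 1 => c + κ * v + t) then 0 else p v) ≤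
      ∑ t ∈ range (R + 1), (if AllS ε A U N (fun _ : Fin 1 => c + κ * v + t) then 0 else p v) := by
    intro v
    have hnn : ∀ t ∈ range (R + 1), 0 ≤ (if AllS ε A U N (fun _ : Fin 1 => c + κ * v + t) then 0 else p v) := by
      intro t _
      split_ifs
      · exact le_rfl
      · exact hp0 v
    by_cases hall : ∀ t : ℕ, (t : ℝ) ≤ Real.log N ^ W → AllS ε A U N (fun _ : Fin 1 => c + κ * v + t)
    · rw [if_pos hall]
      exact sum_nonneg hnn
    · rw [if_neg hall]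
      push Not at hall
      obtain ⟨t, ht1, ht2⟩ := hall
      have htm : t ∈ range (R + 1) := by
        rw [mem_range, hR]
        have := Nat.le_floor ht1
        omega
      have h5 := single_le_sum hnn htm
      rw [if_neg ht2] at h5
      exact h5
  refine (sum_le_sum fun v _ => hu v).trans ?_
  rw [sum_comm]
  calc ∑ t ∈ range (R + 1), ∑ v ∈ range (b ^ k), (if AllS ε A U N (fun _ : Fin 1 => c + κ * v + t) then 0 else p v)
      ≤ ∑ _t ∈ range (R + 1), 1 / Real.log N ^ U' := by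
        refine sum_le_sum fun t ht => hone t ?_
        have h6 := mem_range.1 ht
        have h7 : (t : ℝ) ≤ R := by exact_mod_cast (by omega : t ≤ R)
        exact h7.trans hRle
    _ = ((R + 1 : ℕ) : ℝ) * (1 / Real.log N ^ U') := by
        rw [sum_const, card_range, nsmul_eq_mul]
    _ ≤ (Real.log N ^ (W + 1)) * (1 / Real.log N ^ U') := by
        apply mul_le_mul_of_nonneg_right _ (by positivity)
        have h4 : 1 ≤ Real.log N ^ W := one_le_pow₀ (by linarith)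
        push_cast
        rw [pow_succ]
        nlinarith
    _ = 1 / Real.log N ^ U := by
        rw [hU', pow_add (Real.log N) U (W + 1)]
        field_simp

/-! ### interpolation between the scales -/

/-- the weighted number of the `n ≤ X` -/
noncomputable def FF (d a X : ℕ) : ℝ := ∑ n ∈ Icc 1 X, ArithmeticFunction.vonMangoldt n * ArithmeticFunction.vonMangoldt (d * n + a)

/-- the number of the primes `q ≤ X` with `d q + a` prime -/
def cc (d a X : ℕ) : ℕ := ((Icc 1 X).filter fun q => q.Prime ∧ (d * q + a).Prime).card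

lemma FF_mono (d a : ℕ) {X Y : ℕ} (h : X ≤ Y) : FF d a X ≤ FF d a Y := by
  unfold FF
  apply sum_le_sum_of_subset_of_nonneg (Icc_subset_Icc_right h)
  intro n _ _
  exact mul_nonneg ArithmeticFunction.vonMangoldt_nonneg ArithmeticFunction.vonMangoldt_nonneg

lemma FF_nonneg (d a X : ℕ) : 0 ≤ FF d a X :=
  sum_nonneg fun _ _ => mul_nonneg ArithmeticFunction.vonMangoldt_nonneg ArithmeticFunction.vonMangoldt_nonneg

lemma FF_le (d a X : ℕ) (T : ℝ) (h1 : (X : ℝ) ≤ T) (h2 : ((d * X + a : ℕ) : ℝ) ≤ T) (hT : 1 ≤ T) :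
    FF d a X ≤ X * Real.log T ^ 2 := by
  unfold FF
  have : ∀ n ∈ Icc 1 X, ArithmeticFunction.vonMangoldt n * ArithmeticFunction.vonMangoldt (d * n + a) ≤ Real.log T ^ 2 := by
    intro n hn
    rw [mem_Icc] at hn
    have e0 : 0 ≤ Real.log T := Real.log_nonneg hT
    have e1 : ArithmeticFunction.vonMangoldt n ≤ Real.log T := by
      refine ArithmeticFunction.vonMangoldt_le_log.trans ?_
      apply Real.log_le_log (by exact_mod_cast (by omega : 0 < n))
      have : (n : ℝ) ≤ X := by exact_mod_cast hn.2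
      linarith
    have e2 : ArithmeticFunction.vonMangoldt (d * n + a) ≤ Real.log T := by
      refine ArithmeticFunction.vonMangoldt_le_log.trans ?_
      rcases Nat.eq_zero_or_pos (d * n + a) with h | h
      · rw [h, Nat.cast_zero, Real.log_zero]
        exact e0
      apply Real.log_le_log (by exact_mod_cast h)
      have : ((d * n + a : ℕ) : ℝ) ≤ ((d * X + a : ℕ) : ℝ) := by
        have : d * n ≤ d * X := Nat.mul_le_mul_left _ hn.2
        exact_mod_cast (by omega : d * n + a ≤ d * X + a)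
      linarith
    rw [sq]
    exact mul_le_mul e1 e2 ArithmeticFunction.vonMangoldt_nonneg e0
  refine (sum_le_sum this).trans ?_
  rw [sum_const, Nat.card_Icc, nsmul_eq_mul]
  simp

lemma cc_mono (d a : ℕ) {X Y : ℕ} (h : X ≤ Y) : cc d a X ≤ cc d a Y := by
  unfold cc
  exact card_le_card (filter_subset_filter _ (Icc_subset_Icc_right h))

lemma fo_one (ε : ℝ) (U N x d a : ℕ) (h : Fo ε U N x (fun _ : Fin 1 => d) (fun _ : Fin 1 => a)) :
    ∃ S : ℝ, 0 < S ∧ Filter.Tendsto (sing (fun _ : Fin 1 => d) (fun _ : Fin 1 => a)) Filter.atTop (nhds S) ∧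
    |FF d a x - S * x| ≤ x / Real.log N ^ U ∧
    |(cc d a x : ℝ) - S * (x / Real.log N ^ 2)| ≤ ε * (S * (x / Real.log N ^ 2)) := by
  obtain ⟨S, h0, h1, h2, h3⟩ := h
  refine ⟨S, h0, h1, ?_, ?_⟩
  · simp only [Fin.prod_univ_one] at h2
    exact h2
  · have e1 : cnt (fun _ : Fin 1 => d) (fun _ : Fin 1 => a) x = cc d a x := by
      unfold cnt cc
      congr 1
      apply filter_congr
      intro q _
      constructor
      · rintro ⟨g1, g2⟩
        exact ⟨g1, g2 0⟩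
      · rintro ⟨g1, g2⟩
        exact ⟨g1, fun _ => g2⟩
    rw [e1] at h3
    exact h3

/-- one length `X`, which is not too small -/
lemma core (k Q A B D E A2 U d a X h : ℕ) (ε l T : ℝ) (hε : 0 < ε) (hε8 : 8 * ε ≤ 1)
    (hl : l = Real.log Q) (hl0 : 0 < l) (hk : 4 ≤ k) (hkB : 2 * (B + 2) * 3 ^ (U + 1) ≤ k) (hkε : 2 ≤ ε * k)
    (hD1 : U + 4 ≤ D) (hD2 : E + 1 ≤ D) (hQD : 2 * k ^ D ≤ Q)
    (hd1 : 1 ≤ d) (hdk : d ≤ k ^ A) (hA2 : A + E + 1 = A2) (hk3 : 2 * 3 ^ A2 ≤ k)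
    (hh1 : h * k ^ D ≤ Q) (hh2 : 1 ≤ h) (hX1 : Q ≤ X * k ^ E) (hX2 : d * X ≤ B * Q)
    (hT : ∀ Y : ℕ, d * Y ≤ (B + 2) * Q → ((d * Y + a : ℕ) : ℝ) ≤ T) (hT1 : 1 ≤ T) (hTk : Real.log T ^ 2 + 1 ≤ (k : ℝ) ^ 3)
    (hlog : ∀ M : ℕ, Q ≤ 2 * M → M ≤ (B + 2) * Q → (k : ℝ) / 3 ≤ Real.log M ∧ (1 - ε) * l ^ 2 ≤ Real.log M ^ 2 ∧
      Real.log M ^ 2 ≤ (1 + ε) * l ^ 2)
    (hadm : Adm (fun _ : Fin 1 => d) (fun _ : Fin 1 => a))
    (hall : ∀ j : ℕ, Q ≤ 2 * (j * h) → j * h ≤ (B + 2) * Q → AllS ε A2 (U + 1) (j * h) (fun _ : Fin 1 => a)) :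
    ∃ S : ℝ, 0 < S ∧ Filter.Tendsto (sing (fun _ : Fin 1 => d) (fun _ : Fin 1 => a)) Filter.atTop (nhds S) ∧
    S ≤ (k : ℝ) ^ 3 ∧ |FF d a X - S * X| ≤ Q / (k : ℝ) ^ U ∧
    |(cc d a X : ℝ) - S * X / l ^ 2| ≤ 4 * ε * (S * X / l ^ 2) := by
  have hkr : (4 : ℝ) ≤ k := by exact_mod_cast hk
  have hk0 : (0 : ℝ) < k := by linarith
  have hkn : 0 < k := by omega
  have hkD : 0 < k ^ D := by positivity
  have hQ0 : 0 < Q := by omega
  have hQr : (0 : ℝ) < Q := by exact_mod_cast hQ0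
  have hX0 : 0 < X := by
    rcases Nat.eq_zero_or_pos X with h' | h'
    · rw [h', zero_mul] at hX1
      omega
    · exact h'
  have hXr : (1 : ℝ) ≤ X := by exact_mod_cast hX0
  have hdX : 0 < d * X := Nat.mul_pos (by omega) hX0
  -- the multiple of the slope
  obtain ⟨u, hu⟩ : ∃ u, u = Q / (d * X) + 1 := ⟨_, rfl⟩
  obtain ⟨m, hm⟩ : ∃ m, m = d * u := ⟨_, rfl⟩
  have hu1 : 1 ≤ u := by rw [hu]; exact Nat.le_add_left 1 _
  have hdm : d ≤ m := by rw [hm]; exact Nat.le_mul_of_pos_right _ hu1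
  have hm0 : 0 < m := by omega
  have hmX1 : Q < m * X := by
    have e1 : Q < (d * X) * (Q / (d * X) + 1) := Nat.lt_mul_div_succ _ hdX
    calc Q < (d * X) * (Q / (d * X) + 1) := e1
      _ = m * X := by rw [hm, hu]; ring
  have hmX2 : m * X ≤ (B + 1) * Q := by
    have e1 : (d * X) * (Q / (d * X)) ≤ Q := Nat.mul_div_le _ _
    calc m * X = (d * X) * (Q / (d * X)) + d * X := by rw [hm, hu]; ring
      _ ≤ Q + B * Q := by omega
      _ = _ := by ring
  have hukE : u ≤ 2 * k ^ E := by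
    have e1 : Q / (d * X) ≤ k ^ E := by
      apply Nat.div_le_of_le_mul
      calc Q ≤ X * k ^ E := hX1
        _ ≤ d * X * k ^ E := by
            apply Nat.mul_le_mul_right
            exact Nat.le_mul_of_pos_left _ (by omega)
    have e2 : 1 ≤ k ^ E := Nat.one_le_pow _ _ hkn
    omega
  have hmk : (m : ℝ) ≤ 2 * (k : ℝ) ^ (A + E) := by
    have : m ≤ 2 * k ^ (A + E) := by
      calc m ≤ k ^ A * (2 * k ^ E) := by rw [hm]; exact Nat.mul_le_mul hdk hukE
        _ = _ := by rw [pow_add]; ring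
    exact_mod_cast this
  -- the two scales
  obtain ⟨j, hj⟩ : ∃ j, j = m * X / h := ⟨_, rfl⟩
  have hj1 : j * h ≤ m * X := by rw [hj]; exact Nat.div_mul_le_self _ _
  have hj2 : m * X < (j + 1) * h := by rw [hj, mul_comm (m * X / h + 1)]; exact Nat.lt_mul_div_succ _ (by omega)
  have hjh : (j + 1) * h = j * h + h := by ring
  have hhQ : 2 * h ≤ Q := by
    calc 2 * h ≤ h * k ^ D := by
          rw [mul_comm]
          apply Nat.mul_le_mul_left
          exact (by omega : 2 ≤ k).trans (Nat.le_self_pow (by omega) k)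
      _ ≤ Q := hh1
  have hN1a : Q ≤ 2 * (j * h) := by omega
  have hN1b : j * h ≤ (B + 2) * Q := by
    have : (B + 2) * Q = (B + 1) * Q + Q := by ring
    omega
  have hN2a : Q ≤ 2 * ((j + 1) * h) := by omega
  have hN2b : (j + 1) * h ≤ (B + 2) * Q := by
    have : (B + 2) * Q = (B + 1) * Q + Q := by ring
    omega
  obtain ⟨X1, hX1d⟩ : ∃ X1, X1 = j * h / m := ⟨_, rfl⟩
  obtain ⟨X2, hX2d⟩ : ∃ X2, X2 = (j + 1) * h / m := ⟨_, rfl⟩
  obtain ⟨g, hg⟩ : ∃ g, g = h / m + 1 := ⟨_, rfl⟩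
  have hXX1 : X1 ≤ X := by
    rw [hX1d]
    exact Nat.div_le_of_le_mul hj1
  have hXX2 : X ≤ X2 := by
    rw [hX2d, Nat.le_div_iff_mul_le hm0, mul_comm]
    exact hj2.le
  have hX12 : X2 ≤ X1 + g := by
    rw [hX2d, hX1d, hg, hjh]
    have e1 := Nat.div_add_mod (j * h) m
    have e2 := Nat.div_add_mod h m
    have e3 := Nat.mod_lt (j * h) hm0
    have e4 := Nat.mod_lt h hm0
    have e5 : j * h + h < (j * h / m + (h / m + 1) + 1) * m := by
      calc j * h + h < m * (j * h / m) + m * (h / m) + m + m := by omega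
        _ = _ := by ring
    exact Nat.lt_succ_iff.1 ((Nat.div_lt_iff_lt_mul hm0).2 e5)
  -- the hypotheses at the two scales
  have hj0 : 0 < j * h := by omega
  obtain ⟨lg1, lg2, lg3⟩ := hlog (j * h) hN1a hN1b
  obtain ⟨lh1, lh2, lh3⟩ := hlog ((j + 1) * h) hN2a hN2b
  have hmA2 : ∀ L : ℝ, (k : ℝ) / 3 ≤ L → (m : ℝ) ≤ L ^ A2 := by
    intro L hL
    calc (m : ℝ) ≤ 2 * (k : ℝ) ^ (A + E) := hmk
      _ ≤ (k : ℝ) / 3 ^ A2 * (k : ℝ) ^ (A + E) := by
          apply mul_le_mul_of_nonneg_right _ (by positivity)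
          rw [le_div_iff₀ (by positivity)]
          exact_mod_cast hk3
      _ = ((k : ℝ) / 3) ^ A2 := by rw [div_pow, ← hA2, pow_succ (k : ℝ)]; ring
      _ ≤ L ^ A2 := pow_le_pow_left₀ (by positivity) hL _
  obtain ⟨S, hS0, hS1, hS2, hS3⟩ := fo_one _ _ _ _ _ _ (hall j hN1a hN1b m (fun _ => d) (hmA2 _ lg1) (fun _ => ⟨hd1, hdm⟩) hadm)
  obtain ⟨S', hS0', hS1', hS2', hS3'⟩ := fo_one _ _ _ _ _ _ (hall (j + 1) hN2a hN2b m (fun _ => d) (hmA2 _ lh1) (fun _ => ⟨hd1, hdm⟩) hadm)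
  have hSS : S' = S := tendsto_nhds_unique hS1' hS1
  rw [hSS] at hS2' hS3'
  rw [← hX1d] at hS2 hS3
  rw [← hX2d] at hS2' hS3'
  obtain ⟨L1, hL1⟩ : ∃ L1, L1 = Real.log ((j * h : ℕ) : ℝ) := ⟨_, rfl⟩
  obtain ⟨L2, hL2⟩ : ∃ L2, L2 = Real.log (((j + 1) * h : ℕ) : ℝ) := ⟨_, rfl⟩
  rw [← hL1] at lg1 lg2 lg3 hS2 hS3
  rw [← hL2] at lh1 lh2 lh3 hS2' hS3'
  have hL1p : 1 ≤ L1 := by linarith
  have hL2p : 1 ≤ L2 := by linarith
  -- the gap is small
  have hgX : (g : ℝ) ≤ ε * X := by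
    have e1 : (h : ℝ) * k ^ D ≤ Q := by exact_mod_cast hh1
    have e2 : (Q : ℝ) ≤ m * X := by exact_mod_cast hmX1.le
    have e3 : ((h / m : ℕ) : ℝ) * m ≤ h := by exact_mod_cast Nat.div_mul_le_self h m
    have hmr : (0 : ℝ) < m := by exact_mod_cast hm0
    have e4 : ((h / m : ℕ) : ℝ) * (k : ℝ) ^ D ≤ X := by
      have : (m : ℝ) * (((h / m : ℕ) : ℝ) * (k : ℝ) ^ D) ≤ m * X := by
        calc (m : ℝ) * (((h / m : ℕ) : ℝ) * (k : ℝ) ^ D) = (((h / m : ℕ) : ℝ) * m) * (k : ℝ) ^ D := by ring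
          _ ≤ h * (k : ℝ) ^ D := mul_le_mul_of_nonneg_right e3 (by positivity)
          _ ≤ _ := e1.trans e2
      exact le_of_mul_le_mul_left this hmr
    have e5 : (k : ℝ) ≤ (k : ℝ) ^ D := le_self_pow₀ (by linarith) (by omega)
    have e6 : ((h / m : ℕ) : ℝ) * k ≤ X := le_trans (mul_le_mul_of_nonneg_left e5 (Nat.cast_nonneg _)) e4
    have e7 : (k : ℝ) ≤ X := by
      have f1 : 2 * (k : ℝ) ^ D ≤ X * (k : ℝ) ^ E := by
        have f2 : 2 * (k : ℝ) ^ D ≤ Q := by exact_mod_cast hQD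
        have f3 : (Q : ℝ) ≤ X * (k : ℝ) ^ E := by exact_mod_cast hX1
        linarith
      have f4 : (k : ℝ) ^ (E + 1) ≤ (k : ℝ) ^ D := pow_le_pow_right₀ (by linarith) hD2
      have f5 : (k : ℝ) * (k : ℝ) ^ E ≤ X * (k : ℝ) ^ E := by
        calc (k : ℝ) * (k : ℝ) ^ E = (k : ℝ) ^ (E + 1) := by rw [pow_succ]; ring
          _ ≤ (k : ℝ) ^ D := f4
          _ ≤ 2 * (k : ℝ) ^ D := by have : (0 : ℝ) < (k : ℝ) ^ D := by positivity
                                    linarith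
          _ ≤ _ := f1
      exact le_of_mul_le_mul_right f5 (by positivity)
    have e8 : (g : ℝ) * k ≤ 2 * X := by
      rw [hg]
      push_cast
      push_cast at e6
      nlinarith
    have e9 : (g : ℝ) * k ≤ (ε * X) * k := by
      calc (g : ℝ) * k ≤ 2 * X := e8
        _ ≤ (ε * k) * X := mul_le_mul_of_nonneg_right hkε (by linarith)
        _ = _ := by ring
    exact le_of_mul_le_mul_right e9 hk0
  have hX1r : (X : ℝ) ≤ X1 + g := by exact_mod_cast hXX2.trans hX12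
  have hX2r : (X2 : ℝ) ≤ X + g := by
    have : X2 ≤ X + g := by omega
    exact_mod_cast this
  have hX1le : (X1 : ℝ) ≤ X := by exact_mod_cast hXX1
  have hX2ge : (X : ℝ) ≤ X2 := by exact_mod_cast hXX2
  have hX1pos : (0 : ℝ) < X1 := by nlinarith
  have hX10 : (0 : ℝ) ≤ X1 := hX1pos.le
  have hX2Q : (X2 : ℝ) ≤ (B + 2) * Q := by
    have : X2 ≤ (B + 2) * Q := by
      rw [hX2d]
      exact (Nat.div_le_self _ _).trans hN2b
    exact_mod_cast this
  -- the bound of `S`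
  have hSb : S ≤ (k : ℝ) ^ 3 := by
    have e1 : FF d a X1 ≤ X1 * Real.log T ^ 2 := by
      have f1 : d * X1 ≤ (B + 2) * Q := by
        have : d * X1 ≤ d * X := Nat.mul_le_mul_left _ hXX1
        have : B * Q ≤ (B + 2) * Q := Nat.mul_le_mul_right _ (by omega)
        omega
      refine FF_le d a X1 T ?_ (hT X1 f1) hT1
      refine le_trans ?_ (hT X1 f1)
      have : X1 ≤ d * X1 + a := by
        have : 1 * X1 ≤ d * X1 := Nat.mul_le_mul_right _ hd1
        omega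
      exact_mod_cast this
    have e2 : (X1 : ℝ) / L1 ^ (U + 1) ≤ X1 := div_le_self hX10 (one_le_pow₀ hL1p)
    have e3 := (abs_le.1 hS2).1
    have e4 : S * X1 ≤ (k : ℝ) ^ 3 * X1 := by
      calc S * X1 ≤ X1 * Real.log T ^ 2 + X1 := by linarith
        _ = (Real.log T ^ 2 + 1) * X1 := by ring
        _ ≤ _ := mul_le_mul_of_nonneg_right hTk hX10
    exact le_of_mul_le_mul_right e4 hX1pos
  refine ⟨S, hS0, hS1, hSb, ?_, ?_⟩
  · -- the weighted number
    have m1 := FF_mono d a hXX1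
    have m2 := FF_mono d a hXX2
    have q1 := (abs_le.1 hS2).1
    have q2 := (abs_le.1 hS2').2
    have hgh : (g : ℝ) ≤ 2 * h := by
      have : g ≤ 2 * h := by
        rw [hg]
        have := Nat.div_le_self h m
        omega
      exact_mod_cast this
    have hSg : S * g ≤ (1 / 2) * (Q / (k : ℝ) ^ U) := by
      have e1 : (h : ℝ) * (k : ℝ) ^ D ≤ Q := by exact_mod_cast hh1
      have e2 : (k : ℝ) ^ (U + 4) ≤ (k : ℝ) ^ D := pow_le_pow_right₀ (by linarith) hD1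
      have e3 : (h : ℝ) * (k : ℝ) ^ (U + 4) ≤ Q := le_trans (mul_le_mul_of_nonneg_left e2 (Nat.cast_nonneg _)) e1
      have e4 : S * g ≤ (k : ℝ) ^ 3 * (2 * h) := mul_le_mul hSb hgh (Nat.cast_nonneg _) (by positivity)
      rw [← mul_div_assoc, le_div_iff₀ (by positivity)]
      calc S * g * (k : ℝ) ^ U ≤ (k : ℝ) ^ 3 * (2 * h) * (k : ℝ) ^ U := mul_le_mul_of_nonneg_right e4 (by positivity)
        _ ≤ (k / 4) * ((k : ℝ) ^ 3 * (2 * h) * (k : ℝ) ^ U) := by
            apply le_mul_of_one_le_left (by positivity)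
            linarith
        _ = 1 / 2 * (h * (k : ℝ) ^ (U + 4)) := by rw [pow_add]; ring
        _ ≤ 1 / 2 * Q := by linarith
    have herr : ∀ L : ℝ, (k : ℝ) / 3 ≤ L → (X2 : ℝ) / L ^ (U + 1) ≤ (1 / 2) * (Q / (k : ℝ) ^ U) := by
      intro L hL
      have e0 : ((k : ℝ) / 3) ^ (U + 1) ≤ L ^ (U + 1) := pow_le_pow_left₀ (by positivity) hL _
      calc (X2 : ℝ) / L ^ (U + 1) ≤ ((B + 2) * Q) / ((k : ℝ) / 3) ^ (U + 1) :=
            div_le_div₀ (by positivity) hX2Q (by positivity) e0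
        _ = (2 * (B + 2) * 3 ^ (U + 1) / k) * ((1 / 2) * (Q / (k : ℝ) ^ U)) := by
            rw [div_pow, pow_succ (k : ℝ)]
            field_simp
        _ ≤ 1 * ((1 / 2) * (Q / (k : ℝ) ^ U)) := by
            apply mul_le_mul_of_nonneg_right _ (by positivity)
            rw [div_le_one hk0]
            exact_mod_cast hkB
        _ = _ := one_mul _
    have r1 := herr L1 lg1
    have r2 := herr L2 lh1
    have r3 : (X1 : ℝ) / L1 ^ (U + 1) ≤ (X2 : ℝ) / L1 ^ (U + 1) := by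
      apply div_le_div_of_nonneg_right _ (by positivity)
      linarith
    have r4 : S * X ≤ S * (X1 + g) := mul_le_mul_of_nonneg_left hX1r hS0.le
    have r5 : S * X2 ≤ S * (X + g) := mul_le_mul_of_nonneg_left hX2r hS0.le
    rw [abs_le]
    constructor
    · linarith
    · linarith
  · -- the number
    have m1 : (cc d a X1 : ℝ) ≤ cc d a X := by exact_mod_cast cc_mono d a hXX1
    have m2 : (cc d a X : ℝ) ≤ cc d a X2 := by exact_mod_cast cc_mono d a hXX2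
    have q1 := (abs_le.1 hS3).1
    have q2 := (abs_le.1 hS3').2
    obtain ⟨Y, hY⟩ : ∃ Y, Y = S * X / l ^ 2 := ⟨_, rfl⟩
    have hY0 : 0 ≤ Y := by rw [hY]; positivity
    rw [← hY]
    have hε1 : ε ≤ 1 / 8 := by linarith
    -- upper bound
    have u1 : S * ((X2 : ℝ) / L2 ^ 2) * (1 - ε) ≤ (1 + ε) * Y := by
      have e1 : (X2 : ℝ) ≤ (1 + ε) * X := by linarith
      have e2 : (X2 : ℝ) / L2 ^ 2 ≤ (1 + ε) * X / ((1 - ε) * l ^ 2) :=
        div_le_div₀ (by positivity) e1 (mul_pos (by linarith) (by positivity)) lh2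
      calc S * ((X2 : ℝ) / L2 ^ 2) * (1 - ε) ≤ S * ((1 + ε) * X / ((1 - ε) * l ^ 2)) * (1 - ε) := by
            apply mul_le_mul_of_nonneg_right _ (by linarith)
            exact mul_le_mul_of_nonneg_left e2 hS0.le
        _ = (1 + ε) * Y := by
            rw [hY]
            have : (1 - ε) ≠ 0 := by linarith
            field_simp
    have u2 : (1 - ε) * Y ≤ S * ((X1 : ℝ) / L1 ^ 2) * (1 + ε) := by
      have e1 : (1 - ε) * (X : ℝ) ≤ X1 := by linarith
      have e2 : (1 - ε) * (X : ℝ) / ((1 + ε) * l ^ 2) ≤ (X1 : ℝ) / L1 ^ 2 :=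
        div_le_div₀ hX10 e1 (by positivity) lg3
      calc (1 - ε) * Y = S * ((1 - ε) * (X : ℝ) / ((1 + ε) * l ^ 2)) * (1 + ε) := by
            rw [hY]
            field_simp
        _ ≤ S * ((X1 : ℝ) / L1 ^ 2) * (1 + ε) := by
            apply mul_le_mul_of_nonneg_right _ (by linarith)
            exact mul_le_mul_of_nonneg_left e2 hS0.le
    obtain ⟨V2, hV2⟩ : ∃ V2, V2 = S * ((X2 : ℝ) / L2 ^ 2) := ⟨_, rfl⟩
    obtain ⟨V1, hV1⟩ : ∃ V1, V1 = S * ((X1 : ℝ) / L1 ^ 2) := ⟨_, rfl⟩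
    rw [← hV2] at u1 q2
    rw [← hV1] at u2 q1
    have hc2 : (cc d a X : ℝ) ≤ (1 + ε) * V2 := by linarith
    have hc1 : (1 - ε) * V1 ≤ (cc d a X : ℝ) := by linarith
    have w2 : (1 + ε) * V2 ≤ (1 + 4 * ε) * Y := by
      have e1 : (1 - ε) * ((1 + ε) * V2) ≤ (1 - ε) * ((1 + 4 * ε) * Y) := by
        calc (1 - ε) * ((1 + ε) * V2) = (1 + ε) * (V2 * (1 - ε)) := by ring
          _ ≤ (1 + ε) * ((1 + ε) * Y) := mul_le_mul_of_nonneg_left u1 (by linarith)
          _ = ((1 + ε) * (1 + ε)) * Y := by ring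
          _ ≤ ((1 - ε) * (1 + 4 * ε)) * Y := by
              apply mul_le_mul_of_nonneg_right _ hY0
              nlinarith
          _ = _ := by ring
      exact le_of_mul_le_mul_left e1 (by linarith)
    have w1 : (1 - 4 * ε) * Y ≤ (1 - ε) * V1 := by
      have e1 : (1 + ε) * ((1 - 4 * ε) * Y) ≤ (1 + ε) * ((1 - ε) * V1) := by
        calc (1 + ε) * ((1 - 4 * ε) * Y) = ((1 + ε) * (1 - 4 * ε)) * Y := by ring
          _ ≤ ((1 - ε) * (1 - ε)) * Y := by
              apply mul_le_mul_of_nonneg_right _ hY0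
              nlinarith
          _ = (1 - ε) * ((1 - ε) * Y) := by ring
          _ ≤ (1 - ε) * (V1 * (1 + ε)) := mul_le_mul_of_nonneg_left u2 (by linarith)
          _ = _ := by ring
      exact le_of_mul_le_mul_left e1 (by linarith)
    rw [abs_le]
    constructor
    · linarith
    · linarith


/-- the formulas for all the lengths `X ≤ B Q / d` -/
def Win (ε : ℝ) (B U k Q d a : ℕ) : Prop := ∃ S : ℝ, 0 < S ∧
  Filter.Tendsto (sing (fun _ : Fin 1 => d) (fun _ : Fin 1 => a)) Filter.atTop (nhds S) ∧ S ≤ (k : ℝ) ^ 3 ∧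
  ∀ X : ℕ, d * X ≤ B * Q → |FF d a X - S * X| ≤ Q / (k : ℝ) ^ U ∧
    |(cc d a X : ℝ) - S * X / Real.log Q ^ 2| ≤ ε * (S * (Q / d) / Real.log Q ^ 2)

lemma win_of (k Q A B D E A2 U d a h : ℕ) (ε ε₁ l T : ℝ) (hε : 0 < ε) (hε₁ : 0 < ε₁) (hε8 : 8 * ε₁ ≤ 1)
    (hεB : 4 * ε₁ * B ≤ ε) (hB : 1 ≤ B)
    (hl : l = Real.log Q) (hl0 : 0 < l) (hk : 4 ≤ k) (hkB : 2 * (B + 2) * 3 ^ (U + 1) ≤ k) (hkε : 2 ≤ ε₁ * k)
    (hkε' : 4 ≤ ε * k)
    (hD1 : U + 4 ≤ D) (hD2 : E + 1 ≤ D) (hE1 : U + 3 ≤ E) (hE2 : A + 1 ≤ E) (hQD : 2 * k ^ D ≤ Q)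
    (hd1 : 1 ≤ d) (hdk : d ≤ k ^ A) (hA2 : A + E + 1 = A2) (hk3 : 2 * 3 ^ A2 ≤ k)
    (hh1 : h * k ^ D ≤ Q) (hh2 : 1 ≤ h)
    (hT : ∀ Y : ℕ, d * Y ≤ (B + 2) * Q → ((d * Y + a : ℕ) : ℝ) ≤ T) (hT1 : 1 ≤ T) (hTk : Real.log T ^ 2 + 1 ≤ (k : ℝ) ^ 3)
    (hlog : ∀ M : ℕ, Q ≤ 2 * M → M ≤ (B + 2) * Q → (k : ℝ) / 3 ≤ Real.log M ∧ (1 - ε₁) * l ^ 2 ≤ Real.log M ^ 2 ∧
      Real.log M ^ 2 ≤ (1 + ε₁) * l ^ 2)
    (hadm : Adm (fun _ : Fin 1 => d) (fun _ : Fin 1 => a))
    (hall : ∀ j : ℕ, Q ≤ 2 * (j * h) → j * h ≤ (B + 2) * Q → AllS ε₁ A2 (U + 1) (j * h) (fun _ : Fin 1 => a)) :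
    Win ε B U k Q d a := by
  have hkr : (4 : ℝ) ≤ k := by exact_mod_cast hk
  have hk0 : (0 : ℝ) < k := by linarith
  have hkn : 0 < k := by omega
  have hQ0 : 0 < Q := by
    have : 0 < k ^ D := by positivity
    omega
  have hQr : (0 : ℝ) < Q := by exact_mod_cast hQ0
  have hdr : (1 : ℝ) ≤ d := by exact_mod_cast hd1
  have hkE : 0 < k ^ E := by positivity
  have hcore := fun X hX1 hX2 => core k Q A B D E A2 U d a X h ε₁ l T hε₁ hε8 hl hl0 hk hkB hkε hD1 hD2 hQD hd1 hdk hA2 hk3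
    hh1 hh2 hX1 hX2 hT hT1 hTk hlog hadm hall
  -- the smallest length
  obtain ⟨X0, hX0⟩ : ∃ X0, X0 = Q / k ^ E + 1 := ⟨_, rfl⟩
  have a1 : Q ≤ X0 * k ^ E := by
    rw [hX0, mul_comm]
    exact (Nat.lt_mul_div_succ _ hkE).le
  have a2 : d * X0 ≤ B * Q := by
    have e1 : (Q / k ^ E) * k ^ E ≤ Q := Nat.div_mul_le_self _ _
    have e2 : k ^ (A + 1) ≤ k ^ E := Nat.pow_le_pow_right hkn hE2
    have e3 : (Q / k ^ E) * (k ^ A * 4) ≤ Q := by
      calc (Q / k ^ E) * (k ^ A * 4) ≤ (Q / k ^ E) * (k ^ A * k) := Nat.mul_le_mul_left _ (Nat.mul_le_mul_left _ hk)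
        _ = (Q / k ^ E) * k ^ (A + 1) := by rw [pow_succ]
        _ ≤ (Q / k ^ E) * k ^ E := Nat.mul_le_mul_left _ e2
        _ ≤ Q := e1
    have e4 : k ^ A ≤ k ^ D := Nat.pow_le_pow_right hkn (by omega)
    have e5 : d * X0 ≤ k ^ A * (Q / k ^ E + 1) := by rw [hX0]; exact Nat.mul_le_mul_right _ hdk
    have e6 : k ^ A * (Q / k ^ E + 1) = (Q / k ^ E) * k ^ A + k ^ A := by ring
    have e7 : (Q / k ^ E) * (k ^ A * 4) = 4 * ((Q / k ^ E) * k ^ A) := by ring
    have e8 : Q ≤ B * Q := Nat.le_mul_of_pos_left _ (by omega)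
    omega
  obtain ⟨S, hS0, hS1, hSk, hS2, hS3⟩ := hcore X0 a1 a2
  refine ⟨S, hS0, hS1, hSk, fun X hX => ?_⟩
  rw [← hl]
  have hl2 : 0 < l ^ 2 := by positivity
  by_cases hXk : Q ≤ X * k ^ E
  · obtain ⟨S', _, hS1', _, hS2', hS3'⟩ := hcore X hXk hX
    have hSS : S' = S := tendsto_nhds_unique hS1' hS1
    rw [hSS] at hS2' hS3'
    refine ⟨hS2', hS3'.trans ?_⟩
    have e1 : (X : ℝ) ≤ B * (Q / d) := by
      rw [← mul_div_assoc, le_div_iff₀ (by linarith)]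
      have : ((d * X : ℕ) : ℝ) ≤ ((B * Q : ℕ) : ℝ) := by exact_mod_cast hX
      push_cast at this
      linarith
    calc 4 * ε₁ * (S * X / l ^ 2) ≤ 4 * ε₁ * (S * (B * (Q / d)) / l ^ 2) := by
          apply mul_le_mul_of_nonneg_left _ (by positivity)
          apply div_le_div_of_nonneg_right _ hl2.le
          exact mul_le_mul_of_nonneg_left e1 hS0.le
      _ = (4 * ε₁ * B) * (S * (Q / d) / l ^ 2) := by ring
      _ ≤ _ := mul_le_mul_of_nonneg_right hεB (by positivity)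
  · push Not at hXk
    have hXX0 : X ≤ X0 := by
      by_contra hcon
      push Not at hcon
      have : X0 * k ^ E ≤ X * k ^ E := Nat.mul_le_mul_right _ hcon.le
      omega
    have hXr : (X : ℝ) * (k : ℝ) ^ E ≤ Q := by exact_mod_cast hXk.le
    have e1 : (X : ℝ) * (k : ℝ) ^ 3 ≤ Q / (k : ℝ) ^ U := by
      rw [le_div_iff₀ (by positivity)]
      calc (X : ℝ) * (k : ℝ) ^ 3 * (k : ℝ) ^ U = X * (k : ℝ) ^ (U + 3) := by rw [pow_add]; ring
        _ ≤ X * (k : ℝ) ^ E := mul_le_mul_of_nonneg_left (pow_le_pow_right₀ (by linarith) hE1) (Nat.cast_nonneg _)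
        _ ≤ Q := hXr
    constructor
    · have e2 : FF d a X ≤ X * Real.log T ^ 2 := by
        have f1 : d * X ≤ (B + 2) * Q := hX.trans (Nat.mul_le_mul_right _ (by omega))
        refine FF_le d a X T ?_ (hT X f1) hT1
        refine le_trans ?_ (hT X f1)
        have : X ≤ d * X + a := by
          have : 1 * X ≤ d * X := Nat.mul_le_mul_right _ hd1
          omega
        exact_mod_cast this
      have e3 : (X : ℝ) * Real.log T ^ 2 ≤ X * (k : ℝ) ^ 3 := mul_le_mul_of_nonneg_left (by linarith) (Nat.cast_nonneg _)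
      have e4 : S * X ≤ (k : ℝ) ^ 3 * X := mul_le_mul_of_nonneg_right hSk (Nat.cast_nonneg _)
      have e5 := FF_nonneg d a X
      have e6 : 0 ≤ S * X := by positivity
      rw [abs_le]
      constructor
      · linarith
      · linarith
    · have b1 : (X0 : ℝ) ≤ 2 * (Q / (k : ℝ) ^ E) := by
        have f1 : ((Q / k ^ E : ℕ) : ℝ) ≤ (Q : ℝ) / (k : ℝ) ^ E := by
          rw [le_div_iff₀ (by positivity)]
          exact_mod_cast Nat.div_mul_le_self Q (k ^ E)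
        have f2 : (1 : ℝ) ≤ (Q : ℝ) / (k : ℝ) ^ E := by
          rw [le_div_iff₀ (by positivity), one_mul]
          have : k ^ E ≤ k ^ D := Nat.pow_le_pow_right hkn (by omega)
          exact_mod_cast (by omega : k ^ E ≤ Q)
        rw [hX0]
        push_cast at f1 ⊢
        linarith
      have b2 : 4 * (Q / (k : ℝ) ^ E) ≤ ε * (Q / d) := by
        have f1 : 4 * (d : ℝ) ≤ ε * (k : ℝ) ^ E := by
          have f2 : (d : ℝ) ≤ (k : ℝ) ^ A := by exact_mod_cast hdk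
          calc 4 * (d : ℝ) ≤ (ε * k) * (k : ℝ) ^ A := mul_le_mul hkε' f2 (by positivity) (by positivity)
            _ = ε * (k : ℝ) ^ (A + 1) := by rw [pow_succ]; ring
            _ ≤ ε * (k : ℝ) ^ E := mul_le_mul_of_nonneg_left (pow_le_pow_right₀ (by linarith) hE2) hε.le
        rw [← mul_div_assoc, ← mul_div_assoc, div_le_div_iff₀ (by positivity) (by linarith)]
        calc 4 * (Q : ℝ) * d = (4 * d) * Q := by ring
          _ ≤ (ε * (k : ℝ) ^ E) * Q := mul_le_mul_of_nonneg_right f1 hQr.le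
          _ = _ := by ring
      have b3 : 2 * (S * X0 / l ^ 2) ≤ ε * (S * (Q / d) / l ^ 2) := by
        calc 2 * (S * X0 / l ^ 2) = S / l ^ 2 * (2 * X0) := by ring
          _ ≤ S / l ^ 2 * (ε * (Q / d)) := by
              apply mul_le_mul_of_nonneg_left _ (by positivity)
              linarith
          _ = _ := by ring
      have b4 := (abs_le.1 hS3).2
      have b5 : (cc d a X : ℝ) ≤ cc d a X0 := by exact_mod_cast cc_mono d a hXX0
      have b6 : S * X / l ^ 2 ≤ S * X0 / l ^ 2 := by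
        apply div_le_div_of_nonneg_right _ hl2.le
        apply mul_le_mul_of_nonneg_left _ hS0.le
        exact_mod_cast hXX0
      have b7 : 4 * ε₁ * (S * X0 / l ^ 2) ≤ 1 * (S * X0 / l ^ 2) := by
        apply mul_le_mul_of_nonneg_right _ (by positivity)
        linarith
      have b8 : (0 : ℝ) ≤ cc d a X := Nat.cast_nonneg _
      have b9 : 0 ≤ S * X / l ^ 2 := by positivity
      have b10 : 0 ≤ S * X0 / l ^ 2 := by positivity
      rw [abs_le]
      constructor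
      · linarith
      · linarith

open Classical in
/-- all the integers nearby, all the slopes and all the lengths -/
theorem good_windows (b : ℕ) (hb : 2 ≤ b) (C : ℕ → (ℕ → ℝ) → Prop) (hC : Good b C) (κ : ℕ) (hκ : 1 ≤ κ) (A B U W : ℕ)
    (hB : 1 ≤ B) (ε : ℝ) (hε : 0 < ε) : ∃ k₀ : ℕ, ∀ k : ℕ, k₀ ≤ k → ∀ p : ℕ → ℝ, C k p → ∀ c : ℕ, c ≤ B * b ^ k →
      ∑ v ∈ range (b ^ k), (if ∀ t ≤ k ^ W, ∀ d : ℕ, 1 ≤ d → d ≤ k ^ A →
        Adm (fun _ : Fin 1 => d) (fun _ : Fin 1 => c + κ * v + t) → Win ε B U k (b ^ k) d (c + κ * v + t) then 0 else p v) ≤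
      1 / (k : ℝ) ^ U := by
  obtain ⟨E, hE⟩ : ∃ E, E = U + A + 3 := ⟨_, rfl⟩
  obtain ⟨D, hD⟩ : ∃ D, D = U + A + 4 := ⟨_, rfl⟩
  obtain ⟨A2, hA2⟩ : ∃ A2, A2 = A + E + 1 := ⟨_, rfl⟩
  obtain ⟨B', hB'⟩ : ∃ B', B' = 2 * B + 4 := ⟨_, rfl⟩
  have hBr0 : (0 : ℝ) ≤ B := Nat.cast_nonneg _
  obtain ⟨ε₁, hε₁⟩ : ∃ ε₁, ε₁ = min (1 / 8) (ε / (4 * (B + 1))) := ⟨_, rfl⟩
  have he0 : 0 < ε₁ := by rw [hε₁]; exact lt_min (by norm_num) (by positivity)
  have he8 : 8 * ε₁ ≤ 1 := by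
    have : ε₁ ≤ 1 / 8 := by rw [hε₁]; exact min_le_left _ _
    linarith
  have heB : 4 * ε₁ * B ≤ ε := by
    have h1 : ε₁ ≤ ε / (4 * (B + 1)) := by rw [hε₁]; exact min_le_right _ _
    rw [le_div_iff₀ (by positivity)] at h1
    nlinarith
  obtain ⟨N₀, hN₀⟩ := good_slopes b hb C hC κ hκ A2 B' (U + D + 3) (W + 1) ε₁ he0
  have hbr : (2 : ℝ) ≤ b := by exact_mod_cast hb
  have hlb : 1 / 2 ≤ Real.log b := by
    have := Real.log_two_gt_d9
    have := Real.log_le_log (by norm_num) hbr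
    linarith
  obtain ⟨T₀, hT₀⟩ : ∃ T₀ : ℕ, T₀ = 2 * B + κ + 3 := ⟨_, rfl⟩
  have hpe : ∀ m : ℕ, ∀ᶠ k : ℕ in Filter.atTop, 2 * k ^ m ≤ b ^ k := by
    intro m
    have e1 := tendsto_pow_const_div_const_pow_of_one_lt m (by linarith : (1 : ℝ) < b)
    have e2 := e1.eventually (gt_mem_nhds (by norm_num : (0 : ℝ) < 1 / 2))
    filter_upwards [e2] with k hk
    rw [div_lt_div_iff₀ (by positivity) (by norm_num)] at hk
    have : (2 : ℝ) * (k : ℝ) ^ m ≤ (b : ℝ) ^ k := by linarith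
    exact_mod_cast this
  obtain ⟨k₁, hk₁⟩ := Filter.eventually_atTop.mp ((hpe D).and (hpe W))
  obtain ⟨k₂, hk₂⟩ := exists_nat_ge (3 * 3 ^ W + 2 / ε₁ + 4 / ε + 8 * Real.log (B + 2) / ε₁ + 8 * Real.log 2 / ε₁ + 12)
  obtain ⟨k₃, hk₃⟩ := exists_nat_ge ((Real.log b + Real.log T₀ + 1) ^ 2 + 1)
  refine ⟨k₁ + k₂ + k₃ + B' * (N₀ + 1) + 2 * (B + 2) * 3 ^ (U + 1) + 2 * 3 ^ A2 + (2 * B + 5) * 3 ^ (U + D + 3) + 4,
    fun k hk p hp c hc => ?_⟩
  obtain ⟨g1, g2⟩ := hk₁ k (by omega)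
  have hk4 : 4 ≤ k := by omega
  have hkr : (4 : ℝ) ≤ k := by exact_mod_cast hk4
  have hk0 : (0 : ℝ) < k := by linarith
  have hk1r : (1 : ℝ) ≤ k := by linarith
  have hkk2 := hk₂.trans (by exact_mod_cast (by omega : k₂ ≤ k) : (k₂ : ℝ) ≤ k)
  have hkk3 := hk₃.trans (by exact_mod_cast (by omega : k₃ ≤ k) : (k₃ : ℝ) ≤ k)
  have hlB0 : 0 ≤ Real.log ((B : ℝ) + 2) := Real.log_nonneg (by linarith)
  have hl20 : 0 ≤ Real.log (2 : ℝ) := Real.log_nonneg (by norm_num)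
  have z1 : 0 ≤ 8 * Real.log ((B : ℝ) + 2) / ε₁ := by positivity
  have z2 : 0 ≤ 8 * Real.log 2 / ε₁ := by positivity
  have z3 : 0 ≤ 2 / ε₁ := by positivity
  have z4 : 0 ≤ 4 / ε := by positivity
  have z5 : (0 : ℝ) < 3 ^ W := by positivity
  have z6 : (1 : ℝ) ≤ 3 ^ W := one_le_pow₀ (by norm_num)
  have hkW : 3 * (3 : ℝ) ^ W ≤ k := by linarith
  have hke1 : 2 ≤ ε₁ * k := by
    have : 2 / ε₁ ≤ k := by linarith
    rw [div_le_iff₀ he0] at this
    linarith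
  have hke2 : 4 ≤ ε * k := by
    have : 4 / ε ≤ k := by linarith
    rw [div_le_iff₀ hε] at this
    linarith
  have hkB2 : 8 * Real.log ((B : ℝ) + 2) ≤ ε₁ * k := by
    have : 8 * Real.log ((B : ℝ) + 2) / ε₁ ≤ k := by linarith
    rw [div_le_iff₀ he0] at this
    linarith
  have hk22 : 8 * Real.log 2 ≤ ε₁ * k := by
    have : 8 * Real.log 2 / ε₁ ≤ k := by linarith
    rw [div_le_iff₀ he0] at this
    linarith
  have hbk : 0 < b ^ k := by positivity
  have hkbk : k < b ^ k := Nat.lt_pow_self (by omega)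
  have hp0 : ∀ v, 0 ≤ p v := hC.nonneg k p hp
  have hkD : 0 < k ^ D := by positivity
  obtain ⟨h, hh⟩ : ∃ h, h = b ^ k / k ^ D := ⟨_, rfl⟩
  have hh1 : h * k ^ D ≤ b ^ k := by rw [hh]; exact Nat.div_mul_le_self _ _
  have hh2 : 1 ≤ h := by
    rw [hh]
    exact (Nat.one_le_div_iff hkD).2 (by omega)
  have hh3 : b ^ k < (h + 1) * k ^ D := by
    rw [hh, mul_comm]
    exact Nat.lt_mul_div_succ _ hkD
  have hh4 : b ^ k ≤ 2 * h * k ^ D := by
    have : (h + 1) * k ^ D ≤ (2 * h) * k ^ D := Nat.mul_le_mul_right _ (by omega)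
    omega
  obtain ⟨l, hl⟩ : ∃ l, l = Real.log ((b ^ k : ℕ) : ℝ) := ⟨_, rfl⟩
  have hle : l = k * Real.log b := by rw [hl]; push_cast; rw [Real.log_pow]
  have hlk : (k : ℝ) / 2 ≤ l := by rw [hle]; nlinarith
  have hl0 : 0 < l := by linarith
  -- the logarithm of a scale
  have hlog : ∀ M : ℕ, b ^ k ≤ 2 * M → M ≤ (B + 2) * b ^ k → (k : ℝ) / 3 ≤ Real.log M ∧ (1 - ε₁) * l ^ 2 ≤ Real.log M ^ 2 ∧
      Real.log M ^ 2 ≤ (1 + ε₁) * l ^ 2 := by
    intro M hM1 hM2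
    have hM0 : (0 : ℝ) < M := by exact_mod_cast (by omega : 0 < M)
    have e1 : l ≤ Real.log 2 + Real.log M := by
      rw [hl, ← Real.log_mul (by norm_num) hM0.ne']
      apply Real.log_le_log (by exact_mod_cast hbk)
      exact_mod_cast hM1
    have e2 : Real.log M ≤ Real.log ((B : ℝ) + 2) + l := by
      rw [hl, ← Real.log_mul (by positivity) (by exact_mod_cast hbk.ne')]
      apply Real.log_le_log hM0
      exact_mod_cast hM2
    have e3 : 4 * Real.log 2 ≤ ε₁ * l := by nlinarith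
    have e4 : 4 * Real.log ((B : ℝ) + 2) ≤ ε₁ * l := by nlinarith
    have e5 : Real.log 2 ≤ 1 := by
      have := Real.log_two_lt_d9
      linarith
    have hk12 : (12 : ℝ) ≤ k := by linarith
    have e6 : 0 ≤ Real.log M := by linarith
    refine ⟨by linarith, ?_, ?_⟩
    · have f1 : (1 - ε₁ / 4) * l ≤ Real.log M := by linarith
      have f2 : 0 ≤ (1 - ε₁ / 4) * l := mul_nonneg (by linarith) hl0.le
      calc (1 - ε₁) * l ^ 2 ≤ ((1 - ε₁ / 4) * l) ^ 2 := by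
            rw [mul_pow]
            apply mul_le_mul_of_nonneg_right _ (by positivity)
            nlinarith
        _ ≤ Real.log M ^ 2 := pow_le_pow_left₀ f2 f1 2
    · have f1 : Real.log M ≤ (1 + ε₁ / 4) * l := by linarith
      calc Real.log M ^ 2 ≤ ((1 + ε₁ / 4) * l) ^ 2 := pow_le_pow_left₀ e6 f1 2
        _ ≤ (1 + ε₁) * l ^ 2 := by
            rw [mul_pow]
            apply mul_le_mul_of_nonneg_right _ (by positivity)
            nlinarith
  obtain ⟨F, hF⟩ : ∃ F, F = (range (2 * (B + 2) * k ^ D + 1)).filter (fun j => b ^ k ≤ 2 * (j * h) ∧ j * h ≤ (B + 2) * b ^ k) :=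
    ⟨_, rfl⟩
  -- one scale
  have hgrid : ∀ j ∈ F, ∑ v ∈ range (b ^ k),
      (if ∀ t : ℕ, (t : ℝ) ≤ Real.log ((j * h : ℕ) : ℝ) ^ (W + 1) →
        AllS ε₁ A2 (U + D + 3) (j * h) (fun _ : Fin 1 => c + κ * v + t) then 0 else p v) ≤
      3 ^ (U + D + 3) / (k : ℝ) ^ (U + D + 3) := by
    intro j hj
    rw [hF, mem_filter] at hj
    obtain ⟨_, hj1, hj2⟩ := hj
    have e0 : N₀ ≤ j * h := by
      by_contra hcon
      have : 2 * (j * h) ≤ B' * (N₀ + 1) := Nat.mul_le_mul (by omega) (by omega)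
      omega
    have e1 := hN₀ (j * h) e0 k (by
        calc b ^ k ≤ 2 * (j * h) := hj1
          _ ≤ B' * (j * h) := Nat.mul_le_mul_right _ (by omega)) (by
        calc j * h ≤ (B + 2) * b ^ k := hj2
          _ ≤ B' * b ^ k := Nat.mul_le_mul_right _ (by omega)) p hp c (by
        calc c ≤ B * b ^ k := hc
          _ ≤ B * (2 * (j * h)) := Nat.mul_le_mul_left _ hj1
          _ = (2 * B) * (j * h) := by ring
          _ ≤ B' * (j * h) := Nat.mul_le_mul_right _ (by omega))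
    refine e1.trans ?_
    have e2 := (hlog (j * h) hj1 hj2).1
    have e3 : 3 ^ (U + D + 3) / (k : ℝ) ^ (U + D + 3) = 1 / ((k : ℝ) / 3) ^ (U + D + 3) := by
      rw [div_pow]
      field_simp
    rw [e3]
    exact one_div_le_one_div_of_le (by positivity) (pow_le_pow_left₀ (by positivity) e2 _)
  -- the union
  have hu : ∀ v ∈ range (b ^ k), (if ∀ t ≤ k ^ W, ∀ d : ℕ, 1 ≤ d → d ≤ k ^ A →
        Adm (fun _ : Fin 1 => d) (fun _ : Fin 1 => c + κ * v + t) → Win ε B U k (b ^ k) d (c + κ * v + t) then 0 else p v) ≤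
      ∑ j ∈ F, (if ∀ t : ℕ, (t : ℝ) ≤ Real.log ((j * h : ℕ) : ℝ) ^ (W + 1) →
        AllS ε₁ A2 (U + D + 3) (j * h) (fun _ : Fin 1 => c + κ * v + t) then 0 else p v) := by
    intro v hv
    have hvb := mem_range.1 hv
    have hnn : ∀ j ∈ F, 0 ≤ (if ∀ t : ℕ, (t : ℝ) ≤ Real.log ((j * h : ℕ) : ℝ) ^ (W + 1) →
        AllS ε₁ A2 (U + D + 3) (j * h) (fun _ : Fin 1 => c + κ * v + t) then 0 else p v) := by
      intro j _
      split_ifs
      · exact le_rfl
      · exact hp0 v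
    by_cases hall : ∀ t ≤ k ^ W, ∀ d : ℕ, 1 ≤ d → d ≤ k ^ A →
        Adm (fun _ : Fin 1 => d) (fun _ : Fin 1 => c + κ * v + t) → Win ε B U k (b ^ k) d (c + κ * v + t)
    · rw [if_pos hall]
      exact sum_nonneg hnn
    rw [if_neg hall]
    have hkey : ∃ j ∈ F, ¬ ∀ t : ℕ, (t : ℝ) ≤ Real.log ((j * h : ℕ) : ℝ) ^ (W + 1) →
        AllS ε₁ A2 (U + D + 3) (j * h) (fun _ : Fin 1 => c + κ * v + t) := by
      by_contra hcon
      push Not at hcon
      apply hall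
      intro t ht d hd1 hdk hadm
      have haQ : c + κ * v + t ≤ (B + κ + 1) * b ^ k := by
        have q1 : κ * v ≤ κ * b ^ k := Nat.mul_le_mul_left _ hvb.le
        have q2 : t ≤ b ^ k := by omega
        calc c + κ * v + t ≤ B * b ^ k + κ * b ^ k + b ^ k := by omega
          _ = _ := by ring
      have hT1 : (1 : ℝ) ≤ ((T₀ * b ^ k : ℕ) : ℝ) := by
        have : 1 ≤ T₀ * b ^ k := Nat.mul_pos (by omega) hbk
        exact_mod_cast this
      refine win_of k (b ^ k) A B D E A2 U d (c + κ * v + t) h ε ε₁ l ((T₀ * b ^ k : ℕ) : ℝ) hε he0 he8 heB hB hl hl0 hk4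
        (by omega) hke1 hke2 (by omega) (by omega) (by omega) (by omega) g1 hd1 hdk hA2.symm (by omega) hh1 hh2 ?_ hT1 ?_
        hlog hadm ?_
      · intro Y hY
        have : d * Y + (c + κ * v + t) ≤ T₀ * b ^ k := by
          have q : T₀ * b ^ k = (B + 2) * b ^ k + (B + κ + 1) * b ^ k := by rw [hT₀]; ring
          omega
        exact_mod_cast this
      · have q0 : (0 : ℝ) < T₀ := by exact_mod_cast (by omega : 0 < T₀)
        have q1 : Real.log ((T₀ * b ^ k : ℕ) : ℝ) = Real.log T₀ + k * Real.log b := by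
          push_cast
          rw [Real.log_mul q0.ne' (by positivity), Real.log_pow]
        have q2 : 0 ≤ Real.log (T₀ : ℝ) := Real.log_natCast_nonneg _
        have q3 : 0 ≤ Real.log ((T₀ * b ^ k : ℕ) : ℝ) := Real.log_natCast_nonneg _
        have q4 : Real.log ((T₀ * b ^ k : ℕ) : ℝ) ≤ (Real.log b + Real.log T₀ + 1) * k := by
          rw [q1]
          nlinarith
        have q5 : Real.log ((T₀ * b ^ k : ℕ) : ℝ) ^ 2 ≤ (Real.log b + Real.log T₀ + 1) ^ 2 * (k : ℝ) ^ 2 := by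
          rw [← mul_pow]
          exact pow_le_pow_left₀ q3 q4 2
        calc Real.log ((T₀ * b ^ k : ℕ) : ℝ) ^ 2 + 1 ≤ (Real.log b + Real.log T₀ + 1) ^ 2 * (k : ℝ) ^ 2 + 1 * (k : ℝ) ^ 2 := by
              have : (1 : ℝ) ≤ (k : ℝ) ^ 2 := one_le_pow₀ hk1r
              linarith
          _ = ((Real.log b + Real.log T₀ + 1) ^ 2 + 1) * (k : ℝ) ^ 2 := by ring
          _ ≤ k * (k : ℝ) ^ 2 := mul_le_mul_of_nonneg_right hkk3 (by positivity)
          _ = _ := by ring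
      · intro j hj1 hj2
        have hjF : j ∈ F := by
          rw [hF, mem_filter, mem_range]
          refine ⟨?_, hj1, hj2⟩
          have q1 : j * h ≤ (2 * (B + 2) * k ^ D) * h := by
            calc j * h ≤ (B + 2) * b ^ k := hj2
              _ ≤ (B + 2) * (2 * h * k ^ D) := Nat.mul_le_mul_left _ hh4
              _ = _ := by ring
          have := Nat.le_of_mul_le_mul_right q1 (by omega)
          omega
        have q2 := (hlog (j * h) hj1 hj2).1
        have q3 : (t : ℝ) ≤ Real.log ((j * h : ℕ) : ℝ) ^ (W + 1) := by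
          have e2 : (t : ℝ) ≤ (k : ℝ) ^ W := by exact_mod_cast ht
          calc (t : ℝ) ≤ (k : ℝ) ^ W := e2
            _ ≤ (k : ℝ) / 3 / 3 ^ W * (k : ℝ) ^ W := by
                apply le_mul_of_one_le_left (by positivity)
                rw [le_div_iff₀ z5]
                linarith
            _ = ((k : ℝ) / 3) ^ (W + 1) := by
                rw [pow_succ, div_pow]
                field_simp
            _ ≤ Real.log ((j * h : ℕ) : ℝ) ^ (W + 1) := pow_le_pow_left₀ (by positivity) q2 _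
        exact allS_mono ε₁ A2 (U + 1) (U + D + 3) (j * h) (by linarith) (by omega) _ (hcon j hjF t q3)
    obtain ⟨j, hj, hj'⟩ := hkey
    have h5 := single_le_sum hnn hj
    rw [if_neg hj'] at h5
    exact h5
  refine (sum_le_sum hu).trans ?_
  rw [sum_comm]
  calc ∑ j ∈ F, ∑ v ∈ range (b ^ k),
      (if ∀ t : ℕ, (t : ℝ) ≤ Real.log ((j * h : ℕ) : ℝ) ^ (W + 1) →
        AllS ε₁ A2 (U + D + 3) (j * h) (fun _ : Fin 1 => c + κ * v + t) then 0 else p v)
      ≤ ∑ _j ∈ F, 3 ^ (U + D + 3) / (k : ℝ) ^ (U + D + 3) := sum_le_sum hgrid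
    _ = F.card * (3 ^ (U + D + 3) / (k : ℝ) ^ (U + D + 3)) := by rw [sum_const, nsmul_eq_mul]
    _ ≤ ((2 * B + 5) * (k : ℝ) ^ D) * (3 ^ (U + D + 3) / (k : ℝ) ^ (U + D + 3)) := by
        apply mul_le_mul_of_nonneg_right _ (by positivity)
        have q1 : F.card ≤ 2 * (B + 2) * k ^ D + 1 := by
          rw [hF]
          exact (card_filter_le _ _).trans (le_of_eq (card_range _))
        have q2 : (F.card : ℝ) ≤ 2 * (B + 2) * (k : ℝ) ^ D + 1 := by exact_mod_cast q1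
        have q3 : 1 ≤ (k : ℝ) ^ D := one_le_pow₀ hk1r
        linarith
    _ = ((2 * B + 5) * 3 ^ (U + D + 3)) / (k : ℝ) ^ 3 * (1 / (k : ℝ) ^ U) := by
        have : (k : ℝ) ^ (U + D + 3) = (k : ℝ) ^ U * (k : ℝ) ^ D * (k : ℝ) ^ 3 := by rw [pow_add, pow_add]
        rw [this]
        field_simp
    _ ≤ 1 * (1 / (k : ℝ) ^ U) := by
        apply mul_le_mul_of_nonneg_right _ (by positivity)
        rw [div_le_one (by positivity)]
        have q1 : (2 * B + 5) * 3 ^ (U + D + 3) ≤ k := by omega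
        have q2 : ((2 : ℝ) * B + 5) * 3 ^ (U + D + 3) ≤ k := by exact_mod_cast q1
        exact q2.trans (le_self_pow₀ hk1r (by norm_num))
    _ = _ := one_mul _

end Pool.Agent.H85G
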