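import Pool.Agent.H85G.W

/-!
Primes `p` in a window for which `(p - a) / d` is a prime, for random `a` and all the windows.
-/

set_option autoImplicit false
set_option maxHeartbeats 1000000

namespace Pool.Agent.H85G

open Finset
open Pool.Agent.N699.ST (Adm sing nu)

/-- the number of the primes `x < p ≤ y` for which `(p - a) / d` is a prime -/
noncomputable def PC (a d x y : ℕ) : ℕ := {p : ℕ | x < p ∧ p ≤ y ∧ p.Prime ∧ ∃ q : ℕ, q.Prime ∧ p = d * q + a}.ncard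

/-- the weighted number of the `x < d n + a ≤ y` -/
noncomputable def WC (a d x y : ℕ) : ℝ := ∑ n ∈ (Icc 1 y).filter (fun n => x < d * n + a ∧ d * n + a ≤ y),
  ArithmeticFunction.vonMangoldt n * ArithmeticFunction.vonMangoldt (d * n + a)

/-- the singular series -/
noncomputable def sg (a d z : ℕ) : ℝ :=
  ∏ p ∈ (Icc 1 z).filter Nat.Prime, (if p ∣ a * d then 1 - 1 / (p : ℝ) else 1 - 2 / (p : ℝ)) / (1 - 1 / (p : ℝ)) ^ 2

lemma le_iff_div {d a n y : ℕ} (hd : 1 ≤ d) (hay : a ≤ y) : d * n + a ≤ y ↔ n ≤ (y - a) / d := by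
  rw [Nat.le_div_iff_mul_le (by omega), mul_comm n d]
  omega

lemma WC_eq {a d x y : ℕ} (hd : 1 ≤ d) (hax : a ≤ x) (hxy : x ≤ y) :
    WC a d x y + FF d a ((x - a) / d) = FF d a ((y - a) / d) := by
  unfold WC FF
  have hsub : Icc 1 ((x - a) / d) ⊆ Icc 1 ((y - a) / d) := Icc_subset_Icc_right (Nat.div_le_div_right (by omega))
  rw [← sum_sdiff hsub]
  congr 1
  apply sum_congr _ (fun _ _ => rfl)
  ext n
  rw [mem_filter, mem_sdiff, mem_Icc, mem_Icc, mem_Icc, ← le_iff_div hd (hax.trans hxy), ← le_iff_div hd hax]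
  constructor
  · rintro ⟨⟨h1, h2⟩, h3, h4⟩
    exact ⟨⟨h1, h4⟩, fun h => by omega⟩
  · rintro ⟨⟨h1, h2⟩, h3⟩
    have h4 : n ≤ d * n := Nat.le_mul_of_pos_left _ (by omega)
    refine ⟨⟨h1, by omega⟩, ?_, h2⟩
    by_contra hcon
    exact h3 ⟨h1, by omega⟩

lemma PC_eq {a d x y : ℕ} (hd : 1 ≤ d) (hax : a ≤ x) (hxy : x ≤ y) :
    PC a d x y + cc d a ((x - a) / d) = cc d a ((y - a) / d) := by
  classical
  unfold PC cc
  have hset : {p : ℕ | x < p ∧ p ≤ y ∧ p.Prime ∧ ∃ q : ℕ, q.Prime ∧ p = d * q + a} =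
      (((Icc 1 ((y - a) / d)).filter fun q => q.Prime ∧ (d * q + a).Prime) \
        ((Icc 1 ((x - a) / d)).filter fun q => q.Prime ∧ (d * q + a).Prime)).image (fun q => d * q + a) := by
    ext p
    rw [coe_image]
    simp only [Set.mem_ofPred_eq, Set.mem_image, mem_coe, mem_sdiff, mem_filter, mem_Icc]
    constructor
    · rintro ⟨h1, h2, h3, q, h4, h5⟩
      subst h5
      refine ⟨q, ⟨⟨⟨h4.one_lt.le, (le_iff_div hd (hax.trans hxy)).1 h2⟩, h4, h3⟩, ?_⟩, rfl⟩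
      rintro ⟨⟨_, h6⟩, _⟩
      have := (le_iff_div hd hax).2 h6
      omega
    · rintro ⟨q, ⟨⟨⟨h1, h2⟩, h3, h4⟩, h5⟩, rfl⟩
      refine ⟨?_, (le_iff_div hd (hax.trans hxy)).2 h2, h4, q, h3, rfl⟩
      by_contra hcon
      exact h5 ⟨⟨h1, (le_iff_div hd hax).1 (by omega)⟩, h3, h4⟩
  rw [hset, Set.ncard_coe_finset, card_image_of_injective _ (fun q q' h => by
    have : d * q = d * q' := by
      have h' : d * q + a = d * q' + a := h
      omega
    exact Nat.eq_of_mul_eq_mul_left (by omega) this)]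
  apply card_sdiff_add_card_eq_card
  exact filter_subset_filter _ (Icc_subset_Icc_right (Nat.div_le_div_right (by omega)))

lemma nu_val {a d p : ℕ} (hp : p.Prime) (hc : Nat.Coprime a d) :
    nu (fun _ : Fin 1 => d) (fun _ : Fin 1 => a) p = if p ∣ a * d then 1 else 2 := by
  classical
  have : Fact p.Prime := ⟨hp⟩
  unfold nu
  simp only [Fin.prod_univ_one]
  split_ifs with hpad
  · rw [card_eq_one]
    refine ⟨0, ?_⟩
    ext r
    rw [mem_filter, mem_range, mem_singleton]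
    constructor
    · rintro ⟨h1, h2⟩
      by_contra hr
      have hpr : ¬ p ∣ r := fun h => by
        have := Nat.le_of_dvd (by omega) h
        omega
      rcases (hp.dvd_mul).1 h2 with h3 | h3
      · exact hpr h3
      rcases (hp.dvd_mul).1 hpad with h4 | h4
      · have h5 : p ∣ d * r := (Nat.dvd_add_left h4).1 h3
        rcases (hp.dvd_mul).1 h5 with h6 | h6
        · have := Nat.dvd_gcd h4 h6
          rw [hc] at this
          exact hp.one_lt.ne' (Nat.dvd_one.1 this)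
        · exact hpr h6
      · have h5 : p ∣ a := (Nat.dvd_add_right (Dvd.dvd.mul_right h4 r)).1 h3
        have := Nat.dvd_gcd h5 h4
        rw [hc] at this
        exact hp.one_lt.ne' (Nat.dvd_one.1 this)
    · rintro rfl
      exact ⟨hp.pos, by simp⟩
  · have hpa : ¬ p ∣ a := fun h => hpad (Dvd.dvd.mul_right h d)
    have hpd : ¬ p ∣ d := fun h => hpad (Dvd.dvd.mul_left h a)
    have hdz : (d : ZMod p) ≠ 0 := fun h => hpd ((ZMod.natCast_eq_zero_iff d p).1 h)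
    have haz : (a : ZMod p) ≠ 0 := fun h => hpa ((ZMod.natCast_eq_zero_iff a p).1 h)
    obtain ⟨x, hx⟩ : ∃ x : ZMod p, x = - (a : ZMod p) / d := ⟨_, rfl⟩
    have hx0 : x ≠ 0 := by
      rw [hx]
      exact div_ne_zero (neg_ne_zero.2 haz) hdz
    have hset : (range p).filter (fun r => p ∣ r * (d * r + a)) = {0, x.val} := by
      ext r
      rw [mem_filter, mem_range, mem_insert, mem_singleton]
      constructor
      · rintro ⟨h1, h2⟩
        rcases (hp.dvd_mul).1 h2 with h3 | h3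
        · left
          by_contra hr
          have := Nat.le_of_dvd (by omega) h3
          omega
        · right
          have h4 : ((d * r + a : ℕ) : ZMod p) = 0 := (ZMod.natCast_eq_zero_iff _ p).2 h3
          push_cast at h4
          have h5 : (r : ZMod p) = x := by
            rw [hx, eq_div_iff hdz]
            linear_combination h4
          rw [← h5, ZMod.val_natCast_of_lt h1]
      · rintro (h | h)
        · rw [h]
          exact ⟨hp.pos, by simp⟩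
        · rw [h]
          refine ⟨ZMod.val_lt x, Dvd.dvd.mul_left ?_ _⟩
          rw [← ZMod.natCast_eq_zero_iff]
          push_cast
          rw [ZMod.natCast_zmod_val, hx]
          field_simp
          ring
    rw [hset, card_pair]
    intro h
    exact hx0 ((ZMod.val_eq_zero x).1 h.symm)

lemma sg_eq {a d : ℕ} (hc : Nat.Coprime a d) : sing (fun _ : Fin 1 => d) (fun _ : Fin 1 => a) = sg a d := by
  funext z
  unfold sing sg
  apply prod_congr rfl
  intro p hp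
  rw [nu_val (mem_filter.1 hp).2 hc]
  split_ifs <;> norm_num

lemma adm_one {a d : ℕ} (hc : Nat.Coprime a d) (h2 : 2 ∣ a * d) : Adm (fun _ : Fin 1 => d) (fun _ : Fin 1 => a) := by
  intro p hp
  have hco : ∀ h1 : p ∣ a, ¬ p ∣ d := fun h1 h2 => by
    have := Nat.dvd_gcd h1 h2
    rw [hc] at this
    exact hp.one_lt.ne' (Nat.dvd_one.1 this)
  have hp1 : ¬ p ∣ 1 := fun h => hp.one_lt.ne' (Nat.dvd_one.1 h)
  by_cases hpd : p ∣ d
  · refine ⟨1, hp1, fun _ h => ?_⟩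
    have h3 : p ∣ a := (Nat.dvd_add_right (Dvd.dvd.mul_right hpd 1)).1 h
    exact hco h3 hpd
  · by_cases hpa : p ∣ a
    · refine ⟨1, hp1, fun _ h => ?_⟩
      have h3 : p ∣ d * 1 := (Nat.dvd_add_left hpa).1 h
      rw [mul_one] at h3
      exact hpd h3
    · have hp2 : ¬ p ∣ 2 := by
        intro h
        have h4 : p = 2 := (Nat.prime_dvd_prime_iff_eq hp Nat.prime_two).1 h
        rw [h4] at hpa hpd
        rcases (Nat.prime_two.dvd_mul).1 h2 with h5 | h5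
        · exact hpa h5
        · exact hpd h5
      by_cases h1 : p ∣ d * 1 + a
      · refine ⟨2, hp2, fun _ h => ?_⟩
        have h3 : p ∣ d * 2 + a := h
        have h4 : d * 2 + a = d + (d * 1 + a) := by ring
        rw [h4] at h3
        exact hpd ((Nat.dvd_add_left h1).1 h3)
      · exact ⟨1, hp1, fun _ => h1⟩

lemma floor_gap {a d x y : ℕ} (hd : 1 ≤ d) (hax : a ≤ x) (hxy : x ≤ y) :
    |(((y - a) / d : ℕ) : ℝ) - ((x - a) / d : ℕ) - ((y : ℝ) - x) / d| ≤ 1 := by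
  have hdr : (0 : ℝ) < d := by exact_mod_cast hd
  have key : ∀ w : ℕ, a ≤ w → (((w - a) / d : ℕ) : ℝ) ≤ ((w : ℝ) - a) / d ∧ ((w : ℝ) - a) / d < (((w - a) / d : ℕ) : ℝ) + 1 := by
    intro w hw
    have e1 := Nat.div_mul_le_self (w - a) d
    have e2 : w - a < d * ((w - a) / d + 1) := Nat.lt_mul_div_succ _ (by omega)
    have e3 : ((w - a : ℕ) : ℝ) = (w : ℝ) - a := by push_cast [Nat.cast_sub hw]; ring
    constructor
    · rw [le_div_iff₀ hdr, ← e3]
      exact_mod_cast e1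
    · rw [div_lt_iff₀ hdr, ← e3, mul_comm]
      exact_mod_cast e2
  obtain ⟨h1, h2⟩ := key x hax
  obtain ⟨h3, h4⟩ := key y (hax.trans hxy)
  have e : ((y : ℝ) - x) / d = ((y : ℝ) - a) / d - ((x : ℝ) - a) / d := by ring
  rw [e, abs_le]
  constructor <;> linarith

/-- all the windows -/
lemma win_windows (B U U' k Q d a : ℕ) (ε ε' : ℝ) (hε' : 3 * ε' * B ≤ ε) (hε'0 : 0 < ε') (hd : 1 ≤ d) (hB : 1 ≤ B)
    (hk : 3 ≤ k) (hU : U + 1 ≤ U') (hQ : (k : ℝ) ^ (U' + 3) ≤ Q) (hQd : (d : ℝ) ≤ ε' * Q) (hQ1 : 1 < Q)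
    (h : Win ε' B U' k Q d a) : ∃ S : ℝ, 0 < S ∧ Filter.Tendsto (sing (fun _ : Fin 1 => d) (fun _ : Fin 1 => a)) Filter.atTop (nhds S) ∧
      (∀ x y : ℕ, a ≤ x → x ≤ y → y ≤ B * Q → |WC a d x y - S * (((y : ℝ) - x) / d)| ≤ Q / (k : ℝ) ^ U) ∧
      (∀ x y : ℕ, a ≤ x → x ≤ y → y ≤ B * Q → (Q : ℝ) ≤ B * ((y : ℝ) - x) →
        |(PC a d x y : ℝ) - S * (((y : ℝ) - x) / d) / Real.log Q ^ 2| ≤ ε * (S * (((y : ℝ) - x) / d) / Real.log Q ^ 2)) := by
  obtain ⟨S, hS0, hS1, hSk, hX⟩ := h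
  have hkr : (3 : ℝ) ≤ k := by exact_mod_cast hk
  have hk0 : (0 : ℝ) < k := by linarith
  have hQr : (1 : ℝ) < Q := by exact_mod_cast hQ1
  have hdr : (1 : ℝ) ≤ d := by exact_mod_cast hd
  have hl0 : 0 < Real.log (Q : ℝ) := Real.log_pos hQr
  have hdY : ∀ w : ℕ, w ≤ B * Q → d * ((w - a) / d) ≤ B * Q := fun w hw => (Nat.mul_div_le _ _).trans (by omega)
  refine ⟨S, hS0, hS1, ?_, ?_⟩
  · intro x y hax hxy hy
    obtain ⟨c1, _⟩ := hX _ (hdY x (by omega))
    obtain ⟨c2, _⟩ := hX _ (hdY y hy)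
    have e1 := WC_eq hd hax hxy
    have e2 := floor_gap hd hax hxy
    obtain ⟨x', hx'⟩ : ∃ x' : ℝ, x' = ((x - a) / d : ℕ) := ⟨_, rfl⟩
    obtain ⟨y', hy'⟩ : ∃ y' : ℝ, y' = ((y - a) / d : ℕ) := ⟨_, rfl⟩
    rw [← hx'] at c1 e2
    rw [← hy'] at c2 e2
    have e3 : S * |y' - x' - ((y : ℝ) - x) / d| ≤ (k : ℝ) ^ 3 * 1 := mul_le_mul hSk e2 (abs_nonneg _) (by positivity)
    have e4 : (k : ℝ) ^ 3 * 1 ≤ Q / (k : ℝ) ^ U' := by
      rw [le_div_iff₀ (by positivity)]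
      calc (k : ℝ) ^ 3 * 1 * (k : ℝ) ^ U' = (k : ℝ) ^ (U' + 3) := by rw [pow_add]; ring
        _ ≤ Q := hQ
    have e5 : 3 * (Q / (k : ℝ) ^ U') ≤ Q / (k : ℝ) ^ U := by
      rw [← mul_div_assoc, div_le_div_iff₀ (by positivity) (by positivity)]
      have f1 : 3 * (k : ℝ) ^ U ≤ (k : ℝ) ^ U' := by
        calc 3 * (k : ℝ) ^ U ≤ k * (k : ℝ) ^ U := mul_le_mul_of_nonneg_right hkr (by positivity)
          _ = (k : ℝ) ^ (U + 1) := by rw [pow_succ]; ring
          _ ≤ _ := pow_le_pow_right₀ (by linarith) hU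
      calc 3 * (Q : ℝ) * (k : ℝ) ^ U = Q * (3 * (k : ℝ) ^ U) := by ring
        _ ≤ Q * (k : ℝ) ^ U' := mul_le_mul_of_nonneg_left f1 (by linarith)
    have e6 : WC a d x y - S * (((y : ℝ) - x) / d) = (FF d a ((y - a) / d) - S * y') - (FF d a ((x - a) / d) - S * x') +
        S * (y' - x' - ((y : ℝ) - x) / d) := by linear_combination e1
    rw [e6]
    have e7 : |S * (y' - x' - ((y : ℝ) - x) / d)| = S * |y' - x' - ((y : ℝ) - x) / d| := by rw [abs_mul, abs_of_pos hS0]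
    have e8 := abs_add_le ((FF d a ((y - a) / d) - S * y') - (FF d a ((x - a) / d) - S * x')) (S * (y' - x' - ((y : ℝ) - x) / d))
    have e9 := abs_sub (FF d a ((y - a) / d) - S * y') (FF d a ((x - a) / d) - S * x')
    linarith
  · intro x y hax hxy hy hQxy
    obtain ⟨_, c1⟩ := hX _ (hdY x (by omega))
    obtain ⟨_, c2⟩ := hX _ (hdY y hy)
    have e1 : (PC a d x y : ℝ) + cc d a ((x - a) / d) = cc d a ((y - a) / d) := by exact_mod_cast PC_eq hd hax hxy
    have e2 := floor_gap hd hax hxy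
    obtain ⟨x', hx'⟩ : ∃ x' : ℝ, x' = ((x - a) / d : ℕ) := ⟨_, rfl⟩
    obtain ⟨y', hy'⟩ : ∃ y' : ℝ, y' = ((y - a) / d : ℕ) := ⟨_, rfl⟩
    rw [← hx'] at c1 e2
    rw [← hy'] at c2 e2
    obtain ⟨L2, hL2⟩ : ∃ L2, L2 = Real.log (Q : ℝ) ^ 2 := ⟨_, rfl⟩
    have hL20 : 0 < L2 := by rw [hL2]; positivity
    rw [← hL2] at c1 c2 ⊢
    obtain ⟨E, hE⟩ : ∃ E, E = S * ((Q : ℝ) / d) / L2 := ⟨_, rfl⟩
    rw [← hE] at c1 c2
    have hE0 : 0 ≤ E := by rw [hE]; positivity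
    have e3 : S / L2 * |y' - x' - ((y : ℝ) - x) / d| ≤ ε' * E := by
      calc S / L2 * |y' - x' - ((y : ℝ) - x) / d| ≤ S / L2 * 1 := mul_le_mul_of_nonneg_left e2 (by positivity)
        _ ≤ S / L2 * (ε' * (Q / d)) := by
            apply mul_le_mul_of_nonneg_left _ (by positivity)
            rw [← mul_div_assoc, le_div_iff₀ (by linarith)]
            linarith
        _ = _ := by rw [hE]; ring
    have e6 : (PC a d x y : ℝ) - S * (((y : ℝ) - x) / d) / L2 = ((cc d a ((y - a) / d) : ℝ) - S * y' / L2) -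
        ((cc d a ((x - a) / d) : ℝ) - S * x' / L2) + S / L2 * (y' - x' - ((y : ℝ) - x) / d) := by
      linear_combination e1
    rw [e6]
    have e7 : |S / L2 * (y' - x' - ((y : ℝ) - x) / d)| = S / L2 * |y' - x' - ((y : ℝ) - x) / d| := by
      rw [abs_mul, abs_of_pos (by positivity : 0 < S / L2)]
    have e8 := abs_add_le (((cc d a ((y - a) / d) : ℝ) - S * y' / L2) - ((cc d a ((x - a) / d) : ℝ) - S * x' / L2))
      (S / L2 * (y' - x' - ((y : ℝ) - x) / d))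
    have e9 := abs_sub ((cc d a ((y - a) / d) : ℝ) - S * y' / L2) ((cc d a ((x - a) / d) : ℝ) - S * x' / L2)
    have e10 : 3 * (ε' * E) ≤ ε * (S * (((y : ℝ) - x) / d) / L2) := by
      have f1 : E ≤ B * (S * (((y : ℝ) - x) / d) / L2) := by
        calc E = S / (d * L2) * Q := by rw [hE]; field_simp
          _ ≤ S / (d * L2) * (B * ((y : ℝ) - x)) := mul_le_mul_of_nonneg_left hQxy (by positivity)
          _ = _ := by field_simp
      have hyx : (0 : ℝ) ≤ (y : ℝ) - x := by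
        have : (x : ℝ) ≤ y := by exact_mod_cast hxy
        linarith
      calc 3 * (ε' * E) = (3 * ε') * E := by ring
        _ ≤ (3 * ε') * (B * (S * (((y : ℝ) - x) / d) / L2)) := mul_le_mul_of_nonneg_left f1 (by linarith)
        _ = (3 * ε' * B) * (S * (((y : ℝ) - x) / d) / L2) := by ring
        _ ≤ _ := mul_le_mul_of_nonneg_right hε' (by positivity)
    linarith

/-- the windows `[N, 2 N]` -/
lemma dyadic (B Q a d N : ℕ) (S ε L : ℝ) (hS : 0 < S) (hε : 0 < ε) (hε1 : ε ≤ 1) (hd : 1 ≤ d) (hB : 1 ≤ B) (hL : 0 < L)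
    (haN : a ≤ N) (hQN : Q ≤ B * N) (hN : 1 ≤ ε * N) (hNQ : 2 * N ≤ B * Q)
    (hN1 : (1 - ε) * L ^ 2 ≤ Real.log N ^ 2) (hN2 : Real.log N ^ 2 ≤ (1 + ε) * L ^ 2) (hN0 : 0 < Real.log N)
    (h : ∀ x y : ℕ, a ≤ x → x ≤ y → y ≤ B * Q → (Q : ℝ) ≤ B * ((y : ℝ) - x) →
        |(PC a d x y : ℝ) - S * (((y : ℝ) - x) / d) / L ^ 2| ≤ ε * (S * (((y : ℝ) - x) / d) / L ^ 2)) :
    |({p : ℕ | N ≤ p ∧ p ≤ 2 * N ∧ p.Prime ∧ ∃ q : ℕ, q.Prime ∧ p = d * q + a}.ncard : ℝ) - S * (N / d) / Real.log N ^ 2| ≤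
      8 * ε * (S * (N / d) / Real.log N ^ 2) := by
  have hdr : (1 : ℝ) ≤ d := by exact_mod_cast hd
  have hBr : (1 : ℝ) ≤ B := by exact_mod_cast hB
  have hNp : (0 : ℝ) < N := by
    rcases Nat.eq_zero_or_pos N with h0 | h0
    · rw [h0, Nat.cast_zero, mul_zero] at hN
      linarith
    · exact_mod_cast h0
  have hNpos : 0 < N := by exact_mod_cast hNp
  -- the beginning of the window
  obtain ⟨w, hw1, hw2, hw⟩ : ∃ w : ℝ, (N : ℝ) ≤ w ∧ w ≤ N + 1 ∧
      |({p : ℕ | N ≤ p ∧ p ≤ 2 * N ∧ p.Prime ∧ ∃ q : ℕ, q.Prime ∧ p = d * q + a}.ncard : ℝ) - S * (w / d) / L ^ 2| ≤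
      ε * (S * (w / d) / L ^ 2) := by
    have hQNr : (Q : ℝ) ≤ B * N := by exact_mod_cast hQN
    rcases Nat.eq_or_lt_of_le haN with he | hlt
    · refine ⟨N, le_rfl, by linarith, ?_⟩
      have h1 := h N (2 * N) haN (by omega) hNQ (by push_cast; nlinarith)
      have e1 : {p : ℕ | N ≤ p ∧ p ≤ 2 * N ∧ p.Prime ∧ ∃ q : ℕ, q.Prime ∧ p = d * q + a} =
          {p : ℕ | N < p ∧ p ≤ 2 * N ∧ p.Prime ∧ ∃ q : ℕ, q.Prime ∧ p = d * q + a} := by
        ext p
        simp only [Set.mem_ofPred_eq]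
        constructor
        · rintro ⟨g1, g2, g3, q, g4, g5⟩
          have : 0 < d * q := Nat.mul_pos (by omega) g4.pos
          exact ⟨by omega, g2, g3, q, g4, g5⟩
        · rintro ⟨g1, g2⟩
          exact ⟨g1.le, g2⟩
      rw [e1]
      unfold PC at h1
      have e2 : (((2 * N : ℕ) : ℝ) - (N : ℝ)) = N := by push_cast; ring
      rw [e2] at h1
      exact h1
    · refine ⟨(N : ℝ) + 1, by linarith, le_rfl, ?_⟩
      have h1 := h (N - 1) (2 * N) (by omega) (by omega) hNQ (by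
        have : ((N - 1 : ℕ) : ℝ) = (N : ℝ) - 1 := by
          rw [Nat.cast_sub (by omega)]
          norm_num
        rw [this]
        push_cast
        nlinarith)
      have e1 : {p : ℕ | N ≤ p ∧ p ≤ 2 * N ∧ p.Prime ∧ ∃ q : ℕ, q.Prime ∧ p = d * q + a} =
          {p : ℕ | N - 1 < p ∧ p ≤ 2 * N ∧ p.Prime ∧ ∃ q : ℕ, q.Prime ∧ p = d * q + a} := by
        ext p
        simp only [Set.mem_ofPred_eq]
        constructor
        · rintro ⟨g1, g2⟩
          exact ⟨by omega, g2⟩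
        · rintro ⟨g1, g2⟩
          exact ⟨by omega, g2⟩
      rw [e1]
      unfold PC at h1
      have e2 : (((2 * N : ℕ) : ℝ) - ((N - 1 : ℕ) : ℝ)) = N + 1 := by
        rw [Nat.cast_sub (by omega)]
        push_cast
        ring
      rw [e2] at h1
      exact h1
  obtain ⟨Z, hZ⟩ : ∃ Z, Z = ({p : ℕ | N ≤ p ∧ p ≤ 2 * N ∧ p.Prime ∧ ∃ q : ℕ, q.Prime ∧ p = d * q + a}.ncard : ℝ) := ⟨_, rfl⟩
  rw [← hZ] at hw ⊢
  obtain ⟨V, hV⟩ : ∃ V, V = S * (N / d) / Real.log N ^ 2 := ⟨_, rfl⟩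
  obtain ⟨Y, hY⟩ : ∃ Y, Y = S * (w / d) / L ^ 2 := ⟨_, rfl⟩
  rw [← hV]
  rw [← hY] at hw
  have hV0 : 0 < V := by rw [hV]; positivity
  have hY1 : Y ≤ (1 + ε) * (1 + ε) * V := by
    have e1 : w ≤ (1 + ε) * N := by linarith
    have e2 : 1 / L ^ 2 ≤ (1 + ε) / Real.log N ^ 2 := by
      rw [div_le_div_iff₀ (by positivity) (by positivity)]
      linarith
    calc Y = S / d * w * (1 / L ^ 2) := by rw [hY]; ring
      _ ≤ S / d * ((1 + ε) * N) * ((1 + ε) / Real.log N ^ 2) := by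
          apply mul_le_mul _ e2 (by positivity) (by positivity)
          exact mul_le_mul_of_nonneg_left e1 (by positivity)
      _ = _ := by rw [hV]; ring
  have hY2 : (1 - ε) * V ≤ Y := by
    have e2 : (1 - ε) / Real.log N ^ 2 ≤ 1 / L ^ 2 := by
      rw [div_le_div_iff₀ (by positivity) (by positivity)]
      linarith
    calc (1 - ε) * V = S / d * N * ((1 - ε) / Real.log N ^ 2) := by rw [hV]; ring
      _ ≤ S / d * N * (1 / L ^ 2) := mul_le_mul_of_nonneg_left e2 (by positivity)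
      _ ≤ S / d * w * (1 / L ^ 2) := by
          apply mul_le_mul_of_nonneg_right _ (by positivity)
          exact mul_le_mul_of_nonneg_left hw1 (by positivity)
      _ = Y := by rw [hY]; ring
  obtain ⟨q1, q2⟩ := abs_le.1 hw
  have r1 : Z ≤ (1 + ε) * Y := by linarith
  have r2 : (1 - ε) * Y ≤ Z := by linarith
  have r3 : (1 + ε) * Y ≤ (1 + 8 * ε) * V := by
    calc (1 + ε) * Y ≤ (1 + ε) * ((1 + ε) * (1 + ε) * V) := mul_le_mul_of_nonneg_left hY1 (by linarith)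
      _ = ((1 + ε) * (1 + ε) * (1 + ε)) * V := by ring
      _ ≤ (1 + 8 * ε) * V := by
          apply mul_le_mul_of_nonneg_right _ hV0.le
          nlinarith [mul_nonneg hε.le hε.le, mul_nonneg (mul_nonneg hε.le hε.le) hε.le]
  have r4 : (1 - 8 * ε) * V ≤ (1 - ε) * Y := by
    calc (1 - 8 * ε) * V ≤ ((1 - ε) * (1 - ε)) * V := by
          apply mul_le_mul_of_nonneg_right _ hV0.le
          nlinarith
      _ = (1 - ε) * ((1 - ε) * V) := by ring
      _ ≤ _ := mul_le_mul_of_nonneg_left hY2 (by linarith)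
  rw [abs_le]
  constructor
  · linarith
  · linarith

/-- all the statements for one pair `a`, `d` -/
def Hd (ε : ℝ) (B U k Q a d : ℕ) : Prop := ∃ S : ℝ, 0 < S ∧ Filter.Tendsto (sg a d) Filter.atTop (nhds S) ∧
  (∀ x y : ℕ, a ≤ x → x ≤ y → y ≤ B * Q → |WC a d x y - S * (((y : ℝ) - x) / d)| ≤ Q / (k : ℝ) ^ U) ∧
  (∀ x y : ℕ, a ≤ x → x ≤ y → y ≤ B * Q → (Q : ℝ) ≤ B * ((y : ℝ) - x) →
    |(PC a d x y : ℝ) - S * (((y : ℝ) - x) / d) / Real.log Q ^ 2| ≤ ε * (S * (((y : ℝ) - x) / d) / Real.log Q ^ 2)) ∧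
  (∀ N : ℕ, a ≤ N → Q ≤ B * N → 2 * N ≤ B * Q →
    |({p : ℕ | N ≤ p ∧ p ≤ 2 * N ∧ p.Prime ∧ ∃ q : ℕ, q.Prime ∧ p = d * q + a}.ncard : ℝ) - S * (N / d) / Real.log N ^ 2| ≤
      ε * (S * (N / d) / Real.log N ^ 2))

open Classical in
/-- the main theorem for a good class -/
theorem good_hd (b : ℕ) (hb : 2 ≤ b) (C : ℕ → (ℕ → ℝ) → Prop) (hC : Good b C) (κ : ℕ) (hκ : 1 ≤ κ) (A B U W : ℕ)
    (hB : 1 ≤ B) (ε : ℝ) (hε : 0 < ε) (hε1 : ε ≤ 1) : ∃ k₀ : ℕ, ∀ k : ℕ, k₀ ≤ k → ∀ p : ℕ → ℝ, C k p → ∀ c : ℕ, c ≤ B * b ^ k →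
      ∑ v ∈ range (b ^ k), (if ∀ t ≤ k ^ W, ∀ d : ℕ, 1 ≤ d → d ≤ k ^ A → Nat.Coprime (c + κ * v + t) d →
        2 ∣ (c + κ * v + t) * d → Hd ε B U k (b ^ k) (c + κ * v + t) d then 0 else p v) ≤ 1 / (k : ℝ) ^ U := by
  obtain ⟨ε₂, hε₂⟩ : ∃ ε₂, ε₂ = ε / 8 := ⟨_, rfl⟩
  have he2 : 0 < ε₂ := by rw [hε₂]; positivity
  have hBr : (1 : ℝ) ≤ B := by exact_mod_cast hB
  obtain ⟨ε₃, hε₃⟩ : ∃ ε₃, ε₃ = ε₂ / (3 * B) := ⟨_, rfl⟩
  have he3 : 0 < ε₃ := by rw [hε₃]; positivity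
  have he3B : 3 * ε₃ * B ≤ ε₂ := by
    rw [hε₃]
    apply le_of_eq
    field_simp
  obtain ⟨k₀, hk₀⟩ := good_windows b hb C hC κ hκ A B (U + 1) W hB ε₃ he3
  have hbr : (2 : ℝ) ≤ b := by exact_mod_cast hb
  have hlb : 1 / 2 ≤ Real.log b := by
    have := Real.log_two_gt_d9
    have := Real.log_le_log (by norm_num) hbr
    linarith
  have hpe : ∀ m : ℕ, ∀ᶠ k : ℕ in Filter.atTop, 2 * k ^ m ≤ b ^ k := by
    intro m
    have e1 := tendsto_pow_const_div_const_pow_of_one_lt m (by linarith : (1 : ℝ) < b)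
    have e2 := e1.eventually (gt_mem_nhds (by norm_num : (0 : ℝ) < 1 / 2))
    filter_upwards [e2] with k hk
    rw [div_lt_div_iff₀ (by positivity) (by norm_num)] at hk
    have : (2 : ℝ) * (k : ℝ) ^ m ≤ (b : ℝ) ^ k := by linarith
    exact_mod_cast this
  obtain ⟨k₁, hk₁⟩ := Filter.eventually_atTop.mp ((hpe (U + 1 + 3)).and (hpe (A + 1)))
  obtain ⟨k₂, hk₂⟩ := exists_nat_ge (1 / ε₃ + B / ε₂ + 8 * Real.log B / ε₂ + 8 * Real.log B + 4)
  refine ⟨k₀ + k₁ + k₂ + 4, fun k hk p hp c hc => ?_⟩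
  obtain ⟨g1, g2⟩ := hk₁ k (by omega)
  have hk4 : 4 ≤ k := by omega
  have hkr : (4 : ℝ) ≤ k := by exact_mod_cast hk4
  have hk0 : (0 : ℝ) < k := by linarith
  have hkk2 := hk₂.trans (by exact_mod_cast (by omega : k₂ ≤ k) : (k₂ : ℝ) ≤ k)
  have hlB0 : 0 ≤ Real.log (B : ℝ) := Real.log_natCast_nonneg _
  have z1 : 0 ≤ 1 / ε₃ := by positivity
  have z2 : 0 ≤ B / ε₂ := by positivity
  have z3 : 0 ≤ 8 * Real.log B / ε₂ := by positivity
  have hk13 : 1 ≤ ε₃ * k := by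
    have : 1 / ε₃ ≤ k := by linarith
    rw [div_le_iff₀ he3] at this
    linarith
  have hkB2 : (B : ℝ) ≤ ε₂ * k := by
    have : B / ε₂ ≤ k := by linarith
    rw [div_le_iff₀ he2] at this
    linarith
  have hkl2 : 8 * Real.log B ≤ ε₂ * k := by
    have : 8 * Real.log B / ε₂ ≤ k := by linarith
    rw [div_le_iff₀ he2] at this
    linarith
  have hkl3 : 8 * Real.log B + 4 ≤ k := by linarith
  have hp0 : ∀ v, 0 ≤ p v := hC.nonneg k p hp
  have hbk : 0 < b ^ k := by positivity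
  have hkbk : k < b ^ k := Nat.lt_pow_self (by omega)
  have hkbkr : (k : ℝ) ≤ ((b ^ k : ℕ) : ℝ) := by exact_mod_cast hkbk.le
  obtain ⟨L, hL⟩ : ∃ L, L = Real.log ((b ^ k : ℕ) : ℝ) := ⟨_, rfl⟩
  have hLe : L = k * Real.log b := by rw [hL]; push_cast; rw [Real.log_pow]
  have hLk : (k : ℝ) / 2 ≤ L := by rw [hLe]; nlinarith
  have hL0 : 0 < L := by linarith
  have h0 := hk₀ k (by omega) p hp c hc
  have hUU : 1 / (k : ℝ) ^ (U + 1) ≤ 1 / (k : ℝ) ^ U :=
    one_div_le_one_div_of_le (by positivity) (pow_le_pow_right₀ (by linarith) (by omega))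
  refine le_trans (sum_le_sum fun v hv => ?_) (h0.trans hUU)
  by_cases hall : ∀ t ≤ k ^ W, ∀ d : ℕ, 1 ≤ d → d ≤ k ^ A →
        Adm (fun _ : Fin 1 => d) (fun _ : Fin 1 => c + κ * v + t) → Win ε₃ B (U + 1) k (b ^ k) d (c + κ * v + t)
  · rw [if_pos hall, if_pos]
    intro t ht d hd1 hdk hco h2
    have hW := hall t ht d hd1 hdk (adm_one hco h2)
    have hQd : (d : ℝ) ≤ ε₃ * ((b ^ k : ℕ) : ℝ) := by
      have e1 : (d : ℝ) ≤ (k : ℝ) ^ A := by exact_mod_cast hdk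
      have e2 : 2 * (k : ℝ) ^ (A + 1) ≤ ((b ^ k : ℕ) : ℝ) := by exact_mod_cast g2
      calc (d : ℝ) ≤ 1 * (k : ℝ) ^ A := by rw [one_mul]; exact e1
        _ ≤ (ε₃ * k) * (k : ℝ) ^ A := mul_le_mul_of_nonneg_right hk13 (by positivity)
        _ = ε₃ * (k : ℝ) ^ (A + 1) := by rw [pow_succ]; ring
        _ ≤ ε₃ * ((b ^ k : ℕ) : ℝ) := by
            apply mul_le_mul_of_nonneg_left _ he3.le
            have : (0 : ℝ) < (k : ℝ) ^ (A + 1) := by positivity
            linarith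
    obtain ⟨S, hS0, hS1, hS2, hS3⟩ := win_windows B U (U + 1) k (b ^ k) d (c + κ * v + t) ε₂ ε₃ he3B he3 hd1 hB (by omega)
      le_rfl (by
        have e2 : 2 * (k : ℝ) ^ (U + 1 + 3) ≤ ((b ^ k : ℕ) : ℝ) := by exact_mod_cast g1
        have : (0 : ℝ) < (k : ℝ) ^ (U + 1 + 3) := by positivity
        linarith) hQd (by omega) hW
    rw [sg_eq hco] at hS1
    refine ⟨S, hS0, hS1, hS2, ?_, ?_⟩
    · intro x y h1 h2' h3 h4
      refine (hS3 x y h1 h2' h3 h4).trans ?_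
      apply mul_le_mul_of_nonneg_right (by rw [hε₂]; linarith)
      have hyx : (0 : ℝ) ≤ (y : ℝ) - x := by
        have : (x : ℝ) ≤ y := by exact_mod_cast h2'
        linarith
      positivity
    · intro N haN hQN hNQ
      rw [← hL] at hS3
      have hNpos : 0 < N := by
        rcases Nat.eq_zero_or_pos N with h' | h'
        · rw [h', mul_zero] at hQN
          omega
        · exact h'
      have hNr : (0 : ℝ) < N := by exact_mod_cast hNpos
      have hQr : (0 : ℝ) < ((b ^ k : ℕ) : ℝ) := by exact_mod_cast hbk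
      have f1 : L ≤ Real.log B + Real.log N := by
        rw [hL, ← Real.log_mul (by linarith) hNr.ne']
        apply Real.log_le_log hQr
        exact_mod_cast hQN
      have f2 : Real.log N ≤ Real.log B + L := by
        rw [hL, ← Real.log_mul (by linarith) hQr.ne']
        apply Real.log_le_log hNr
        have : N ≤ B * b ^ k := by omega
        exact_mod_cast this
      have f3 : 4 * Real.log B ≤ ε₂ * L := by nlinarith
      have f4 : 0 < Real.log N := by linarith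
      have f5 : ε₂ ≤ 1 := by rw [hε₂]; linarith
      have := dyadic B (b ^ k) (c + κ * v + t) d N S ε₂ L hS0 he2 f5 hd1 hB hL0 haN hQN (by
        have q1 : (k : ℝ) ≤ B * N := hkbkr.trans (by exact_mod_cast hQN)
        have q2 : (B : ℝ) * 1 ≤ B * (ε₂ * N) := by
          calc (B : ℝ) * 1 = B := mul_one _
            _ ≤ ε₂ * k := hkB2
            _ ≤ ε₂ * (B * N) := mul_le_mul_of_nonneg_left q1 he2.le
            _ = _ := by ring
        exact le_of_mul_le_mul_left q2 (by linarith)) hNQ (by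
        have q1 : (1 - ε₂ / 4) * L ≤ Real.log N := by linarith
        have q2 : 0 ≤ (1 - ε₂ / 4) * L := mul_nonneg (by linarith) hL0.le
        calc (1 - ε₂) * L ^ 2 ≤ ((1 - ε₂ / 4) * L) ^ 2 := by
              rw [mul_pow]
              apply mul_le_mul_of_nonneg_right _ (by positivity)
              nlinarith
          _ ≤ Real.log N ^ 2 := pow_le_pow_left₀ q2 q1 2) (by
        have q1 : Real.log N ≤ (1 + ε₂ / 4) * L := by linarith
        calc Real.log N ^ 2 ≤ ((1 + ε₂ / 4) * L) ^ 2 := pow_le_pow_left₀ f4.le q1 2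
          _ ≤ (1 + ε₂) * L ^ 2 := by
              rw [mul_pow]
              apply mul_le_mul_of_nonneg_right _ (by positivity)
              nlinarith) f4 hS3
      have e8 : 8 * ε₂ = ε := by rw [hε₂]; ring
      rw [e8] at this
      exact this
  · rw [if_neg hall]
    split_ifs
    · exact hp0 v
    · exact le_rfl

end Pool.Agent.H85G
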